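import Pool.Agent.H24.LV.Targets
import Pool.Agent.H75.CLV.MP

/-!
# Row JE of lvp_modules: Jensen's inequality over the pool
-/

set_option autoImplicit false

open Finset MeasureTheory

namespace Pool.Agent.H22.LVP

open Pool.Agent.H24.CL Pool.Agent.H24.LV

open scoped Classical

/-! ### Elementary tools -/

theorem sum_div (g : ℕ → ℝ) (m : ℕ) (hm : 0 < m) (D : ℕ) :
    ∑ x ∈ range (D * m), g (x / m) = (m : ℝ) * ∑ x ∈ range D, g x := by
  induction D with
  | zero => simp
  | succ D ih =>
    rw [Nat.succ_mul, Finset.sum_range_add, ih, Finset.sum_range_succ, mul_add]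
    congr 1
    have h1 : ∀ x ∈ range m, g ((D * m + x) / m) = g D := by
      intro x hx
      rw [Finset.mem_range] at hx
      congr 1
      rw [Nat.mul_comm D m, Nat.mul_add_div hm, Nat.div_eq_of_lt hx, Nat.add_zero]
    rw [Finset.sum_congr rfl h1, Finset.sum_const, Finset.card_range, nsmul_eq_mul]

theorem avg_div (g : ℕ → ℝ) {D E : ℕ} (hD : 0 < D) (hE : 0 < E) (h : D ∣ E) :
    (1 / (E : ℝ)) * ∑ x ∈ range E, g (x / (E / D)) = (1 / (D : ℝ)) * ∑ x ∈ range D, g x := by
  obtain ⟨m, rfl⟩ := h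
  have hm : 0 < m := Nat.pos_of_mul_pos_left hE |> fun _ => by
    rcases Nat.eq_zero_or_pos m with h0 | h0
    · rw [h0, Nat.mul_zero] at hE; exact absurd hE (lt_irrefl 0)
    · exact h0
  rw [Nat.mul_div_cancel_left m hD, sum_div g m hm D]
  have hD' : (0 : ℝ) < D := by exact_mod_cast hD
  have hm' : (0 : ℝ) < m := by exact_mod_cast hm
  push_cast
  field_simp

theorem bern (n : ℕ) (s t : ℝ) (hs : 0 < s) (ht : 0 ≤ t) :
    s ^ n + n * s ^ n * (t / s - 1) ≤ t ^ n := by
  have h1 : -1 ≤ t / s := by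
    have : 0 ≤ t / s := div_nonneg ht hs.le
    linarith
  have h2 := one_add_mul_sub_le_pow h1 n
  have h3 : 0 ≤ s ^ n := pow_nonneg hs.le n
  have h4 := mul_le_mul_of_nonneg_left h2 h3
  have h5 : s ^ n * (t / s) ^ n = t ^ n := by
    rw [← mul_pow, mul_div_cancel₀ _ hs.ne']
  rw [h5] at h4
  linarith

theorem card_not_inj (Q : Finset ℕ) (m : ℕ) :
    ((Fintype.piFinset (fun _ : Fin (m + 1) => Q)).filter
      (fun f => ¬ Function.Injective f)).card ≤ (m + 1) ^ 2 * Q.card ^ m := by
  have h1 : (Fintype.piFinset (fun _ : Fin (m + 1) => Q)).filter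
      (fun f => ¬ Function.Injective f) ⊆
      ((univ : Finset (Fin (m + 1) × Fin (m + 1))).filter (fun c => c.1 ≠ c.2)).biUnion
        (fun c => (Fintype.piFinset (fun _ : Fin (m + 1) => Q)).filter
          (fun f => f c.1 = f c.2)) := by
    intro f hf
    rw [Finset.mem_filter] at hf
    rw [Function.Injective] at hf
    push Not at hf
    obtain ⟨hf1, i, j, hij, hne⟩ := hf
    rw [Finset.mem_biUnion]
    refine ⟨(i, j), ?_, ?_⟩
    · rw [Finset.mem_filter]; exact ⟨Finset.mem_univ _, hne⟩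
    · rw [Finset.mem_filter]; exact ⟨hf1, hij⟩
  refine le_trans (Finset.card_le_card h1) (le_trans Finset.card_biUnion_le ?_)
  have h2 : ∀ c ∈ (univ : Finset (Fin (m + 1) × Fin (m + 1))).filter (fun c => c.1 ≠ c.2),
      ((Fintype.piFinset (fun _ : Fin (m + 1) => Q)).filter
          (fun f => f c.1 = f c.2)).card ≤ Q.card ^ m := by
    rintro ⟨i, j⟩ hc
    rw [Finset.mem_filter] at hc
    have hne : i ≠ j := hc.2
    have h3 : (Fintype.piFinset (fun _ : Fin m => Q)).card = Q.card ^ m := by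
      rw [Fintype.card_piFinset]; simp
    rw [← h3]
    apply Finset.card_le_card_of_injOn (fun f => fun l => f (i.succAbove l))
    · intro f hf
      rw [Finset.mem_coe, Finset.mem_filter, Fintype.mem_piFinset] at hf
      rw [Finset.mem_coe, Fintype.mem_piFinset]
      intro l
      exact hf.1 _
    · intro f hf f' hf' h
      rw [Finset.mem_coe, Finset.mem_filter] at hf hf'
      have h4 : ∀ l, l ≠ i → f l = f' l := by
        intro l hl
        obtain ⟨l', rfl⟩ := Fin.exists_succAbove_eq hl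
        exact congrFun h l'
      funext l
      by_cases hl : l = i
      · rw [hl]
        have h5 : f i = f j := hf.2
        have h6 : f' i = f' j := hf'.2
        rw [h5, h6]
        exact h4 j hne.symm
      · exact h4 l hl
  refine le_trans (Finset.sum_le_sum h2) ?_
  rw [Finset.sum_const, smul_eq_mul]
  apply Nat.mul_le_mul_right
  refine le_trans (Finset.card_filter_le _ _) (le_of_eq ?_)
  rw [Finset.card_univ, Fintype.card_prod, Fintype.card_fin, sq]

/-! ### The average over the positions and the points -/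

/-- the average over the positions and the points of `V` -/
noncomputable def JJ {k : ℕ} (E : ℕ) (V : Set (X k)) (F : ℕ → X k → ℝ) : ℝ :=
  (1 / (E : ℝ)) * ∑ x ∈ range E, ∫ w in V, F x w

/-- bounded measurable functions -/
def BM {k : ℕ} (F : ℕ → X k → ℝ) : Prop := (∀ x, Measurable (F x)) ∧ ∃ B : ℝ, ∀ x w, |F x w| ≤ B

theorem BM.int {k : ℕ} {F : ℕ → X k → ℝ} (h : BM F) (V : Set (X k)) (x : ℕ) :
    IntegrableOn (F x) V volume := by
  obtain ⟨h1, B, h2⟩ := h
  exact Measure.integrableOn_of_bounded (M := B) (measure_ne_top _ _)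
    (h1 x).aestronglyMeasurable (Filter.Eventually.of_forall fun w => h2 x w)

theorem BM.const {k : ℕ} (c : ℝ) : BM (fun (_ : ℕ) (_ : X k) => c) :=
  ⟨fun _ => measurable_const, |c|, fun _ _ => le_refl _⟩

theorem BM.add {k : ℕ} {F G : ℕ → X k → ℝ} (hF : BM F) (hG : BM G) :
    BM (fun x w => F x w + G x w) := by
  obtain ⟨h1, B, h2⟩ := hF
  obtain ⟨h3, B', h4⟩ := hG
  exact ⟨fun x => (h1 x).add (h3 x), B + B', fun x w =>
    le_trans (abs_add_le _ _) (add_le_add (h2 x w) (h4 x w))⟩

theorem BM.cmul {k : ℕ} {F : ℕ → X k → ℝ} (c : ℝ) (hF : BM F) :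
    BM (fun x w => c * F x w) := by
  obtain ⟨h1, B, h2⟩ := hF
  exact ⟨fun x => (h1 x).const_mul c, |c| * B, fun x w => by
    rw [abs_mul]; exact mul_le_mul_of_nonneg_left (h2 x w) (abs_nonneg _)⟩

theorem JJ_add {k E : ℕ} {V : Set (X k)} {F G : ℕ → X k → ℝ} (hF : BM F) (hG : BM G) :
    JJ E V (fun x w => F x w + G x w) = JJ E V F + JJ E V G := by
  unfold JJ
  rw [← mul_add, ← Finset.sum_add_distrib]
  congr 1
  apply Finset.sum_congr rfl
  intro x _
  exact integral_add (hF.int V x) (hG.int V x)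

theorem JJ_cmul {k E : ℕ} {V : Set (X k)} {F : ℕ → X k → ℝ} (c : ℝ) :
    JJ E V (fun x w => c * F x w) = c * JJ E V F := by
  unfold JJ
  have h : ∀ x ∈ range E, ∫ w in V, c * F x w = c * ∫ w in V, F x w :=
    fun x _ => integral_const_mul c _
  rw [Finset.sum_congr rfl h, ← Finset.mul_sum]
  ring

theorem JJ_mono {k E : ℕ} {V : Set (X k)} {F G : ℕ → X k → ℝ} (hF : BM F) (hG : BM G)
    (h : ∀ x w, F x w ≤ G x w) : JJ E V F ≤ JJ E V G := by
  unfold JJ
  apply mul_le_mul_of_nonneg_left _ (by positivity)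
  apply Finset.sum_le_sum
  intro x _
  exact integral_mono (hF.int V x) (hG.int V x) (fun w => h x w)

theorem JJ_const {k E : ℕ} (hE : 0 < E) {V : Set (X k)} (c : ℝ) :
    JJ E V (fun _ _ => c) = c * volume.real V := by
  unfold JJ
  rw [Finset.sum_const, Finset.card_range, nsmul_eq_mul, setIntegral_const, smul_eq_mul]
  have : (0 : ℝ) < E := by exact_mod_cast hE
  field_simp

theorem JJ_sum {k E : ℕ} {V : Set (X k)} {ι : Type} (s : Finset ι) (F : ι → ℕ → X k → ℝ)
    (hF : ∀ i ∈ s, BM (F i)) : JJ E V (fun x w => ∑ i ∈ s, F i x w) = ∑ i ∈ s, JJ E V (F i) := by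
  unfold JJ
  rw [← Finset.mul_sum, Finset.sum_comm]
  congr 1
  apply Finset.sum_congr rfl
  intro x _
  exact integral_finsetSum s (fun i hi => (hF i hi).int V x)

theorem pf_JE (hST : L_ST) : L_JE := by
  intro k hk Q V Gd ν ρ Ω n hν hρ hρ1 hΩ hn hQ hV hGd hinv hfib hVΩ hmass hbig
  obtain ⟨G, hGm, hGb, hG1, hG2⟩ := hST k Q V Gd ν hk hν hQ hV hGd hinv hfib
  have hν0 : (0 : ℝ) ≤ ν := by linarith
  -- the big modulus
  set E : ℕ := DS Q with hE
  have hDS : ∀ S : Finset ℕ, S ⊆ Q → 0 < DS S := by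
    intro S hS
    unfold DS
    exact Finset.prod_pos (fun p hp => (hQ p (hS hp)).pos)
  have hE0 : 0 < E := hDS Q (Finset.Subset.refl Q)
  have hdvd : ∀ S : Finset ℕ, S ⊆ Q → DS S ∣ E := fun S hS =>
    Finset.prod_dvd_prod_of_subset _ _ _ hS
  set g : ℕ → ℕ → X k → ℝ := fun p x w => G p (x / (E / p)) w with hg
  have hg0 : ∀ p x w, 0 ≤ g p x w := fun p x w => (hGb p _ w).1
  have hgν : ∀ p x w, g p x w ≤ ν := fun p x w => (hGb p _ w).2
  have hgBM : ∀ p, BM (g p) := fun p => ⟨fun x => hGm p _, ν, fun x w => by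
    rw [abs_of_nonneg (hg0 p x w)]; exact hgν p x w⟩
  -- products
  have hprodBM : ∀ f : Fin n → ℕ, BM (fun x w => ∏ i, g (f i) x w) := fun f =>
    ⟨fun x => Finset.measurable_prod _ (fun i _ => (hgBM (f i)).1 x), ν ^ n, fun x w => by
      rw [abs_of_nonneg (Finset.prod_nonneg (fun i _ => hg0 (f i) x w))]
      calc ∏ i, g (f i) x w ≤ ∏ _i : Fin n, ν :=
            Finset.prod_le_prod (fun i _ => hg0 (f i) x w) (fun i _ => hgν (f i) x w)
        _ = ν ^ n := by rw [Finset.prod_const, Finset.card_univ, Fintype.card_fin]⟩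
  -- the mass of the stars
  have hmassS : ∀ S : Finset ℕ, S ⊆ Q → mass k (DS S) (fun b x => Star S V Gd b x) =
      JJ E V (fun x w => ∏ p ∈ S, g p x w) := by
    intro S hS
    unfold mass JJ
    have h1 : (DS S : ℝ) ^ (KN k - k) * ((1 / (DS S : ℝ)) * ∑ x ∈ range (DS S),
        volume.real {b : X k | Star S V Gd b x}) = (1 / (DS S : ℝ)) * ∑ x ∈ range (DS S),
          ∫ w in V, ∏ p ∈ S, G p (x / (DS S / p)) w := by
      rw [mul_left_comm, Finset.mul_sum]
      congr 1
      apply Finset.sum_congr rfl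
      intro x hx
      exact hG2 S hS x (Finset.mem_range.mp hx)
    rw [h1, ← avg_div (fun x => ∫ w in V, ∏ p ∈ S, G p (x / (DS S / p)) w) (hDS S hS) hE0
      (hdvd S hS)]
    congr 1
    apply Finset.sum_congr rfl
    intro x _
    apply integral_congr_ae
    apply Filter.Eventually.of_forall
    intro w
    apply Finset.prod_congr rfl
    intro p hp
    simp only [hg]
    congr 1
    rw [Nat.div_div_eq_div_mul]
    congr 1
    have hpS : p ∣ DS S := Finset.dvd_prod_of_mem _ hp
    obtain ⟨b, hb⟩ := hpS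
    obtain ⟨a, ha⟩ := hdvd S hS
    have hp0 : 0 < p := (hQ p (hS hp)).pos
    have hS0 := hDS S hS
    rw [ha, Nat.mul_div_cancel_left a hS0, hb, Nat.mul_div_cancel_left b hp0, mul_assoc,
      Nat.mul_div_cancel_left _ hp0, mul_comm]
  -- the mean value of `g p`
  have hgmean : ∀ p ∈ Q, ρ * Ω ≤ JJ E V (g p) := by
    intro p hp
    have hp0 : 0 < p := (hQ p hp).pos
    have hp0' : (0 : ℝ) < p := by exact_mod_cast hp0
    refine le_trans (hmass p hp) (le_of_eq ?_)
    have h1 : JJ E V (g p) = (1 / (p : ℝ)) * ∑ x ∈ range p, ∫ w in V, G p x w := by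
      unfold JJ
      rw [← avg_div (fun x => ∫ w in V, G p x w) hp0 hE0 (by
        rw [hE]; exact Finset.dvd_prod_of_mem _ hp)]
    rw [h1]
    have h2 : ∀ x ∈ range p, ∫ w in V, G p x w =
        (p : ℝ) ^ (KN k - k) * ∫ a in Gd p, V.indicator (fun _ => (1 : ℝ)) (phi p x a) := by
      intro x hx
      rw [hG1 p hp x (Finset.mem_range.mp hx) (V.indicator (fun _ => (1 : ℝ))) 1
        (measurable_const.indicator hV) (fun a => by
          by_cases ha : a ∈ V
          · rw [Set.indicator_of_mem ha]; simp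
          · rw [Set.indicator_of_notMem ha]; simp)]
      rw [← integral_indicator hV]
      apply integral_congr_ae
      apply Filter.Eventually.of_forall
      intro w
      by_cases hw : w ∈ V
      · simp [hw]
      · simp [hw]
    rw [Finset.sum_congr rfl h2, ← Finset.mul_sum, mul_left_comm]
    congr 1
    have hcont := fun x : ℕ => (Pool.Agent.H75.CLV.pf_MP k p x hp0).1.measurable
    rw [← integral_finsetSum]
    · rw [← integral_const_mul]
      apply integral_congr_ae
      apply Filter.Eventually.of_forall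
      intro a
      simp only [hd, pos]
      rw [Finset.card_filter]
      push_cast
      rw [div_eq_inv_mul, one_div]
      congr 1
    · intro x _
      apply Measure.integrableOn_of_bounded (M := 1) (measure_ne_top _ _)
      · exact ((measurable_const.indicator hV).comp (hcont x)).aestronglyMeasurable
      · apply Filter.Eventually.of_forall
        intro a
        by_cases hx : phi p x a ∈ V
        · rw [Set.indicator_of_mem hx]; simp
        · rw [Set.indicator_of_notMem hx]; simp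
  -- sum over the pool
  have hQ0 : (0 : ℝ) < Q.card := by
    have h1 : (0 : ℝ) < 2 * (n : ℝ) ^ 2 * ν ^ n := by
      have : (0 : ℝ) < n := by exact_mod_cast hn
      have : (0 : ℝ) < ν := by linarith
      positivity
    have h2 : 0 < ρ ^ n * Q.card := lt_of_lt_of_le h1 hbig
    have h3 : 0 < ρ ^ n := pow_pos hρ n
    exact (mul_pos_iff_of_pos_left h3).mp h2
  set s : ℝ := Q.card * ρ with hs
  have hs0 : 0 < s := mul_pos hQ0 hρ
  set SQ : ℕ → X k → ℝ := fun x w => ∑ p ∈ Q, g p x w with hSQ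
  have hSQBM : BM SQ := ⟨fun x => Finset.measurable_sum _ (fun p _ => (hgBM p).1 x),
    Q.card * ν, fun x w => by
      rw [abs_of_nonneg (Finset.sum_nonneg (fun p _ => hg0 p x w)), ← nsmul_eq_mul,
        ← Finset.sum_const]
      exact Finset.sum_le_sum (fun p _ => hgν p x w)⟩
  have hSQ0 : ∀ x w, 0 ≤ SQ x w := fun x w => Finset.sum_nonneg (fun p _ => hg0 p x w)
  have hSQint : s * Ω ≤ JJ E V SQ := by
    rw [hSQ, JJ_sum Q g (fun p _ => hgBM p)]
    have h1 : ∑ _p ∈ Q, ρ * Ω ≤ ∑ p ∈ Q, JJ E V (g p) := Finset.sum_le_sum hgmean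
    rw [Finset.sum_const, nsmul_eq_mul] at h1
    rw [hs]; linarith
  have hpowBM : BM (fun x w => SQ x w ^ n) := by
    obtain ⟨h1, B, h2⟩ := hSQBM
    refine ⟨fun x => (h1 x).pow_const n, B ^ n, fun x w => ?_⟩
    rw [abs_pow]
    exact pow_le_pow_left₀ (abs_nonneg _) (h2 x w) n
  have hJ : s ^ n * Ω ≤ JJ E V (fun x w => SQ x w ^ n) := by
    have h1 : JJ E V (fun x w => (s ^ n - n * s ^ n) + (n * s ^ n / s) * SQ x w) ≤
        JJ E V (fun x w => SQ x w ^ n) := by
      apply JJ_mono ((BM.const _).add (hSQBM.cmul _)) hpowBM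
      intro x w
      have h2 := bern n s (SQ x w) hs0 (hSQ0 x w)
      refine le_trans (le_of_eq ?_) h2
      field_simp
      ring
    refine le_trans ?_ h1
    rw [JJ_add (BM.const _) (hSQBM.cmul _), JJ_const hE0, JJ_cmul]
    have h3 : 0 ≤ n * s ^ n / s := by positivity
    have h4 := mul_le_mul_of_nonneg_left hSQint h3
    have h5 : n * s ^ n / s * (s * Ω) = n * s ^ n * Ω := by field_simp
    rw [h5] at h4
    have h6 : (1 : ℝ) ≤ n := by exact_mod_cast hn
    have h7 : 0 ≤ s ^ n := pow_nonneg hs0.le n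
    have h8 : 0 ≤ (n - 1) * s ^ n * (Ω - volume.real V) :=
      mul_nonneg (mul_nonneg (by linarith) h7) (by linarith)
    nlinarith
  -- expansion
  set PS := Fintype.piFinset (fun _ : Fin n => Q) with hPS
  have hexp : JJ E V (fun x w => SQ x w ^ n) =
      ∑ f ∈ PS, JJ E V (fun x w => ∏ i, g (f i) x w) := by
    rw [← JJ_sum PS (fun f x w => ∏ i, g (f i) x w) (fun f _ => hprodBM f)]
    congr 1
    funext x w
    have h1 := Finset.prod_univ_sum (fun _ : Fin n => Q) (fun _ p => g p x w)
    rw [Finset.prod_const, Finset.card_univ, Fintype.card_fin] at h1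
    exact h1
  have hPScard : PS.card = Q.card ^ n := by
    rw [hPS, Fintype.card_piFinset]; simp
  have hup : ∀ f : Fin n → ℕ, JJ E V (fun x w => ∏ i, g (f i) x w) ≤ ν ^ n * Ω := by
    intro f
    have h1 : JJ E V (fun x w => ∏ i, g (f i) x w) ≤ JJ E V (fun _ _ => ν ^ n) := by
      apply JJ_mono (hprodBM f) (BM.const _)
      intro x w
      calc ∏ i, g (f i) x w ≤ ∏ _i : Fin n, ν :=
            Finset.prod_le_prod (fun i _ => hg0 (f i) x w) (fun i _ => hgν (f i) x w)
        _ = ν ^ n := by rw [Finset.prod_const, Finset.card_univ, Fintype.card_fin]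
    rw [JJ_const hE0] at h1
    exact le_trans h1 (mul_le_mul_of_nonneg_left hVΩ (pow_nonneg hν0 n))
  have hnoninj : ∑ f ∈ PS.filter (fun f => ¬ Function.Injective f),
      JJ E V (fun x w => ∏ i, g (f i) x w) ≤ s ^ n * Ω / 2 := by
    refine le_trans (Finset.sum_le_sum (fun f _ => hup f)) ?_
    rw [Finset.sum_const, nsmul_eq_mul]
    obtain ⟨m, rfl⟩ : ∃ m, n = m + 1 := ⟨n - 1, by omega⟩
    have h1 := card_not_inj Q m
    have h2 : ((PS.filter (fun f => ¬ Function.Injective f)).card : ℝ) ≤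
        ((m : ℝ) + 1) ^ 2 * (Q.card : ℝ) ^ m := by
      have h3 : ((PS.filter (fun f => ¬ Function.Injective f)).card : ℝ) ≤
        (((m + 1) ^ 2 * Q.card ^ m : ℕ) : ℝ) := by exact_mod_cast h1
      push_cast at h3
      exact h3
    have h4 : 0 ≤ ν ^ (m + 1) * Ω := mul_nonneg (pow_nonneg hν0 _) hΩ.le
    refine le_trans (mul_le_mul_of_nonneg_right h2 h4) ?_
    push_cast at hbig
    have h5 : 0 ≤ (Q.card : ℝ) ^ m * Ω := by positivity
    have h6 := mul_le_mul_of_nonneg_right hbig h5
    rw [hs, mul_pow, pow_succ (Q.card : ℝ) m]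
    nlinarith
  have hinjsum : s ^ n * Ω / 2 ≤ ∑ f ∈ PS.filter (fun f => Function.Injective f),
      JJ E V (fun x w => ∏ i, g (f i) x w) := by
    have h1 := Finset.sum_filter_add_sum_filter_not PS (fun f => Function.Injective f)
      (fun f => JJ E V (fun x w => ∏ i, g (f i) x w))
    rw [← hexp] at h1
    linarith
  -- one tuple
  obtain ⟨f, hf, hfbig⟩ : ∃ f ∈ PS.filter (fun f => Function.Injective f),
      ρ ^ n * Ω / 2 ≤ JJ E V (fun x w => ∏ i, g (f i) x w) := by
    by_contra hno
    push Not at hno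
    have hB : 0 < s ^ n * Ω / 2 := by positivity
    rcases (PS.filter (fun f => Function.Injective f)).eq_empty_or_nonempty with h0 | h0
    · rw [h0, Finset.sum_empty] at hinjsum
      linarith
    · have h1 := Finset.sum_lt_sum_of_nonempty h0 hno
      rw [Finset.sum_const, nsmul_eq_mul] at h1
      have h2 : ((PS.filter (fun f => Function.Injective f)).card : ℝ) ≤ (Q.card : ℝ) ^ n := by
        rw [← Nat.cast_pow, ← hPScard]
        exact_mod_cast Finset.card_filter_le _ _
      have h3 : 0 ≤ ρ ^ n * Ω / 2 := by positivity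
      have h4 := mul_le_mul_of_nonneg_right h2 h3
      rw [hs, mul_pow] at hinjsum
      linarith
  rw [Finset.mem_filter, hPS, Fintype.mem_piFinset] at hf
  refine ⟨(univ : Finset (Fin n)).image f, ?_, ?_, ?_⟩
  · intro p hp
    obtain ⟨i, _, rfl⟩ := Finset.mem_image.mp hp
    exact hf.1 i
  · rw [Finset.card_image_of_injective _ hf.2, Finset.card_univ, Fintype.card_fin]
  · rw [hmassS _ (by
      intro p hp
      obtain ⟨i, _, rfl⟩ := Finset.mem_image.mp hp
      exact hf.1 i)]
    have h1 : (fun (x : ℕ) (w : X k) => ∏ p ∈ (univ : Finset (Fin n)).image f, g p x w) =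
        fun x w => ∏ i, g (f i) x w := by
      funext x w
      rw [Finset.prod_image (fun i _ j _ h => hf.2 h)]
    rw [h1]
    linarith

end Pool.Agent.H22.LVP
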