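import Pool.Agent.H24.LV.Targets
import Pool.Agent.H58.CLV.TO
import Pool.Agent.H58.CLV.KC
import Pool.Agent.H11.CLV.SH

/-!
# Row PC of lvp_modules: bad `q`-lines in a table
-/

set_option autoImplicit false

open Finset MeasureTheory

namespace Pool.Agent.H22.LVP

open Pool.Agent.H24.CL Pool.Agent.H24.LV

open scoped Classical

/-! ### Representatives -/

theorem reps {G : Type} [AddCommGroup G] (A : AddSubgroup G) (K Hs : Finset G)
    (hHs : ∀ x, x ∈ Hs ↔ x ∈ A) (hK : ∀ κ ∈ K, ∀ h ∈ A, κ + h ∈ K) :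
    ∃ R ⊆ K, (∀ r ∈ R, ∀ r' ∈ R, r - r' ∈ A → r = r') ∧
      ∀ F : G → ℝ, (∀ κ ∈ K, ∀ h ∈ A, F (κ + h) = F κ) →
        ∑ κ ∈ K, F κ = (Hs.card : ℝ) * ∑ r ∈ R, F r := by
  set o : G → G := fun x => (QuotientAddGroup.mk x : G ⧸ A).out with ho
  have hmk : ∀ x, (QuotientAddGroup.mk (o x) : G ⧸ A) = QuotientAddGroup.mk x := fun x =>
    Quotient.out_eq' _
  have hoA : ∀ x, o x - x ∈ A := by
    intro x
    have h1 := (QuotientAddGroup.eq (s := A)).mp (hmk x).symm
    rw [sub_eq_neg_add]
    exact h1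
  have hoK : ∀ x ∈ K, o x ∈ K := by
    intro x hx
    have h1 := hK x hx (o x - x) (hoA x)
    rwa [add_sub_cancel] at h1
  refine ⟨K.image o, ?_, ?_, ?_⟩
  · intro r hr
    obtain ⟨x, hx, rfl⟩ := Finset.mem_image.mp hr
    exact hoK x hx
  · intro r hr r' hr' hrr
    obtain ⟨x, hx, rfl⟩ := Finset.mem_image.mp hr
    obtain ⟨x', hx', rfl⟩ := Finset.mem_image.mp hr'
    have h1 : (QuotientAddGroup.mk (o x) : G ⧸ A) = QuotientAddGroup.mk (o x') := by
      rw [QuotientAddGroup.eq]
      have h2 := A.neg_mem hrr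
      rw [neg_sub] at h2
      rw [← sub_eq_neg_add]
      exact h2
    rw [hmk, hmk] at h1
    simp only [ho]
    rw [h1]
  · intro F hF
    rw [← Finset.sum_fiberwise_of_maps_to (g := o) (t := K.image o)
      (fun x hx => Finset.mem_image_of_mem o hx), Finset.mul_sum]
    apply Finset.sum_congr rfl
    intro r hr
    obtain ⟨x, hx, rfl⟩ := Finset.mem_image.mp hr
    have hoo : ∀ y, o y - o x ∈ A → o y = o x := by
      intro y hy
      have h1 : (QuotientAddGroup.mk (o x) : G ⧸ A) = QuotientAddGroup.mk (o y) := by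
        rw [QuotientAddGroup.eq]
        rw [← sub_eq_neg_add]
        exact hy
      rw [hmk, hmk] at h1
      simp only [ho]
      rw [h1]
    have h1 : ∀ κ ∈ K.filter (fun κ => o κ = o x), F κ = F (o x) := by
      intro κ hκ
      rw [Finset.mem_filter] at hκ
      have h2 : κ = o x + (κ - o x) := by rw [add_sub_cancel]
      have h3 : κ - o x ∈ A := by
        rw [← hκ.2]
        have := A.neg_mem (hoA κ)
        rwa [neg_sub] at this
      rw [h2]
      exact hF (o x) (hoK x hx) _ h3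
    rw [Finset.sum_congr rfl h1, Finset.sum_const, nsmul_eq_mul]
    congr 2
    symm
    apply Finset.card_bij (fun h _ => o x + h)
    · intro h hh
      rw [Finset.mem_filter]
      refine ⟨hK _ (hoK x hx) h ((hHs h).mp hh), ?_⟩
      apply hoo
      have h4 := A.add_mem (hoA (o x + h)) ((hHs h).mp hh)
      have h5 : o (o x + h) - (o x + h) + h = o (o x + h) - o x := by abel
      rwa [h5] at h4
    · intro h _ h' _ hhh
      exact add_left_cancel hhh
    · intro κ hκ
      rw [Finset.mem_filter] at hκ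
      refine ⟨κ - o x, ?_, by rw [add_sub_cancel]⟩
      rw [hHs, ← hκ.2]
      have := A.neg_mem (hoA κ)
      rwa [neg_sub] at this

/-! ### Torsion -/

theorem mem_H {k q r : ℕ} {a : X k} : a ∈ H k q r ↔ q ^ r • a = 0 := by
  unfold H
  rw [AddMonoidHom.mem_ker]
  rfl

theorem phi_H {k q r : ℕ} {a : X k} (D x : ℕ) (h : a ∈ H k q r) : phi D x a ∈ H k q r := by
  rw [mem_H] at h ⊢
  rw [← map_nsmul, h, map_zero]

theorem H_mono {k q r s : ℕ} {a : X k} (hrs : r ≤ s) (h : a ∈ H k q r) : a ∈ H k q s := by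
  rw [mem_H] at h ⊢
  have h1 : q ^ s = q ^ r * q ^ (s - r) := by rw [← pow_add]; congr 1; omega
  rw [h1, mul_nsmul, h, nsmul_zero]

theorem phi_sup {k p q : ℕ} {a : X k} (D x : ℕ) (h : a ∈ H k p k ⊔ H k q k) :
    phi D x a ∈ H k p k ⊔ H k q k := by
  obtain ⟨y, hy, z, hz, rfl⟩ := AddSubgroup.mem_sup.mp h
  rw [map_add]
  exact AddSubgroup.add_mem_sup (phi_H D x hy) (phi_H D x hz)

theorem H_disj {k p q : ℕ} (hpq : p.Coprime q) {a : X k} (h1 : a ∈ H k p k)
    (h2 : a ∈ H k q k) : a = 0 := by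
  rw [mem_H] at h1 h2
  have hc : (p ^ k).Coprime (q ^ k) := Nat.Coprime.pow k k hpq
  have h3 : addOrderOf a ∣ p ^ k := addOrderOf_dvd_of_nsmul_eq_zero h1
  have h4 : addOrderOf a ∣ q ^ k := addOrderOf_dvd_of_nsmul_eq_zero h2
  have h5 : addOrderOf a ∣ 1 := by
    rw [← hc]
    exact Nat.dvd_gcd h3 h4
  rw [Nat.dvd_one] at h5
  exact AddMonoid.addOrderOf_eq_one_iff.mp h5

/-- `phi q z` is injective modulo `H k p 1` on the points of order a power of `p`. -/
theorem inj_mod (hCO : L_CO) {k p q : ℕ} (hpq : p.Coprime q) (z : ℕ) {a : X k}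
    (h : a ∈ H k p k) (h2 : phi q z a ∈ H k p 1) : a ∈ H k p 1 := by
  rw [mem_H] at h h2 ⊢
  rw [pow_one] at h2 ⊢
  rw [← map_nsmul] at h2
  apply hCO.2.2.1 k q z (p ^ k) (p • a) (Nat.Coprime.pow_right k hpq.symm) _ h2
  rw [smul_comm, h, nsmul_zero]

/-- The `p`-part of a point of the table which is seen modulo `H k p 1` on a row. -/
theorem part_mod (hCO : L_CO) {k p q : ℕ} (hpq : p.Coprime q) (z : ℕ) {dp dq : X k}
    (hp : dp ∈ H k p k) (hq : dq ∈ H k q k) (h : phi q z (dp + dq) ∈ H k p 1) (hk : 1 ≤ k) :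
    dp ∈ H k p 1 := by
  rw [map_add] at h
  have h1 : phi q z dq ∈ H k p k := by
    have h2 := (H k p k).sub_mem (H_mono hk h) (phi_H q z hp)
    rwa [add_sub_cancel_left] at h2
  have h3 : phi q z dq = 0 := H_disj hpq h1 (phi_H q z hq)
  rw [h3, add_zero] at h
  exact inj_mod hCO hpq z hp h

theorem two_lines (hCO : L_CO) {k p q : ℕ} (hpq : p.Coprime q) (hk : 1 ≤ k) (z1 z2 : ℕ)
    {d1 d2 : X k} (h1 : d1 ∈ H k p k ⊔ H k q k) (h2 : d2 ∈ H k p k ⊔ H k q k)
    (e1 : phi q z1 d1 ∈ H k p 1) (e2 : phi q z2 d2 ∈ H k p 1) (h : d1 - d2 ∈ H k p k) :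
    d1 - d2 ∈ H k p 1 := by
  obtain ⟨a1, ha1, b1, hb1, rfl⟩ := AddSubgroup.mem_sup.mp h1
  obtain ⟨a2, ha2, b2, hb2, rfl⟩ := AddSubgroup.mem_sup.mp h2
  have f1 := part_mod hCO hpq z1 ha1 hb1 e1 hk
  have f2 := part_mod hCO hpq z2 ha2 hb2 e2 hk
  have h3 : b1 - b2 = 0 := by
    apply H_disj hpq _ ((H k q k).sub_mem hb1 hb2)
    have h4 := (H k p k).sub_mem h ((H k p k).sub_mem ha1 ha2)
    have h5 : a1 + b1 - (a2 + b2) - (a1 - a2) = b1 - b2 := by abel
    rwa [h5] at h4
  have h6 : a1 + b1 - (a2 + b2) = (a1 - a2) + (b1 - b2) := by abel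
  rw [h6, h3, add_zero]
  exact (H k p 1).sub_mem f1 f2

/-! ### Crossings -/

/-- the lonely crossings of the `q`-line `phi p y b`, `κ` in a set `R` of representatives -/
noncomputable def EE {k : ℕ} (p q : ℕ) (V G : Set (X k)) (kap : ℝ) (R : Finset (X k)) (b : X k)
    (y : ℕ) : Finset (X k × ℕ) :=
  (R ×ˢ range q).filter (fun c => acr p q V G (b + c.1) y < kap / 2 ∧
    phi q c.2 (phi p y b) ∈ V ∧ phi q ((y + p * c.2) % q) (b + c.1) ∈ G)

theorem mem_EE {k : ℕ} {p q : ℕ} {V G : Set (X k)} {kap : ℝ} {R : Finset (X k)} {b : X k}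
    {y : ℕ} {c : X k × ℕ} : c ∈ EE p q V G kap R b y ↔ (c.1 ∈ R ∧ c.2 < q) ∧
      acr p q V G (b + c.1) y < kap / 2 ∧
      phi q c.2 (phi p y b) ∈ V ∧ phi q ((y + p * c.2) % q) (b + c.1) ∈ G := by
  unfold EE
  rw [Finset.mem_filter, Finset.mem_product, Finset.mem_range]

theorem q_acr {k : ℕ} {p q : ℕ} (hq : 0 < q) (V G : Set (X k)) (b : X k) (y : ℕ) :
    (q : ℝ) * acr p q V G b y = (((range q).filter fun z => phi q z (phi p y b) ∈ V ∧
      phi q ((y + p * z) % q) b ∈ G).card : ℝ) := by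
  unfold acr
  have : (0 : ℝ) < q := by exact_mod_cast hq
  field_simp

/-- invariance of the density of the crossings -/
theorem acr_inv (hCO : L_CO) {k p q : ℕ} {V G : Set (X k)}
    (hG : ∀ a ∈ G, ∀ h ∈ H k p 1, a + h ∈ G) (b : X k) (y : ℕ) {h : X k} (hh : h ∈ H k p 1) :
    acr p q V G (b + h) y = acr p q V G b y := by
  unfold acr
  congr 3
  ext z
  have h1 : phi p y (b + h) = phi p y b := by
    rw [map_add, hCO.2.1 k p y h hh, add_zero]
  rw [h1, Finset.mem_filter, Finset.mem_filter, map_add]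
  have h2 : phi q ((y + p * z) % q) b + phi q ((y + p * z) % q) h ∈ G ↔
      phi q ((y + p * z) % q) b ∈ G := by
    constructor
    · intro h3
      have h4 := hG _ h3 _ ((H k p 1).neg_mem (phi_H q ((y + p * z) % q) hh))
      rwa [add_neg_cancel_right] at h4
    · intro h3
      exact hG _ h3 _ (phi_H q ((y + p * z) % q) hh)
  rw [h2]

/-- a set of representatives of the kernel modulo `H k p 1` -/
theorem kr_reps (hCO : L_CO) (k p : ℕ) (hp : 1 ≤ p) (y : ℕ) :
    ∃ R ⊆ Kr k p y, (∀ r ∈ R, ∀ r' ∈ R, r - r' ∈ H k p 1 → r = r') ∧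
      ∀ F : X k → ℝ, (∀ κ ∈ Kr k p y, ∀ h ∈ H k p 1, F (κ + h) = F κ) →
        ∑ κ ∈ Kr k p y, F κ = (p : ℝ) ^ k * ∑ r ∈ R, F r := by
  have hTO := Pool.Agent.H58.CLV.pf_TO k p hp
  have hKr := (hCO.2.2.2.1 k p y hp).2
  obtain ⟨R, hR, hR1, hR2⟩ := reps (H k p 1) (Kr k p y) (HF k p 1) (hTO.2.1 1)
    (fun κ hκ h hh => by
      rw [hKr] at hκ ⊢
      rw [map_add, hκ, hCO.2.1 k p y h hh, add_zero])
  refine ⟨R, hR, hR1, fun F hF => ?_⟩
  rw [hR2 F hF, hTO.2.2.1 1, one_mul]
  push_cast
  rfl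

theorem EE_card (hCO : L_CO) {k p q : ℕ} (hp : 1 ≤ p) (hq : 0 < q) {V G : Set (X k)}
    (hG : ∀ a ∈ G, ∀ h ∈ H k p 1, a + h ∈ G) {kap : ℝ} {R : Finset (X k)} {y : ℕ}
    (hR : R ⊆ Kr k p y)
    (hsum : ∀ F : X k → ℝ, (∀ κ ∈ Kr k p y, ∀ h ∈ H k p 1, F (κ + h) = F κ) →
        ∑ κ ∈ Kr k p y, F κ = (p : ℝ) ^ k * ∑ r ∈ R, F r) (b : X k)
    (hbad : Bad p q V G kap b y) : kap * q ≤ ((EE p q V G kap R b y).card : ℝ) := by
  unfold Bad lon at hbad
  rw [hsum _ (fun κ _ h hh => by rw [← add_assoc, acr_inv hCO hG (b + κ) y hh])] at hbad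
  have hpk : (0 : ℝ) < (p : ℝ) ^ k := by
    have : (0 : ℝ) < p := by exact_mod_cast hp
    positivity
  have hKr := (hCO.2.2.2.1 k p y hp).2
  have h1 : ∑ r ∈ R, (if acr p q V G (b + r) y < kap / 2 then (q : ℝ) * acr p q V G (b + r) y
      else 0) = ((EE p q V G kap R b y).card : ℝ) := by
    unfold EE
    rw [Finset.card_filter, Finset.sum_product, Nat.cast_sum]
    apply Finset.sum_congr rfl
    intro r hr
    have hphi : phi p y (b + r) = phi p y b := by
      rw [map_add, (hKr r).mp (hR hr), add_zero]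
    split_ifs with hlt
    · rw [q_acr hq, hphi, Finset.card_filter]
      push_cast
      apply Finset.sum_congr rfl
      intro z _
      simp only [hlt, true_and]
    · symm
      push_cast
      apply Finset.sum_eq_zero
      intro z _
      rw [if_neg (fun h => hlt h.1)]
  rw [h1] at hbad
  have h2 : (p : ℝ) ^ k * (kap * q) ≤ (p : ℝ) ^ k * ((EE p q V G kap R b y).card : ℝ) := by
    linarith
  exact le_of_mul_le_mul_left h2 hpk

/-- pairs of crossings with different directions and different positions -/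
theorem pairs_lemma {α β : Type} (E : Finset (α × β)) (L a b : ℝ) (hL : L ≤ (E.card : ℝ))
    (ha : ∀ c ∈ E, ((E.filter (fun c' => c'.1 = c.1)).card : ℝ) ≤ a)
    (hb : ∀ c ∈ E, ((E.filter (fun c' => c'.2 = c.2)).card : ℝ) ≤ b) (hab : a + b ≤ L) :
    L * (L - a - b) ≤ (((E ×ˢ E).filter (fun e => e.1.1 ≠ e.2.1 ∧ e.1.2 ≠ e.2.2)).card : ℝ) := by
  have h1 : (((E ×ˢ E).filter (fun e => e.1.1 ≠ e.2.1 ∧ e.1.2 ≠ e.2.2)).card : ℝ) =
      ∑ c ∈ E, ((E.filter (fun c' => c.1 ≠ c'.1 ∧ c.2 ≠ c'.2)).card : ℝ) := by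
    rw [Finset.card_filter, Finset.sum_product, Nat.cast_sum]
    apply Finset.sum_congr rfl
    intro c _
    rw [Finset.card_filter]
  have h2 : ∀ c ∈ E, (E.card : ℝ) - a - b ≤
      ((E.filter (fun c' => c.1 ≠ c'.1 ∧ c.2 ≠ c'.2)).card : ℝ) := by
    intro c hc
    have h3 : E ⊆ (E.filter (fun c' => c.1 ≠ c'.1 ∧ c.2 ≠ c'.2)) ∪
        ((E.filter (fun c' => c'.1 = c.1)) ∪ (E.filter (fun c' => c'.2 = c.2))) := by
      intro x hx
      rw [Finset.mem_union, Finset.mem_union, Finset.mem_filter, Finset.mem_filter,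
        Finset.mem_filter]
      by_cases h4 : x.1 = c.1
      · exact Or.inr (Or.inl ⟨hx, h4⟩)
      · by_cases h5 : x.2 = c.2
        · exact Or.inr (Or.inr ⟨hx, h5⟩)
        · exact Or.inl ⟨hx, fun h => h4 h.symm, fun h => h5 h.symm⟩
    have h4 := le_trans (Finset.card_le_card h3)
      (le_trans (Finset.card_union_le _ _) (Nat.add_le_add_left (Finset.card_union_le _ _) _))
    have h5 : (E.card : ℝ) ≤ ((E.filter (fun c' => c.1 ≠ c'.1 ∧ c.2 ≠ c'.2)).card : ℝ) +
        (((E.filter (fun c' => c'.1 = c.1)).card : ℝ) +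
          ((E.filter (fun c' => c'.2 = c.2)).card : ℝ)) := by exact_mod_cast h4
    have h6 := ha c hc
    have h7 := hb c hc
    linarith
  rw [h1]
  have h3 : (E.card : ℝ) * ((E.card : ℝ) - a - b) ≤
      ∑ c ∈ E, ((E.filter (fun c' => c.1 ≠ c'.1 ∧ c.2 ≠ c'.2)).card : ℝ) := by
    rw [← nsmul_eq_mul, ← Finset.sum_const]
    exact Finset.sum_le_sum h2
  nlinarith

/-- the `p`-line through a crossing: its row and its class modulo `H k p 1` -/
noncomputable def ln {k : ℕ} (p q : ℕ) (b : X k) (y : ℕ) (c : X k × ℕ) :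
    ℕ × (X k ⧸ (H k p 1)) :=
  ((y + p * c.2) % q, QuotientAddGroup.mk (phi q ((y + p * c.2) % q) (b + c.1)))

theorem row_inj {p q y z z' : ℕ} (hpq : p.Coprime q) (hz : z < q) (hz' : z' < q)
    (h : (y + p * z) % q = (y + p * z') % q) : z = z' := by
  have h1 : y + p * z ≡ y + p * z' [MOD q] := h
  have h2 : p * z ≡ p * z' [MOD q] := Nat.ModEq.add_left_cancel' y h1
  have h3 : z ≡ z' [MOD q] := Nat.ModEq.cancel_left_of_coprime (by
    rw [Nat.coprime_comm] at hpq; exact hpq) h2
  have h4 : z % q = z' % q := h3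
  rwa [Nat.mod_eq_of_lt hz, Nat.mod_eq_of_lt hz'] at h4

theorem mk_eq {k p : ℕ} {a b : X k} (h : (QuotientAddGroup.mk a : X k ⧸ (H k p 1)) =
    QuotientAddGroup.mk b) : a - b ∈ H k p 1 := by
  rw [QuotientAddGroup.eq] at h
  have := (H k p 1).neg_mem h
  have h2 : -(-a + b) = a - b := by abel
  rwa [h2] at this

theorem ln_inj (hCO : L_CO) {k p q : ℕ} (hpq : p.Coprime q) {b : X k} {y : ℕ}
    {R : Finset (X k)} (hRk : ∀ r ∈ R, r ∈ H k p k)
    (hR : ∀ r ∈ R, ∀ r' ∈ R, r - r' ∈ H k p 1 → r = r') {c c' : X k × ℕ} (hc : c.1 ∈ R)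
    (hc' : c'.1 ∈ R) (hz : c.2 < q) (hz' : c'.2 < q) (h : ln p q b y c = ln p q b y c') :
    c = c' := by
  have h1 : (y + p * c.2) % q = (y + p * c'.2) % q := congrArg Prod.fst h
  have h2 := congrArg Prod.snd h
  simp only [ln] at h2
  have h3 : c.2 = c'.2 := row_inj hpq hz hz' h1
  rw [h3] at h2
  have h4 := mk_eq h2
  rw [← map_sub, add_sub_add_left_eq_sub] at h4
  have h5 := inj_mod hCO hpq _ ((H k p k).sub_mem (hRk _ hc) (hRk _ hc')) h4
  exact Prod.ext (hR _ hc _ hc' h5) h3

theorem pf_PC (hCO : L_CO) : L_PC := by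
  intro k hk3
  refine ⟨4 * k, by
    have : (3 : ℝ) ≤ k := by exact_mod_cast hk3
    linarith, ?_⟩
  intro S V Gd P ν m τ Ω kap hS hkap hkap1 hνP p hpS q hqS hpq a Y hY hYd
  have hk1 : 1 ≤ k := by omega
  have hk3' : (3 : ℝ) ≤ k := by exact_mod_cast hk3
  obtain ⟨hpp, hkp, hPp, _⟩ := hS.pr p hpS
  obtain ⟨hqp, hkq, hPq, _⟩ := hS.pr q hqS
  have hcop : p.Coprime q := (Nat.coprime_primes hpp hqp).mpr hpq
  have hp1 : 1 ≤ p := hpp.one_le
  have hq0 : 0 < q := hqp.pos
  have hq0' : (0 : ℝ) < q := by exact_mod_cast hq0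
  have hm1 : 1 ≤ m := le_trans hS.hν hS.hm
  have hν1 := hS.hν
  have hνq : 8 * ν ≤ kap * q := le_trans hνP (mul_le_mul_of_nonneg_left hPq hkap.le)
  have hinv := hS.inv p hpS
  have hTO := Pool.Agent.H58.CLV.pf_TO k p hp1
  have hKrH : ∀ y, ∀ κ ∈ Kr k p y, κ ∈ H k p k := by
    intro y κ hκ
    unfold Kr at hκ
    rw [Finset.mem_filter] at hκ
    exact (hTO.2.1 k κ).mp hκ.1
  have hKr0 : ∀ y, ∀ κ ∈ Kr k p y, phi p y κ = 0 := fun y κ hκ =>
    ((hCO.2.2.2.1 k p y hp1).2 κ).mp hκ
  choose R hRK hRd hRsum using fun y => kr_reps hCO k p hp1 y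
  have hRH : ∀ y, ∀ r ∈ R y, r ∈ H k p k := fun y r hr => hKrH y r (hRK y hr)
  set E : ℕ → X k → Finset (X k × ℕ) := fun y b => EE p q V (Gd p) kap (R y) b y with hE
  have hEcard : ∀ y < p, ∀ b ∈ Y y, kap * q ≤ ((E y b).card : ℝ) := fun y hy b hb =>
    EE_card hCO hp1 hq0 hinv (hRK y) (hRsum y) b (hY y hy b hb).2.2
  -- the points of the crossings
  have hpt : ∀ y < p, ∀ b ∈ Y y, ∀ c ∈ E y b,
      phi q ((y + p * c.2) % q) (b + c.1) ∈ Gd p ∧ b + c.1 - a ∈ H k p k ⊔ H k q k := by
    intro y hy b hb c hc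
    have h1 := mem_EE.mp hc
    refine ⟨h1.2.2.2, ?_⟩
    have h2 := (H k p k ⊔ H k q k).add_mem (hY y hy b hb).1
      (AddSubgroup.mem_sup_left (hRH y c.1 h1.1.1))
    have h3 : b - a + c.1 = b + c.1 - a := by abel
    rwa [h3] at h2
  refine ⟨?_, ?_⟩
  · -- FIRST PART
    set E2 : ℕ → X k → Finset ((X k × ℕ) × (X k × ℕ)) := fun y b =>
      (E y b ×ˢ E y b).filter (fun e => e.1.1 ≠ e.2.1 ∧ e.1.2 ≠ e.2.2) with hE2
    have hE2card : ∀ y < p, ∀ b ∈ Y y, kap ^ 2 * q ^ 2 / 4 ≤ ((E2 y b).card : ℝ) := by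
      intro y hy b hb
      have h1 := pairs_lemma (E y b) (kap * q) (kap / 2 * q) ν (hEcard y hy b hb)
        (fun c hc => by
          have h2 := mem_EE.mp hc
          have h3 : ((E y b).filter (fun c' => c'.1 = c.1)).card ≤
              ((range q).filter fun z => phi q z (phi p y (b + c.1)) ∈ V ∧
                phi q ((y + p * z) % q) (b + c.1) ∈ Gd p).card := by
            apply Finset.card_le_card_of_injOn (fun c' => c'.2)
            · intro c' hc'
              rw [Finset.mem_coe, Finset.mem_filter] at hc'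
              have h4 := mem_EE.mp hc'.1
              rw [Finset.mem_coe, Finset.mem_filter, Finset.mem_range]
              have h5 : phi p y (b + c.1) = phi p y b := by
                rw [map_add, hKr0 y c.1 (hRK y h2.1.1), add_zero]
              rw [h5]
              refine ⟨h4.1.2, h4.2.2.1, ?_⟩
              rw [← hc'.2]
              exact h4.2.2.2
            · intro c' hc' c'' hc'' h
              rw [Finset.mem_coe, Finset.mem_filter] at hc' hc''
              exact Prod.ext (hc'.2.trans hc''.2.symm) h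
          have h4 : (((E y b).filter (fun c' => c'.1 = c.1)).card : ℝ) ≤
              (q : ℝ) * acr p q V (Gd p) (b + c.1) y := by
            rw [q_acr hq0]
            exact_mod_cast h3
          have h5 := mul_le_mul_of_nonneg_left h2.2.1.le hq0'.le
          have h6 : (((E y b).filter (fun c' => c'.1 = c.1)).card : ℝ) ≤ kap / 2 * q := by
            linarith
          convert h6)
        (fun c hc => by
          have h2 := mem_EE.mp hc
          set r := (y + p * c.2) % q with hr
          have h3 := hS.fib p hpS (((E y b).filter (fun c' => c'.2 = c.2)).image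
            (fun c' => phi q r (b + c'.1)))
            (fun w hw => by
              obtain ⟨c', hc', rfl⟩ := Finset.mem_image.mp hw
              rw [Finset.mem_filter] at hc'
              have h4 := (mem_EE.mp hc'.1).2.2.2
              rw [hc'.2] at h4
              exact h4)
            (fun w hw w' hw' => by
              obtain ⟨c', hc', rfl⟩ := Finset.mem_image.mp hw
              obtain ⟨c'', hc'', rfl⟩ := Finset.mem_image.mp hw'
              rw [Finset.mem_filter] at hc' hc''
              rw [← map_sub, add_sub_add_left_eq_sub]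
              exact phi_H q r ((H k p k).sub_mem (hRH y _ (mem_EE.mp hc'.1).1.1)
                (hRH y _ (mem_EE.mp hc''.1).1.1)))
            (fun w hw w' hw' h5 => by
              obtain ⟨c', hc', rfl⟩ := Finset.mem_image.mp hw
              obtain ⟨c'', hc'', rfl⟩ := Finset.mem_image.mp hw'
              rw [Finset.mem_filter] at hc' hc''
              rw [← map_sub, add_sub_add_left_eq_sub] at h5
              have h6 := inj_mod hCO hcop r ((H k p k).sub_mem (hRH y _ (mem_EE.mp hc'.1).1.1)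
                (hRH y _ (mem_EE.mp hc''.1).1.1)) h5
              have h7 := hRd y _ (mem_EE.mp hc'.1).1.1 _ (mem_EE.mp hc''.1).1.1 h6
              rw [h7])
          rw [Finset.card_image_of_injOn] at h3
          · convert h3
          · intro c' hc' c'' hc'' h5
            rw [Finset.mem_coe, Finset.mem_filter] at hc' hc''
            simp only at h5
            have h5' : phi q r (b + c'.1) - phi q r (b + c''.1) = 0 := by rw [h5, sub_self]
            rw [← map_sub, add_sub_add_left_eq_sub] at h5'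
            have h6 := inj_mod hCO hcop r ((H k p k).sub_mem (hRH y _ (mem_EE.mp hc'.1).1.1)
                (hRH y _ (mem_EE.mp hc''.1).1.1)) (by rw [h5']; exact (H k p 1).zero_mem)
            have h7 := hRd y _ (mem_EE.mp hc'.1).1.1 _ (mem_EE.mp hc''.1).1.1 h6
            exact Prod.ext h7 (hc'.2.trans hc''.2.symm))
        (by nlinarith)
      have h1' : kap * q * (kap * q - kap / 2 * q - ν) ≤ ((E2 y b).card : ℝ) := by
        simp only [hE2]
        convert h1
      refine le_trans ?_ h1'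
      nlinarith
    -- the lines
    set LL : Finset (ℕ × (X k ⧸ (H k p 1))) := (range p).biUnion fun y =>
      (Y y).biUnion fun b => (E y b).image (ln p q b y) with hLL
    have hLLmem : ∀ y < p, ∀ b ∈ Y y, ∀ c ∈ E y b, ln p q b y c ∈ LL := by
      intro y hy b hb c hc
      rw [hLL]
      exact Finset.mem_biUnion.mpr ⟨y, Finset.mem_range.mpr hy,
        Finset.mem_biUnion.mpr ⟨b, hb, Finset.mem_image_of_mem _ hc⟩⟩
    have hLLpt : ∀ l ∈ LL, ∃ w : X k, w ∈ Gd p ∧ w - phi q l.1 a ∈ H k p k ⊔ H k q k ∧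
        (QuotientAddGroup.mk w : X k ⧸ (H k p 1)) = l.2 ∧ l.1 < q := by
      intro l hl
      rw [hLL] at hl
      obtain ⟨y, hy, hl⟩ := Finset.mem_biUnion.mp hl
      obtain ⟨b, hb, hl⟩ := Finset.mem_biUnion.mp hl
      obtain ⟨c, hc, rfl⟩ := Finset.mem_image.mp hl
      rw [Finset.mem_range] at hy
      obtain ⟨h1, h2⟩ := hpt y hy b hb c hc
      refine ⟨phi q ((y + p * c.2) % q) (b + c.1), h1, ?_, rfl, Nat.mod_lt _ hq0⟩
      change phi q ((y + p * c.2) % q) (b + c.1) - phi q ((y + p * c.2) % q) a ∈ _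
      rw [← map_sub]
      exact phi_sup _ _ h2
    have hLLcard : (LL.card : ℝ) ≤ q * m := by
      have h1 : LL.card = ∑ r ∈ range q, (LL.filter (fun l => l.1 = r)).card := by
        apply Finset.card_eq_sum_card_fiberwise
        intro l hl
        rw [Finset.mem_coe] at hl
        obtain ⟨_, _, _, _, h2⟩ := hLLpt l hl
        rw [Finset.mem_coe, Finset.mem_range]
        exact h2
      have h2 : ∀ r ∈ range q, ((LL.filter (fun l => l.1 = r)).card : ℝ) ≤ m := by
        intro r _
        choose! w hw1 hw2 hw3 _ using hLLpt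
        have h3 := hS.fib2 p hpS q hqS hpq ((LL.filter (fun l => l.1 = r)).image w)
          (fun v hv => by
            obtain ⟨l, hl, rfl⟩ := Finset.mem_image.mp hv
            rw [Finset.mem_filter] at hl
            exact hw1 l hl.1)
          (fun v hv v' hv' => by
            obtain ⟨l, hl, rfl⟩ := Finset.mem_image.mp hv
            obtain ⟨l', hl', rfl⟩ := Finset.mem_image.mp hv'
            rw [Finset.mem_filter] at hl hl'
            have h4 := (H k p k ⊔ H k q k).sub_mem (hw2 l hl.1) (hw2 l' hl'.1)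
            rw [hl.2, hl'.2, sub_sub_sub_cancel_right] at h4
            exact h4)
          (fun v hv v' hv' h5 => by
            obtain ⟨l, hl, rfl⟩ := Finset.mem_image.mp hv
            obtain ⟨l', hl', rfl⟩ := Finset.mem_image.mp hv'
            rw [Finset.mem_filter] at hl hl'
            have h6 : (QuotientAddGroup.mk (w l) : X k ⧸ (H k p 1)) =
                QuotientAddGroup.mk (w l') := by
              rw [QuotientAddGroup.eq]
              have h7 := (H k p 1).neg_mem h5
              have h8 : -(w l - w l') = -w l + w l' := by abel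
              rwa [h8] at h7
            rw [hw3 l hl.1, hw3 l' hl'.1] at h6
            rw [Prod.ext (hl.2.trans hl'.2.symm) h6])
        rw [Finset.card_image_of_injOn] at h3
        · exact h3
        · intro l hl l' hl' h5
          rw [Finset.mem_coe, Finset.mem_filter] at hl hl'
          have h6 : (QuotientAddGroup.mk (w l) : X k ⧸ (H k p 1)) =
                QuotientAddGroup.mk (w l') := by rw [h5]
          rw [hw3 l hl.1, hw3 l' hl'.1] at h6
          exact Prod.ext (hl.2.trans hl'.2.symm) h6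
      rw [h1]
      push_cast
      refine le_trans (Finset.sum_le_sum h2) (le_of_eq ?_)
      rw [Finset.sum_const, Finset.card_range, nsmul_eq_mul]
    -- at most `m` points of every `Y y`
    have hYcard : ∀ y < p, ((Y y).card : ℝ) ≤ m := by
      intro y hy
      have h3 := hS.fib2 q hqS p hpS (Ne.symm hpq) ((Y y).image (phi p y))
        (fun v hv => by
          obtain ⟨b, hb, rfl⟩ := Finset.mem_image.mp hv
          exact (hY y hy b hb).2.1)
        (fun v hv v' hv' => by
          obtain ⟨b, hb, rfl⟩ := Finset.mem_image.mp hv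
          obtain ⟨b', hb', rfl⟩ := Finset.mem_image.mp hv'
          have h4 := (H k p k ⊔ H k q k).sub_mem (hY y hy b hb).1 (hY y hy b' hb').1
          rw [sub_sub_sub_cancel_right] at h4
          rw [← map_sub, sup_comm]
          exact phi_sup _ _ h4)
        (fun v hv v' hv' h5 => by
          obtain ⟨b, hb, rfl⟩ := Finset.mem_image.mp hv
          obtain ⟨b', hb', rfl⟩ := Finset.mem_image.mp hv'
          rw [← map_sub] at h5
          rw [hYd y hy b hb b' hb' h5])
      rw [Finset.card_image_of_injOn] at h3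
      · exact h3
      · intro b hb b' hb' h5
        rw [Finset.mem_coe] at hb hb'
        apply hYd y hy b hb b' hb'
        rw [map_sub, h5, sub_self]
        exact (H k q 1).zero_mem
    -- a pair of lines is used at most `(k - 1) m` times
    set lp : ℕ → X k → (X k × ℕ) × (X k × ℕ) →
        (ℕ × (X k ⧸ (H k p 1))) × (ℕ × (X k ⧸ (H k p 1))) :=
      fun y b e => (ln p q b y e.1, ln p q b y e.2) with hlp
    have hE2mem : ∀ y b e, e ∈ E2 y b → e.1 ∈ E y b ∧ e.2 ∈ E y b ∧ e.1.1 ≠ e.2.1 := by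
      intro y b e he
      rw [hE2] at he
      simp only [Finset.mem_filter, Finset.mem_product] at he
      exact ⟨he.1.1, he.1.2, he.2.1⟩
    have huse : ∀ l : (ℕ × (X k ⧸ (H k p 1))) × (ℕ × (X k ⧸ (H k p 1))),
        ∑ y ∈ range p, ∑ b ∈ Y y, (((E2 y b).filter (fun e => lp y b e = l)).card : ℝ) ≤
          (k - 1 : ℕ) * m := by
      intro l
      set Dl : Finset ℕ := (range p).filter (fun y => ∃ b ∈ Y y, ∃ e ∈ E2 y b, lp y b e = l)
        with hDl
      have h1 : ∀ y ∈ range p, ∑ b ∈ Y y, (((E2 y b).filter (fun e => lp y b e = l)).card : ℝ) ≤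
          if y ∈ Dl then m else 0 := by
        intro y hy
        rw [Finset.mem_range] at hy
        split_ifs with hyD
        · refine le_trans (Finset.sum_le_sum (g := fun _ => (1 : ℝ)) ?_) ?_
          · intro b hb
            have h2 : ((E2 y b).filter (fun e => lp y b e = l)).card ≤ 1 := by
              rw [Finset.card_le_one]
              intro e he e' he'
              rw [Finset.mem_filter] at he he'
              obtain ⟨g1, g2, _⟩ := hE2mem y b e he.1
              obtain ⟨g1', g2', _⟩ := hE2mem y b e' he'.1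
              have h3 : lp y b e = lp y b e' := he.2.trans he'.2.symm
              have h4 : ln p q b y e.1 = ln p q b y e'.1 := congrArg Prod.fst h3
              have h5 : ln p q b y e.2 = ln p q b y e'.2 := congrArg Prod.snd h3
              exact Prod.ext
                (ln_inj hCO hcop (hRH y) (hRd y) (mem_EE.mp g1).1.1 (mem_EE.mp g1').1.1
                  (mem_EE.mp g1).1.2 (mem_EE.mp g1').1.2 h4)
                (ln_inj hCO hcop (hRH y) (hRd y) (mem_EE.mp g2).1.1 (mem_EE.mp g2').1.1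
                  (mem_EE.mp g2).1.2 (mem_EE.mp g2').1.2 h5)
            exact_mod_cast h2
          · rw [Finset.sum_const, nsmul_eq_mul, mul_one]
            exact hYcard y hy
        · refine le_of_eq (Finset.sum_eq_zero ?_)
          intro b hb
          rw [Nat.cast_eq_zero, Finset.card_eq_zero, Finset.filter_eq_empty_iff]
          intro e he hle
          apply hyD
          rw [hDl, Finset.mem_filter, Finset.mem_range]
          exact ⟨hy, b, hb, e, he, hle⟩
      have h2 : Dl.card ≤ k - 1 := by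
        rcases Dl.eq_empty_or_nonempty with h0 | ⟨y0, hy0⟩
        · rw [h0]; simp
        · rw [hDl, Finset.mem_filter, Finset.mem_range] at hy0
          obtain ⟨hy0p, b0, hb0, e0, he0, hl0⟩ := hy0
          obtain ⟨g1, g2, g3⟩ := hE2mem y0 b0 e0 he0
          have m1 := (mem_EE.mp g1).1.1
          have m2 := (mem_EE.mp g2).1.1
          apply Pool.Agent.H11.CLV.pf_SH Pool.Agent.H58.CLV.pf_TO k p hpp hkp
            (e0.1.1 - e0.2.1) ((H k p k).sub_mem (hRH y0 _ m1) (hRH y0 _ m2))
            (fun h => g3 (hRd y0 _ m1 _ m2 h)) Dl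
          intro y hy
          rw [hDl, Finset.mem_filter, Finset.mem_range] at hy
          obtain ⟨hyp, b, hb, e, he, hl⟩ := hy
          refine ⟨hyp, ?_⟩
          obtain ⟨f1, f2, _⟩ := hE2mem y b e he
          have n1 := (mem_EE.mp f1).1.1
          have n2 := (mem_EE.mp f2).1.1
          have h3 : lp y0 b0 e0 = lp y b e := hl0.trans hl.symm
          have h4 : ln p q b0 y0 e0.1 = ln p q b y e.1 := congrArg Prod.fst h3
          have h5 : ln p q b0 y0 e0.2 = ln p q b y e.2 := congrArg Prod.snd h3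
          have h4r : (y0 + p * e0.1.2) % q = (y + p * e.1.2) % q := congrArg Prod.fst h4
          have h5r : (y0 + p * e0.2.2) % q = (y + p * e.2.2) % q := congrArg Prod.fst h5
          have h4q := congrArg Prod.snd h4
          have h5q := congrArg Prod.snd h5
          simp only [ln] at h4q h5q
          rw [← h4r] at h4q
          rw [← h5r] at h5q
          have h6 := mk_eq h4q
          have h7 := mk_eq h5q
          rw [← map_sub] at h6 h7
          have s1 := (H k p k ⊔ H k q k).sub_mem (hpt y0 hy0p b0 hb0 _ g1).2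
            (hpt y hyp b hb _ f1).2
          have s2 := (H k p k ⊔ H k q k).sub_mem (hpt y0 hy0p b0 hb0 _ g2).2
            (hpt y hyp b hb _ f2).2
          rw [sub_sub_sub_cancel_right] at s1 s2
          have h8 : (b0 + e0.1.1 - (b + e.1.1)) - (b0 + e0.2.1 - (b + e.2.1)) =
              (e0.1.1 - e0.2.1) - (e.1.1 - e.2.1) := by abel
          have h9 : (e0.1.1 - e0.2.1) - (e.1.1 - e.2.1) ∈ H k p k :=
            (H k p k).sub_mem ((H k p k).sub_mem (hRH y0 _ m1) (hRH y0 _ m2))
              ((H k p k).sub_mem (hRH y _ n1) (hRH y _ n2))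
          have h10 := two_lines hCO hcop hk1 _ _ s1 s2 h6 h7 (by rw [h8]; exact h9)
          rw [h8] at h10
          have h11 : phi p y ((e0.1.1 - e0.2.1) - (e.1.1 - e.2.1)) = 0 := hCO.2.1 k p y _ h10
          rw [map_sub, map_sub (phi p y) e.1.1, hKr0 y _ (hRK y n1), hKr0 y _ (hRK y n2),
            sub_zero, sub_zero] at h11
          exact h11
      refine le_trans (Finset.sum_le_sum h1) ?_
      rw [← Finset.sum_filter, Finset.sum_const, nsmul_eq_mul]
      apply mul_le_mul_of_nonneg_right _ (by linarith)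
      have h3 : ((range p).filter (fun y => y ∈ Dl)).card ≤ Dl.card := by
        apply Finset.card_le_card
        intro y hy
        exact (Finset.mem_filter.mp hy).2
      exact_mod_cast le_trans h3 h2
    -- double counting
    have hcount : ∑ y ∈ range p, ∑ b ∈ Y y, ((E2 y b).card : ℝ) ≤
        ((q : ℝ) * m) ^ 2 * ((k - 1 : ℕ) * m) := by
      have h1 : ∀ y ∈ range p, ∀ b ∈ Y y, ((E2 y b).card : ℝ) =
          ∑ l ∈ LL ×ˢ LL, (((E2 y b).filter (fun e => lp y b e = l)).card : ℝ) := by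
        intro y hy b hb
        rw [Finset.mem_range] at hy
        rw [← Nat.cast_sum]
        congr 1
        apply Finset.card_eq_sum_card_fiberwise
        intro e he
        rw [Finset.mem_coe] at he
        obtain ⟨g1, g2, _⟩ := hE2mem y b e he
        rw [Finset.mem_coe, Finset.mem_product]
        exact ⟨hLLmem y hy b hb _ g1, hLLmem y hy b hb _ g2⟩
      have h2 : ∑ y ∈ range p, ∑ b ∈ Y y, ((E2 y b).card : ℝ) =
          ∑ l ∈ LL ×ˢ LL, ∑ y ∈ range p, ∑ b ∈ Y y,
            (((E2 y b).filter (fun e => lp y b e = l)).card : ℝ) := by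
        rw [Finset.sum_comm]
        apply Finset.sum_congr rfl
        intro y hy
        rw [Finset.sum_comm]
        exact Finset.sum_congr rfl (fun b hb => h1 y hy b hb)
      rw [h2]
      refine le_trans (Finset.sum_le_sum (fun l _ => huse l)) ?_
      rw [Finset.sum_const, nsmul_eq_mul, Finset.card_product]
      apply mul_le_mul_of_nonneg_right
      · push_cast
        rw [sq]
        exact mul_le_mul hLLcard hLLcard (Nat.cast_nonneg _) (by positivity)
      · have : (0 : ℝ) ≤ ((k - 1 : ℕ) : ℝ) := Nat.cast_nonneg _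
        nlinarith
    have hlow : (∑ y ∈ range p, ((Y y).card : ℝ)) * (kap ^ 2 * q ^ 2 / 4) ≤
        ∑ y ∈ range p, ∑ b ∈ Y y, ((E2 y b).card : ℝ) := by
      rw [Finset.sum_mul]
      apply Finset.sum_le_sum
      intro y hy
      rw [Finset.mem_range] at hy
      rw [← nsmul_eq_mul, ← Finset.sum_const]
      exact Finset.sum_le_sum (fun b hb => hE2card y hy b hb)
    rw [le_div_iff₀ (by positivity)]
    have h3 := le_trans hlow hcount
    have hkk : (((k - 1 : ℕ)) : ℝ) ≤ k := by exact_mod_cast Nat.sub_le k 1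
    have h4 : ((q : ℝ) * m) ^ 2 * ((k - 1 : ℕ) * m) ≤ (q : ℝ) ^ 2 * (k * m ^ 3) := by
      have : (0 : ℝ) ≤ (q : ℝ) ^ 2 * m ^ 3 := by positivity
      nlinarith
    have h5 : (q : ℝ) ^ 2 * ((∑ y ∈ range p, ((Y y).card : ℝ)) * kap ^ 2) ≤
        (q : ℝ) ^ 2 * (4 * k * m ^ 3) := by nlinarith
    exact le_of_mul_le_mul_left h5 (by positivity)
  · -- SECOND PART
    rintro ⟨y, hy, b, hb⟩
    refine ⟨fun z => ((E y b).filter (fun c => (y + p * c.2) % q = z)).image
      (fun c => b + c.1), ?_, ?_, ?_⟩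
    · intro z hz v hv
      obtain ⟨c, hc, rfl⟩ := Finset.mem_image.mp hv
      rw [Finset.mem_filter] at hc
      obtain ⟨h1, h2⟩ := hpt y hy b hb c hc.1
      rw [hc.2] at h1
      exact ⟨h2, h1⟩
    · intro z hz v hv v' hv' h5
      obtain ⟨c, hc, rfl⟩ := Finset.mem_image.mp hv
      obtain ⟨c', hc', rfl⟩ := Finset.mem_image.mp hv'
      rw [Finset.mem_filter] at hc hc'
      rw [add_sub_add_left_eq_sub] at h5
      have h6 := inj_mod hCO hcop z ((H k p k).sub_mem (hRH y _ (mem_EE.mp hc.1).1.1)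
        (hRH y _ (mem_EE.mp hc'.1).1.1)) h5
      rw [hRd y _ (mem_EE.mp hc.1).1.1 _ (mem_EE.mp hc'.1).1.1 h6]
    · refine le_trans (hEcard y hy b hb) ?_
      have h1 : (E y b).card = ∑ z ∈ range q,
          ((E y b).filter (fun c => (y + p * c.2) % q = z)).card := by
        apply Finset.card_eq_sum_card_fiberwise
        intro c _
        rw [Finset.mem_coe, Finset.mem_range]
        exact Nat.mod_lt _ hq0
      rw [h1]
      push_cast
      apply le_of_eq
      apply Finset.sum_congr rfl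
      intro z _
      rw [Finset.card_image_of_injOn]
      intro c hc c' hc' h5
      rw [Finset.mem_coe, Finset.mem_filter] at hc hc'
      simp only at h5
      have h6 := add_left_cancel h5
      refine Prod.ext h6 ?_
      exact row_inj hcop (mem_EE.mp hc.1).1.2 (mem_EE.mp hc'.1).1.2 (hc.2.trans hc'.2.symm)

end Pool.Agent.H22.LVP
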