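import Pool.Agent.H22.LVP.SR6

/-!
# Row SR of lvp_modules: many alive points lie on long dense lines
-/

set_option autoImplicit false

open Finset MeasureTheory Filter

namespace Pool.Agent.H22.LVP

open Pool.Agent.H24.CL Pool.Agent.H24.LV

theorem sr_main (k n : ℕ) (hk : 3 ≤ k) (hn : 1 ≤ n) (hGM : L_GM) (hJE : L_JE) (hLO : L_LO)
    (hCV : L_CV) (CW CR CT CI c a d ds δ C₃ C₄ σ η : ℝ) (Dc Ds : ℝ) (q₀ q₁ : ℕ)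
    (hCW : 1 ≤ CW) (hCR : 1 ≤ CR) (hCT : 1 ≤ CT) (hCI : 1 ≤ CI)
    (hW : ∀ (N : ℕ) (t : ℝ), 1 ≤ N → 0 < t →
      (N : ℝ) ^ (KN k) * t ^ (2 * KN k) * volume.real {a : X k | t ≤ ‖u N a‖} ≤ CW)
    (hFB : ∀ (q N : ℕ) (t : ℝ), q₀ ≤ q → q.Prime → 1 ≤ N → 0 < t →
      (q : ℝ) ^ Dc ≤ N * t ^ 2 → N * t ^ 2 ≤ (q : ℝ) ^ (2 * C₄ / a) →
      ∃ E : Set (X k), MeasurableSet E ∧
      (N : ℝ) ^ (KN k) * t ^ (2 * KN k) * volume.real E ≤ (q : ℝ) ^ (-d) ∧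
      Cnt (H k q k) ({a : X k | t ≤ ‖u N a‖} \ E) ((q : ℝ) ^ c))
    (hFP : ∀ (p q N : ℕ) (t : ℝ), q₁ ≤ p → q₁ ≤ q → p.Prime → q.Prime → p ≠ q → p ≤ 2 * q →
      q ≤ 2 * p → 1 ≤ N → 0 < t → (q : ℝ) ^ Ds ≤ N * t ^ 2 → N * t ^ 2 ≤ (q : ℝ) ^ (2 * C₄ / a) →
      ∃ E : Set (X k), MeasurableSet E ∧
      (N : ℝ) ^ (KN k) * t ^ (2 * KN k) * volume.real E ≤ (q : ℝ) ^ (-ds) ∧
      Cnt (H k p k ⊔ H k q k) ({a : X k | t ≤ ‖u N a‖} \ E) ((q : ℝ) ^ (1 / 100 : ℝ)))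
    (hRT : ∀ (q N : ℕ) (t ν τ : ℝ) (A : Set (X k)), 1 ≤ q → 1 ≤ N →
      0 < t → 1 ≤ ν → 0 < τ → τ ≤ 1 / 8 → MeasurableSet A → (∀ a ∈ A, t ≤ ‖u (q * N) a‖) →
      Cnt (H k q k) A ν →
      ((q : ℝ) * N) ^ (KN k) * t ^ (2 * KN k) *
        volume.real {a : X k | a ∈ A ∧ hd q {v : X k | t / 4 ≤ ‖u N v‖} a < τ} ≤
          CR * ν * τ ^ (2 * KN k - 1))
    (hPT : ∀ (N N' : ℕ) (t w : ℝ), 1 ≤ N' → N' ≤ N → 0 < t → 0 ≤ w → (N : ℝ) - N' ≤ w * N →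
      (N : ℝ) ^ (KN k) * t ^ (2 * KN k) * volume.real {a : X k | t ≤ ‖u N a‖} ≤
      (N : ℝ) ^ (KN k) * t ^ (2 * KN k) * volume.real {a : X k | t / 2 ≤ ‖u N' a‖} +
        CT * w ^ (KN k))
    (hRI : ∀ (S : Finset ℕ) (V : Set (X k)) (Gd : ℕ → Set (X k))
      (P ν m τ Ω kap kap' : ℝ), S.card = n → SData k S V Gd P ν m τ Ω → 0 < kap → kap ≤ 1 →
      8 * ν ≤ kap * P → 0 < kap' → kap' ≤ 1 →
      mass k (DS S) (fun b x => Star S V Gd b x ∧ ¬ Rich S V (kap' ^ n * τ) b x) ≤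
        CI * ν ^ (2 * n) * (m ^ 3 / (kap ^ 3 * P) + kap + kap' * (ν / kap) ^ n) * Ω)
    (hc : 0 < c) (hc1 : c ≤ 1 / 100) (ha : 0 < a) (han : a * n = 2 * C₃) (hcn : 128 * (c * n) ≤ 1)
    (hcds : 24 * (c * n) ≤ ds) (hσn : 42 * (a * (c * (n : ℝ) ^ 3)) ≤ σ) (hDc0 : 0 ≤ Dc)
    (hDs0 : 0 ≤ max Ds 0) (hDc : Dc * a ≤ δ / 4) (hDs : max Ds 0 * a ≤ δ / 4) (haδ : a ≤ δ / 4)
    (hδ : 0 < δ) (hδ1 : δ ≤ 1) (hC₄ : 1 ≤ C₄) (hd0 : 0 < d) (hds0 : 0 < ds) (hσ : 0 < σ)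
    (hη1 : η ≤ a * c / 10) (hη2 : η ≤ a * d / 4)
    (M : ℝ) (N₁ : ℕ) (P' : ℝ) (Q : Finset ℕ) (hM : 1 ≤ M) (PP : ℝ) (hPPd : PP = M ^ a)
    (hP'1 : Real.sqrt PP ≤ P') (hP'2 : P' ≤ PP)
    (hQ : ∀ p ∈ Q, p.Prime ∧ P' ≤ (p : ℝ) ∧ (p : ℝ) ≤ P' * (1 + PP ^ (-(1 / 8 : ℝ))))
    (hQc : PP ^ (1 / 4 : ℝ) ≤ (Q.card : ℝ))
    (m2 : (q₀ : ℝ) + q₁ + k + 2 ≤ Real.sqrt PP) (m3 : 4 * 2 ^ Dc ≤ M ^ (δ / 4))
    (m3' : 4 * 2 ^ (max Ds 0) ≤ M ^ (δ / 4)) (m4 : 4 ≤ M ^ (δ / 4)) (m5 : 4 ≤ PP ^ (1 / 8 : ℝ))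
    (m6 : CT * 2 ^ (KN k + 1) ≤ PP ^ (1 / 16 : ℝ)) (m7 : 4 * 8 ^ KN k ≤ PP ^ (d / 4))
    (m8 : 8 * 8 ^ KN k * CR ≤ PP ^ c) (m9 : CW * 64 ^ KN k * (8 * 2 ^ KN k) ≤ PP ^ (c / 2))
    (m10 : 2 * (n : ℝ) ^ 2 ≤ PP ^ (1 / 8 : ℝ)) (m11 : 8 * (n : ℝ) ^ 2 ≤ PP ^ (ds / 4))
    (m12 : (24 * CI) ^ 4 ≤ PP ^ (1 / 8 : ℝ)) (m12' : 24 * CI ≤ PP ^ (c * n))
    (m13 : 4 ≤ M ^ (σ / 2)) (m14 : 8 ≤ PP ^ c)
    (hN1 : M ^ (1 + δ) ≤ (N₁ : ℝ)) (hN2 : (N₁ : ℝ) ≤ M ^ C₄)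
    (hbig : M ^ ((KN k : ℝ) - η) ≤
      (N₁ : ℝ) ^ (KN k) * volume.real {a : X k | M ^ (-(1 / 2 : ℝ)) ≤ ‖u N₁ a‖}) :
    ∃ (N₀ : ℕ) (S : Finset ℕ), M ^ (1 + δ / 2) ≤ (N₀ : ℝ) ∧ N₀ ≤ N₁ ∧ (∀ p ∈ S, p.Prime) ∧
      M ^ C₃ ≤ (DS S : ℝ) ∧
      M ^ ((KN k : ℝ) - σ) ≤ (N₀ : ℝ) ^ (KN k) * volume.real {w : X k | ∃ (b : X k) (x : ℕ),
        x < DS S ∧ phi (DS S) x b = w ∧
        Rich S {v : X k | M ^ (-(1 / 2 : ℝ)) / 8 ≤ ‖u N₀ v‖} (M ^ (-σ)) b x} := by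
  have hM0 : 0 < M := lt_of_lt_of_le one_pos hM
  have ht : 0 < M ^ (-(1 / 2 : ℝ)) := Real.rpow_pos_of_pos hM0 _
  have hPP1 : 1 ≤ PP := by rw [hPPd]; exact Real.one_le_rpow hM ha.le
  have hPP0 : 0 < PP := lt_of_lt_of_le one_pos hPP1
  obtain ⟨s1, s2, s3, s4, s5, s6, s7, s8, s9, s10, s11⟩ := sr_scale PP P' c n hPP1 hP'1 hP'2 hc hc1
  have hP0 : 0 < P' := lt_of_lt_of_le one_pos s1
  have hsq : M ^ (a / 2) = Real.sqrt PP := by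
    rw [Real.sqrt_eq_rpow, hPPd, ← Real.rpow_mul hM0.le]
    congr 1; ring
  have hP2 : (q₀ : ℝ) + q₁ + k + 2 ≤ P' := le_trans m2 hP'1
  have hq0R : (0 : ℝ) ≤ q₀ := Nat.cast_nonneg _
  have hq1R : (0 : ℝ) ≤ q₁ := Nat.cast_nonneg _
  have hkR : (0 : ℝ) ≤ k := Nat.cast_nonneg _
  have hP'two : 2 ≤ P' := by linarith only [hP2, hq0R, hq1R, hkR]
  obtain ⟨w, hw⟩ : ∃ w : ℝ, w = PP ^ (-(1 / 8 : ℝ)) := ⟨_, rfl⟩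
  rw [← hw] at hQ
  have hw0 : 0 < w := by rw [hw]; exact Real.rpow_pos_of_pos hPP0 _
  have hw4 : w ≤ 1 / 4 := by
    rw [hw, Real.rpow_neg hPP0.le, one_div (4 : ℝ)]
    exact inv_anti₀ (by norm_num) m5
  -- the power of `M`
  obtain ⟨Me, hMe⟩ : ∃ Me : ℝ, Me = M ^ (-η) := ⟨_, rfl⟩
  have hbig' : M ^ KN k * Me ≤ (N₁ : ℝ) ^ (KN k) *
      volume.real {a : X k | M ^ (-(1 / 2 : ℝ)) ≤ ‖u N₁ a‖} := by
    refine le_trans (le_of_eq ?_) hbig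
    rw [hMe, ← Real.rpow_natCast, ← Real.rpow_add hM0]
    congr 1
  -- the length
  obtain ⟨N₀, hN₀d⟩ : ∃ N₀ : ℕ, N₀ = ⌊(N₁ : ℝ) / (P' * (1 + w))⌋₊ := ⟨_, rfl⟩
  have hPN : P' ≤ w * N₁ := by
    calc P' ≤ PP := hP'2
      _ = M ^ a := hPPd
      _ ≤ M ^ (a * (-(1 / 8)) + (1 + δ)) := by
          apply Real.rpow_le_rpow_of_exponent_le hM
          linarith only [ha, haδ, hδ, hδ1]
      _ = w * M ^ (1 + δ) := by rw [Real.rpow_add hM0, hw, hPPd, ← Real.rpow_mul hM0.le]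
      _ ≤ w * N₁ := mul_le_mul_of_nonneg_left hN1 hw0.le
  obtain ⟨hN01, hN0lo, hlen⟩ := sr_len N₁ P' w s1 hw0.le hPN hw4 N₀ hN₀d
  have hN0M := sr_N0 M a δ P' N₁ N₀ hM hδ haδ s1 (by rw [← hPPd]; exact hP'2) hN1 hN0lo m4
  have hN0one : 1 ≤ N₀ := by
    have h1 : (1 : ℝ) ≤ N₀ := le_trans (Real.one_le_rpow hM (by linarith only [hδ])) hN0M
    exact_mod_cast h1
  have hN0R : (0 : ℝ) < N₀ := by exact_mod_cast hN0one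
  -- facts about the primes
  have hp2P : ∀ p ∈ Q, (p : ℝ) ≤ 2 * P' := by
    intro p hp
    refine le_trans (hQ p hp).2.2 ?_
    have : P' * (1 + w) ≤ P' * 2 := mul_le_mul_of_nonneg_left (by linarith only [hw4]) hP0.le
    linarith only [this]
  have hpq0 : ∀ p ∈ Q, q₀ ≤ p := by
    intro p hp
    have h1 : (q₀ : ℝ) ≤ p := le_trans (by linarith only [hP2, hq1R, hkR]) (hQ p hp).2.1
    exact_mod_cast h1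
  have hpq1 : ∀ p ∈ Q, q₁ ≤ p := by
    intro p hp
    have h1 : (q₁ : ℝ) ≤ p := le_trans (by linarith only [hP2, hq0R, hkR]) (hQ p hp).2.1
    exact_mod_cast h1
  have hpk : ∀ p ∈ Q, k < p := by
    intro p hp
    have h1 : (k : ℝ) < p := lt_of_lt_of_le (by linarith only [hP2, hq0R, hq1R]) (hQ p hp).2.1
    exact_mod_cast h1
  have hplo : ∀ p ∈ Q, M ^ (a / 2) ≤ (p : ℝ) := fun p hp =>
    le_trans (by rw [hsq]; exact hP'1) (hQ p hp).2.1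
  have hphi : ∀ p ∈ Q, (p : ℝ) ≤ 2 * M ^ a := fun p hp =>
    le_trans (hp2P p hp) (by rw [← hPPd]; linarith only [hP'2])
  have hpN1 : ∀ p ∈ Q, 1 ≤ p * N₀ := fun p hp =>
    Nat.one_le_iff_ne_zero.mpr (Nat.mul_ne_zero (hQ p hp).1.pos.ne' (by omega))
  have hC40 : 0 ≤ C₄ := by linarith only [hC₄]
  have ht2 : 0 < M ^ (-(1 / 2 : ℝ)) / 2 := half_pos ht
  -- the exceptional sets
  have hEx : ∀ p ∈ Q, ∃ E : Set (X k), MeasurableSet E ∧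
      (((p * N₀ : ℕ) : ℝ)) ^ (KN k) * (M ^ (-(1 / 2 : ℝ)) / 2) ^ (2 * KN k) * volume.real E ≤
        (p : ℝ) ^ (-d) ∧
      Cnt (H k p k) ({a : X k | M ^ (-(1 / 2 : ℝ)) / 2 ≤ ‖u (p * N₀) a‖} \ E) ((p : ℝ) ^ c) := by
    intro p hp
    obtain ⟨g1, g2⟩ := sr_level M a C₄ δ Dc N₁ N₀ p p hM ha hDc0 hDc hC40
      (hQ p hp).1.one_lt.le (hplo p hp) (hphi p hp) hN0M (hlen p (hQ p hp).2.1 (hQ p hp).2.2).1
      hN2 m3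
    exact hFB p (p * N₀) (M ^ (-(1 / 2 : ℝ)) / 2) (hpq0 p hp) (hQ p hp).1 (hpN1 p hp)
      ht2 g1 g2
  choose! E hEm hEv hEc using hEx
  have hEx2 : ∀ p ∈ Q, ∀ q ∈ Q, p ≠ q → ∃ E : Set (X k), MeasurableSet E ∧
      (((p * N₀ : ℕ) : ℝ)) ^ (KN k) * (M ^ (-(1 / 2 : ℝ)) / 2) ^ (2 * KN k) * volume.real E ≤
        (q : ℝ) ^ (-ds) ∧
      Cnt (H k p k ⊔ H k q k) ({a : X k | M ^ (-(1 / 2 : ℝ)) / 2 ≤ ‖u (p * N₀) a‖} \ E)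
        ((q : ℝ) ^ (1 / 100 : ℝ)) := by
    intro p hp q hq hpq
    obtain ⟨g1, g2⟩ := sr_level M a C₄ δ (max Ds 0) N₁ N₀ p q hM ha hDs0 hDs hC40
      (hQ p hp).1.one_lt.le (hplo q hq) (hphi q hq) hN0M (hlen p (hQ p hp).2.1 (hQ p hp).2.2).1
      hN2 m3'
    have g3 : (q : ℝ) ^ Ds ≤ (q : ℝ) ^ (max Ds 0) := by
      apply Real.rpow_le_rpow_of_exponent_le _ (le_max_left _ _)
      exact_mod_cast (hQ q hq).1.one_lt.le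
    have g4 : p ≤ 2 * q := by
      have : (p : ℝ) ≤ 2 * q := le_trans (hp2P p hp) (by linarith only [(hQ q hq).2.1])
      exact_mod_cast this
    have g5 : q ≤ 2 * p := by
      have : (q : ℝ) ≤ 2 * p := le_trans (hp2P q hq) (by linarith only [(hQ p hp).2.1])
      exact_mod_cast this
    exact hFP p q (p * N₀) (M ^ (-(1 / 2 : ℝ)) / 2) (hpq1 p hp) (hpq1 q hq) (hQ p hp).1 (hQ q hq).1
      hpq g4 g5 (hpN1 p hp) ht2 (le_trans g3 g1) g2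
  choose! E2 hE2m hE2v hE2c using hEx2
  -- names
  obtain ⟨ν, hνd⟩ : ∃ ν : ℝ, ν = P' ^ (2 * c) := ⟨_, rfl⟩
  obtain ⟨m, hmd⟩ : ∃ m : ℝ, m = P' ^ (1 / 50 : ℝ) := ⟨_, rfl⟩
  obtain ⟨τ, hτd⟩ : ∃ τ : ℝ, τ = PP ^ (-c) := ⟨_, rfl⟩
  obtain ⟨ρ, hρd⟩ : ∃ ρ : ℝ, ρ = PP ^ (-(4 * c)) := ⟨_, rfl⟩
  obtain ⟨y, hyd⟩ : ∃ y : ℝ, y = PP ^ c := ⟨_, rfl⟩
  obtain ⟨z, hzd⟩ : ∃ z : ℝ, z = PP ^ (c * n) := ⟨_, rfl⟩
  obtain ⟨V, hVd⟩ : ∃ V : Set (X k), V = {v : X k | M ^ (-(1 / 2 : ℝ)) / 8 ≤ ‖u N₀ v‖} := ⟨_, rfl⟩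
  obtain ⟨Ω, hΩd⟩ : ∃ Ω : ℝ, Ω = CW * 64 ^ KN k * M ^ KN k / (N₀ : ℝ) ^ KN k := ⟨_, rfl⟩
  obtain ⟨kap, kap', k1, k2, k3, k4, k5, k6, k7⟩ := sr_num PP P' c CI n hPP1 hP'1 hP'2 hc hc1 hn hcn
    hCI m12 m12'
  rw [← hνd] at s2 s3 s4 s5 k5 k6
  rw [← hmd] at s3 k6
  rw [← hτd] at k7 s9
  rw [← hρd] at k6 s10 s11
  rw [← hyd] at s4 s6 s8 s9 s10
  rw [← hzd] at s5 s7 s8 s11
  have hy0 : 0 < y := lt_of_lt_of_le one_pos s6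
  have hz0 : 0 < z := lt_of_lt_of_le one_pos s7
  have hτ0 : 0 < τ := by rw [s9]; exact inv_pos.mpr hy0
  have hτ1 : τ ≤ 1 := by rw [s9]; exact inv_le_one_of_one_le₀ s6
  have hρ0 : 0 < ρ := by rw [s10]; exact inv_pos.mpr (pow_pos hy0 4)
  have hρ1 : ρ ≤ 1 := by rw [s10]; exact inv_le_one_of_one_le₀ (one_le_pow₀ s6)
  have hN0K : 0 < (N₀ : ℝ) ^ KN k := pow_pos hN0R _
  have hCW0 : 0 < CW := lt_of_lt_of_le one_pos hCW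
  have hΩ0 : 0 < Ω := by rw [hΩd]; positivity
  have hVm : MeasurableSet V := by rw [hVd]; exact sr_umeas _ _ _
  -- the sets of points
  have hpc : ∀ p ∈ Q, (p : ℝ) ^ c ≤ ν := fun p hp =>
    sr_pc P' c p ν hP'two hc (Nat.cast_nonneg _) (hp2P p hp) hνd
  have hpm : ∀ p ∈ Q, (p : ℝ) ^ (1 / 100 : ℝ) ≤ m := fun p hp =>
    sr_pc P' (1 / 100) p m hP'two (by norm_num) (Nat.cast_nonneg _) (hp2P p hp)
      (by rw [hmd]; congr 1; norm_num)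
  obtain ⟨A0, hA0d⟩ : ∃ A0 : ℕ → Set (X k), A0 = fun p =>
    {a : X k | M ^ (-(1 / 2 : ℝ)) / 2 ≤ ‖u (p * N₀) a‖} \ E p := ⟨_, rfl⟩
  have hA0e : ∀ p, A0 p = {a : X k | M ^ (-(1 / 2 : ℝ)) / 2 ≤ ‖u (p * N₀) a‖} \ E p := by
    intro p; rw [hA0d]
  have hA0m : ∀ p ∈ Q, MeasurableSet (A0 p) := by
    intro p hp
    rw [hA0e]
    exact (sr_umeas _ _ _).diff (hEm p hp)
  have hA0c : ∀ p ∈ Q, Cnt (H k p k) (A0 p) ν := by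
    intro p hp
    rw [hA0e]
    exact sr_Cnt_mono (hEc p hp) (le_refl _) (hpc p hp)
  -- masses
  have hms : ∀ p ∈ Q, (p : ℝ) ^ KN k * volume.real (A0 p) ≤ Ω := by
    intro p hp
    refine sr_ms k M CW Ω p N₀ hM hCW hN0one (hpN1 p hp) hW hΩd (A0 p) ?_
    rw [hA0e]
    exact Set.sdiff_subset
  have hVΩ : volume.real V ≤ Ω := by
    rw [hVd]
    exact sr_V k M CW Ω N₀ hM hN0one hW hΩd
  -- the pool
  have gm0 := fun p (hp : p ∈ Q) => hGM k p (by omega) (hQ p hp).1.one_lt.le (A0 p) V τ ν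
    (hA0m p hp) hVm hτ0 s2 (hA0c p hp)
  have hmass : ∀ p ∈ Q, ρ * Ω ≤ (p : ℝ) ^ (KN k - k) * ∫ a in GdL k p (A0 p) V τ, hd p V a := by
    intro p hp
    obtain ⟨l1, l2, l3⟩ := hlen p (hQ p hp).2.1 (hQ p hp).2.2
    exact sr_mass k hk hGM CW CR CT c a d η M PP P' w Me N₁ N₀ p hM hCW hCR hCT hRT hPT hc hc1 ha
      hd0 hη1 hη2 hPPd hMe hP'1 hP'2 hw hw0 hw4 m6 m7 m8 m9 m14 hbig' hN0one (hQ p hp).1
      (hQ p hp).2.1 l1 l2 l3 (E p) (hEv p hp) (A0 p) (hA0m p hp) (hA0e p) ν τ ρ Ω hνd hτd hρd hΩd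
      (hA0c p hp) V hVd
  -- Jensen
  have hbigJ : 2 * (n : ℝ) ^ 2 * ν ^ n ≤ ρ ^ n * Q.card :=
    sr_c5 PP c z ν (ρ ^ n) Q.card n hPP1 hc hcn hzd s7 s5 s11 hQc m10
  obtain ⟨S, hSQ, hSn, hSm⟩ := hJE k hk Q V (fun p => GdL k p (A0 p) V τ) ν ρ Ω n s2 hρ0 hρ1 hΩ0 hn
    (fun p hp => (hQ p hp).1) hVm (fun p hp => (gm0 p hp).1) (fun p hp => (gm0 p hp).2.1)
    (fun p hp => (gm0 p hp).2.2.1 (H k p k) (sr_H_mono k p (by omega)) ν (hA0c p hp)) hVΩ hmass hbigJ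
  -- the exceptional sets of the pairs
  obtain ⟨lo, hlod⟩ : ∃ lo : ℝ, lo = PP ^ (-(ds / 2)) := ⟨_, rfl⟩
  have hlo0 : 0 < lo := by rw [hlod]; exact Real.rpow_pos_of_pos hPP0 _
  have hE2v' : ∀ p ∈ S, ∀ q ∈ S, p ≠ q → (p : ℝ) ^ KN k * volume.real (E2 p q) ≤ lo * Ω := by
    intro p hp q hq hpq
    exact sr_E2v k M CW Ω PP ds q p N₀ hM hPP1 hCW hN0one hds0
      (le_trans hP'1 (hQ q (hSQ hq)).2.1) lo hlod hΩd (E2 p q) (hE2v p (hSQ hp) q (hSQ hq) hpq)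
  have hlost := sr_lost k hk hGM hLO S V A0 E2 ν τ Ω lo s2 hτ0 hΩ0.le hlo0.le
    (fun p hp => (hQ p (hSQ hp)).1) hVm (fun p hp => hA0m p (hSQ hp))
    (fun p hp q hq hpq => hE2m p (hSQ hp) q (hSQ hq) hpq) (fun p hp => hA0c p (hSQ hp)) hE2v'
  have hE2c' : ∀ p ∈ S, ∀ q ∈ S, p ≠ q → Cnt (H k p k ⊔ H k q k) (A0 p \ E2 p q) m := by
    intro p hp q hq hpq
    refine sr_Cnt_mono (hE2c p (hSQ hp) q (hSQ hq) hpq) ?_ (hpm q (hSQ hq))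
    rw [hA0e]
    intro b hb
    exact ⟨hb.1.1, hb.2⟩
  have hdata := sr_data k hk hGM S V A0 E2 P' ν m τ Ω s1 s2 s3 hτ0 hτ1 hΩ0.le
    (fun p hp => ⟨(hQ p (hSQ hp)).1, hpk p (hSQ hp), (hQ p (hSQ hp)).2.1, hp2P p (hSQ hp)⟩) hVm
    (fun p hp => hA0m p (hSQ hp)) (fun p hp q hq hpq => hE2m p (hSQ hp) q (hSQ hq) hpq)
    (fun p hp => hA0c p (hSQ hp)) hE2c' (fun p hp => hms p (hSQ hp))
  -- the mass of the stars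
  have hstar : 3 / 8 * ρ ^ n * Ω ≤
      mass k (DS S) (fun b x => Star S V (fun p => GdL k p (sA S A0 E2 p) V τ) b x) := by
    have g1 : ν ^ (S.card - 1) * ((S.card : ℝ) ^ 2 * (lo * Ω)) ≤ ρ ^ n / 8 * Ω := by
      rw [hSn]
      exact sr_c6 PP c z ν (ρ ^ n) lo ds Ω n hPP1 hcds hzd s7 s2 s5 s11 hlod hlo0 hΩ0 m11
    linarith only [g1, hlost, hSm]
  -- the cover
  have hκ : M ^ (-σ) ≤ kap' ^ n * τ := by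
    refine le_trans ?_ k7
    rw [hPPd, ← Real.rpow_mul hM0.le]
    apply Real.rpow_le_rpow_of_exponent_le hM
    have : 0 ≤ a * (c * (n : ℝ) ^ 3) := by positivity
    linarith only [this, hσn]
  have hcov := sr_cover k n CI hCV hRI S V (fun p => GdL k p (sA S A0 E2 p) V τ) P' ν m τ Ω kap kap'
    (ρ ^ n) (M ^ (-σ)) hSn hdata k1 k2 k5 k3 k4 k6 hstar hκ
  refine ⟨N₀, S, hN0M, hN01, fun p hp => (hQ p (hSQ hp)).1, ?_, ?_⟩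
  · have g1 : (DS S : ℝ) = ∏ p ∈ S, (p : ℝ) := by unfold DS; push_cast; rfl
    rw [g1]
    calc M ^ C₃ = (M ^ (a / 2)) ^ n := by
          rw [← Real.rpow_natCast (M ^ (a / 2)) n, ← Real.rpow_mul hM0.le]
          congr 1
          linarith only [han]
      _ = ∏ _p ∈ S, M ^ (a / 2) := by rw [Finset.prod_const, hSn]
      _ ≤ ∏ p ∈ S, (p : ℝ) := by
          apply Finset.prod_le_prod
          · intro p _; exact Real.rpow_nonneg hM0.le _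
          · intro p hp; exact hplo p (hSQ hp)
  · rw [← hVd]
    rw [s11] at hcov
    exact sr_c7 M a c z σ Ω ((N₀ : ℝ) ^ KN k) (CW * 64 ^ KN k) _ (ν ^ n) n (KN k) hM ha hc hn hσn
      (by rw [hzd, hPPd]) s7 s5 hΩ0 hN0K
      (one_le_mul_of_one_le_of_one_le hCW (one_le_pow₀ (by norm_num))) hΩd measureReal_nonneg
      hcov m13

theorem pf_SR (hWT : L_WT) (hFB : L_FB) (hFP : L_FP) (hRT : L_RT) (hGM : L_GM) (hPP : L_PP)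
    (hPT : L_PT) (hRI : L_RI) (hJE : L_JE) (hLO : L_LO) (hCV : L_CV) : L_SR := by
  intro k hk δ C₄ C₃ σ hδ hδ1 hC₄ hC₃ hσ
  obtain ⟨CW, hCW, hW⟩ := hWT k hk
  obtain ⟨CA, hCA, hFB⟩ := hFB k hk
  obtain ⟨ds, Ds, hds0, hFP⟩ := hFP k hk (1 / 100) (by norm_num) (by norm_num)
  obtain ⟨CR, hCR, hRT⟩ := hRT k hk
  obtain ⟨P₀, hPP⟩ := hPP
  obtain ⟨CT, hCT, hPT⟩ := hPT k hk
  obtain ⟨n, c, a, hn, hc, hc1, ha, han, hcn, hcds, hσn, hDc, hDs, haδ⟩ := sr_params CA δ C₃ σ ds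
    (max Ds 0) hCA hδ hC₃ hσ hds0 (le_max_right _ _)
  obtain ⟨CI, hCI, hRI⟩ := hRI k hk n
  obtain ⟨d, hd0, hFB⟩ := hFB c hc (by linarith)
  obtain ⟨q₀, hFB⟩ := hFB (2 * C₄ / a)
  obtain ⟨q₁, hFP⟩ := hFP (2 * C₄ / a)
  have hDc0 : 0 ≤ CA * (1 + Real.log (1 / c)) := by
    have : 0 ≤ Real.log (1 / c) := Real.log_nonneg (by
      rw [le_div_iff₀ hc]; linarith)
    have : 0 ≤ CA := by linarith
    positivity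
  have hn0 : (0 : ℝ) < n := by exact_mod_cast hn
  have ev : ∀ (x B : ℝ), 0 < x → ∀ᶠ M : ℝ in atTop, B ≤ M ^ x := fun x B hx =>
    (tendsto_rpow_atTop hx).eventually_ge_atTop B
  have evP : ∀ (x B : ℝ), 0 < x → ∀ᶠ M : ℝ in atTop, B ≤ (M ^ a) ^ x := fun x B hx =>
    ((tendsto_rpow_atTop hx).comp (tendsto_rpow_atTop ha)).eventually_ge_atTop B
  have hev := (eventually_ge_atTop (1 : ℝ)).and ((ev a P₀ ha).and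
    ((evP (1 / 2) ((q₀ : ℝ) + q₁ + k + 2) (by norm_num)).and
    ((ev (δ / 4) (4 * 2 ^ (CA * (1 + Real.log (1 / c)))) (by positivity)).and
    ((ev (δ / 4) (4 * 2 ^ (max Ds 0)) (by positivity)).and
    ((ev (δ / 4) 4 (by positivity)).and ((evP (1 / 8) 4 (by norm_num)).and
    ((evP (1 / 16) (CT * 2 ^ (KN k + 1)) (by norm_num)).and
    ((evP (d / 4) (4 * 8 ^ KN k) (by positivity)).and
    ((evP c (8 * 8 ^ KN k * CR) hc).and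
    ((evP (c / 2) (CW * 64 ^ KN k * (8 * 2 ^ KN k)) (by positivity)).and
    ((evP (1 / 8) (2 * (n : ℝ) ^ 2) (by norm_num)).and
    ((evP (ds / 4) (8 * (n : ℝ) ^ 2) (by positivity)).and
    ((evP (1 / 8) ((24 * CI) ^ 4) (by norm_num)).and
    ((evP (c * n) (24 * CI) (by positivity)).and
    ((ev (σ / 2) 4 (by positivity)).and (evP c 8 hc))))))))))))))))
  obtain ⟨M₀, hM₀⟩ := eventually_atTop.mp hev
  refine ⟨min (a * c / 10) (a * d / 4), max M₀ 1, ?_, le_max_right _ _, ?_⟩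
  · exact lt_min (by positivity) (by positivity)
  · intro M N₁ hM hN1 hN2 hbig
    obtain ⟨e1, e2, e3, e4, e5, e6, e7, e8, e9, e10, e11, e12, e13, e14, e15, e16, e17⟩ :=
      hM₀ M (le_trans (le_max_left _ _) hM)
    obtain ⟨P', Q, hP'1, hP'2, hQ, hQc⟩ := hPP (M ^ a) e2
    rw [← Real.sqrt_eq_rpow] at e3
    exact sr_main k n hk hn hGM hJE hLO hCV CW CR CT CI c a d ds δ C₃ C₄ σ _ _ Ds q₀ q₁ hCW hCR hCT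
      hCI hW hFB hFP hRT hPT hRI hc hc1 ha han hcn hcds hσn hDc0 (le_max_right _ _) hDc hDs haδ hδ
      hδ1 hC₄ hd0 hds0 hσ (min_le_left _ _) (min_le_right _ _) M N₁ P' Q e1 (M ^ a) rfl hP'1 hP'2 hQ
      hQc e3 e4 e5 e6 e7 e8 e9 e10 e11 e12 e13 e14 e15 e16 e17 hN1 hN2 hbig

end Pool.Agent.H22.LVP
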