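import Pool.Agent.H24.LV.Targets

/-!
# Row SR of lvp_modules, first part: parameters and elementary inequalities
-/

set_option autoImplicit false

open Finset MeasureTheory Filter

namespace Pool.Agent.H22.LVP

open Pool.Agent.H24.CL Pool.Agent.H24.LV

/-- the choice of the parameters: `n` primes, fine scale `c`, size `M^a` of the primes -/
theorem sr_params (CA δ C₃ σ ds Ds : ℝ) (hCA : 1 ≤ CA) (hδ : 0 < δ) (hC₃ : 1 ≤ C₃) (hσ : 0 < σ)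
    (hds : 0 < ds) (hDs : 0 ≤ Ds) :
    ∃ (n : ℕ) (c a : ℝ), 1 ≤ n ∧ 0 < c ∧ c ≤ 1 / 100 ∧ 0 < a ∧ a * n = 2 * C₃ ∧
      128 * (c * n) ≤ 1 ∧ 24 * (c * n) ≤ ds ∧ 42 * (a * (c * (n : ℝ) ^ 3)) ≤ σ ∧
      CA * (1 + Real.log (1 / c)) * a ≤ δ / 4 ∧ Ds * a ≤ δ / 4 ∧ a ≤ δ / 4 := by
  obtain ⟨r, hr⟩ := exists_nat_ge (2 + 24 / ds + 84 * C₃ / σ + 104 * CA * C₃ / δ + 8 * C₃ * Ds / δ +
    8 * C₃ / δ)
  have h1 : 0 ≤ 24 / ds := by positivity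
  have h2 : 0 ≤ 84 * C₃ / σ := by positivity
  have h3 : 0 ≤ 104 * CA * C₃ / δ := by positivity
  have h4 : 0 ≤ 8 * C₃ * Ds / δ := by positivity
  have h5 : 0 ≤ 8 * C₃ / δ := by positivity
  have hr2 : (2 : ℝ) ≤ r := by linarith
  have g1 : 24 / ds ≤ r := by linarith
  have g2 : 84 * C₃ / σ ≤ r := by linarith
  have g3 : 104 * CA * C₃ / δ ≤ r := by linarith
  have g4 : 8 * C₃ * Ds / δ ≤ r := by linarith
  have g5 : 8 * C₃ / δ ≤ r := by linarith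
  rw [div_le_iff₀ hds] at g1
  rw [div_le_iff₀ hσ] at g2
  rw [div_le_iff₀ hδ] at g3 g4 g5
  have hr0 : (0 : ℝ) < r := by linarith
  have hr1 : (1 : ℝ) ≤ r := by linarith
  have hpow : ∀ m : ℕ, 1 ≤ m → (r : ℝ) ≤ (r : ℝ) ^ m := fun m hm => le_self_pow₀ hr1 (by omega)
  have h10 : (128 : ℝ) ≤ (r : ℝ) ^ 10 := by
    calc (128 : ℝ) ≤ 2 ^ 10 := by norm_num
      _ ≤ (r : ℝ) ^ 10 := pow_le_pow_left₀ (by norm_num) hr2 10
  have h12 : (100 : ℝ) ≤ (r : ℝ) ^ 12 := by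
    calc (100 : ℝ) ≤ 2 ^ 12 := by norm_num
      _ ≤ (r : ℝ) ^ 12 := pow_le_pow_left₀ (by norm_num) hr2 12
  have e1 : (1 / (r : ℝ) ^ 12) * ((r ^ 2 : ℕ) : ℝ) = 1 / (r : ℝ) ^ 10 := by
    push_cast
    field_simp
  have e3 : 2 * C₃ / (r : ℝ) ^ 2 ≤ 2 * C₃ / r := by
    apply div_le_div_of_nonneg_left (by linarith) hr0 (hpow 2 (by norm_num))
  have e4 : 2 * C₃ / (r : ℝ) ≤ δ / 4 := by
    rw [div_le_iff₀ hr0]
    linarith
  refine ⟨r ^ 2, 1 / (r : ℝ) ^ 12, 2 * C₃ / (r : ℝ) ^ 2, ?_, by positivity, ?_, by positivity, ?_,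
    ?_, ?_, ?_, ?_, ?_, ?_⟩
  · have : 0 < r := by exact_mod_cast hr0
    exact Nat.one_le_pow _ _ this
  · rw [div_le_div_iff₀ (by positivity) (by norm_num)]
    linarith
  · push_cast
    field_simp
  · rw [e1, mul_one_div, div_le_one (by positivity)]
    exact h10
  · rw [e1, mul_one_div, div_le_iff₀ (by positivity)]
    calc (24 : ℝ) ≤ r * ds := g1
      _ ≤ (r : ℝ) ^ 10 * ds := mul_le_mul_of_nonneg_right (hpow 10 (by norm_num)) hds.le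
      _ = ds * (r : ℝ) ^ 10 := mul_comm _ _
  · have e2 : 42 * (2 * C₃ / (r : ℝ) ^ 2 * (1 / (r : ℝ) ^ 12 * ((r ^ 2 : ℕ) : ℝ) ^ 3)) =
        84 * C₃ / (r : ℝ) ^ 8 := by
      push_cast
      field_simp
      ring
    rw [e2, div_le_iff₀ (by positivity)]
    calc 84 * C₃ ≤ r * σ := g2
      _ ≤ (r : ℝ) ^ 8 * σ := mul_le_mul_of_nonneg_right (hpow 8 (by norm_num)) hσ.le
      _ = σ * (r : ℝ) ^ 8 := mul_comm _ _
  · have e5 : Real.log (1 / (1 / (r : ℝ) ^ 12)) ≤ 12 * r := by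
      rw [one_div_one_div, Real.log_pow]
      have := Real.log_le_self hr0.le
      push_cast
      linarith
    have e6 : CA * (1 + Real.log (1 / (1 / (r : ℝ) ^ 12))) ≤ CA * (13 * r) :=
      mul_le_mul_of_nonneg_left (by linarith) (by linarith)
    refine le_trans (mul_le_mul_of_nonneg_right e6 (by positivity)) ?_
    have e7 : CA * (13 * r) * (2 * C₃ / (r : ℝ) ^ 2) = 26 * CA * C₃ / r := by
      field_simp
      ring
    rw [e7, div_le_iff₀ hr0]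
    linarith
  · refine le_trans (mul_le_mul_of_nonneg_left e3 hDs) ?_
    rw [mul_div_assoc', div_le_iff₀ hr0]
    linarith
  · exact le_trans e3 e4

/-- the even powers of the level -/
theorem sr_tpow (M s : ℝ) (hM : 0 < M) (K : ℕ) :
    (M ^ (-(1 / 2 : ℝ)) / s) ^ (2 * K) = (M ^ K)⁻¹ / s ^ (2 * K) := by
  rw [div_pow]
  congr 1
  rw [pow_mul, ← Real.rpow_natCast (M ^ (-(1 / 2 : ℝ))) 2, ← Real.rpow_mul hM.le]
  norm_num
  rw [Real.rpow_neg_one, inv_pow]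

theorem sr_lev (M s y v b : ℝ) (hM : 0 < M) (hs : 0 < s) (K : ℕ)
    (h : y * (M ^ (-(1 / 2 : ℝ)) / s) ^ (2 * K) * v ≤ b) : y * v ≤ s ^ (2 * K) * M ^ K * b := by
  rw [sr_tpow M s hM K] at h
  have h1 : 0 < s ^ (2 * K) * M ^ K := by positivity
  have h2 := mul_le_mul_of_nonneg_left h h1.le
  refine le_trans (le_of_eq ?_) h2
  field_simp

/-- the choice of the length -/
theorem sr_len (N₁ : ℕ) (P' w : ℝ) (hP' : 1 ≤ P') (hw : 0 ≤ w) (hN : P' ≤ w * N₁) (hw4 : w ≤ 1 / 4)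
    (N₀ : ℕ) (hN₀ : N₀ = ⌊(N₁ : ℝ) / (P' * (1 + w))⌋₊) :
    N₀ ≤ N₁ ∧ (N₁ : ℝ) / (2 * P') - 1 ≤ N₀ ∧ ∀ p : ℕ, P' ≤ (p : ℝ) → (p : ℝ) ≤ P' * (1 + w) →
      p * N₀ ≤ N₁ ∧ (N₁ : ℝ) - ((p * N₀ : ℕ) : ℝ) ≤ (2 * w) * N₁ ∧ (N₁ : ℝ) ≤ 2 * (p * N₀) := by
  have hd : 0 < P' * (1 + w) := by positivity
  have hd1 : 1 ≤ P' * (1 + w) := by nlinarith
  have hN1 : (0 : ℝ) ≤ N₁ := Nat.cast_nonneg _
  have h1 : (N₀ : ℝ) ≤ N₁ / (P' * (1 + w)) := by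
    rw [hN₀]; exact Nat.floor_le (by positivity)
  have h2 : (N₁ : ℝ) / (P' * (1 + w)) - 1 ≤ N₀ := by
    rw [hN₀]
    have := Nat.lt_floor_add_one ((N₁ : ℝ) / (P' * (1 + w)))
    linarith
  refine ⟨?_, ?_, ?_⟩
  · have h3 : (N₀ : ℝ) ≤ N₁ := le_trans h1 (div_le_self hN1 hd1)
    exact_mod_cast h3
  · refine le_trans ?_ h2
    have : (N₁ : ℝ) / (2 * P') ≤ N₁ / (P' * (1 + w)) := by
      apply div_le_div_of_nonneg_left hN1 hd
      nlinarith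
    linarith
  · intro p hp1 hp2
    have hp0 : (0 : ℝ) ≤ p := Nat.cast_nonneg _
    have h4 : (p : ℝ) * N₀ ≤ N₁ := by
      have h5 : (p : ℝ) * N₀ ≤ P' * (1 + w) * (N₁ / (P' * (1 + w))) :=
        mul_le_mul hp2 h1 (Nat.cast_nonneg _) hd.le
      rwa [mul_div_cancel₀ _ hd.ne'] at h5
    have h6 : (N₁ : ℝ) - (p : ℝ) * N₀ ≤ (2 * w) * N₁ := by
      have h7 : P' * (N₁ / (P' * (1 + w)) - 1) ≤ p * N₀ := by
        have hN0 : (0 : ℝ) ≤ N₀ := Nat.cast_nonneg _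
        calc P' * (N₁ / (P' * (1 + w)) - 1) ≤ P' * N₀ :=
              mul_le_mul_of_nonneg_left h2 (by linarith)
          _ ≤ p * N₀ := mul_le_mul_of_nonneg_right hp1 hN0
      have h8 : P' * (N₁ / (P' * (1 + w)) - 1) = N₁ / (1 + w) - P' := by
        field_simp
      have h9 : (N₁ : ℝ) * (1 - w) ≤ N₁ / (1 + w) := by
        rw [le_div_iff₀ (by linarith)]
        nlinarith [mul_nonneg hN1 (mul_nonneg hw hw)]
      rw [h8] at h7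
      nlinarith
    refine ⟨by exact_mod_cast h4, by push_cast; exact h6, ?_⟩
    nlinarith

end Pool.Agent.H22.LVP
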