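import Pool.Agent.H22.LVP.SR0
import Pool.Agent.H75.CLV.MP

/-!
# Row SR of lvp_modules, second part: one prime of the pool
-/

set_option autoImplicit false

open Finset MeasureTheory Filter

namespace Pool.Agent.H22.LVP

open Pool.Agent.H24.CL Pool.Agent.H24.LV

theorem sr_hd_le {k : ℕ} (q : ℕ) (V : Set (X k)) (a : X k) : 0 ≤ hd q V a ∧ hd q V a ≤ 1 := by
  classical
  unfold hd
  refine ⟨by positivity, ?_⟩
  apply div_le_one_of_le₀ _ (Nat.cast_nonneg _)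
  have h1 : (pos q V a).card ≤ q := by
    unfold pos
    refine le_trans (Finset.card_filter_le _ _) (le_of_eq (Finset.card_range q))
  exact_mod_cast h1

theorem sr_hd_meas {k : ℕ} (q : ℕ) (hq : 1 ≤ q) (V : Set (X k)) (hV : MeasurableSet V) :
    Measurable (hd q V : X k → ℝ) := by
  classical
  have h1 : (hd q V : X k → ℝ) = fun a => (∑ x ∈ range q,
      V.indicator (fun _ => (1 : ℝ)) (phi q x a)) / q := by
    funext a
    unfold hd pos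
    rw [Finset.card_filter]
    push_cast
    congr 1
  rw [h1]
  apply Measurable.div_const
  apply Finset.measurable_sum
  intro x _
  exact (measurable_const.indicator hV).comp (Pool.Agent.H75.CLV.pf_MP k q x hq).1.measurable

/-- most points are good -/
theorem sr_one (k : ℕ) (M : ℝ) (hM : 1 ≤ M) (N₁ N₀ p : ℕ) (hN₀ : 1 ≤ N₀) (hp : 1 ≤ p)
    (h1 : p * N₀ ≤ N₁) (w : ℝ) (hw : 0 ≤ w) (h2 : (N₁ : ℝ) - ((p * N₀ : ℕ) : ℝ) ≤ (2 * w) * N₁)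
    (h3 : (N₁ : ℝ) ≤ 2 * (p * N₀)) (Me : ℝ)
    (hbig : M ^ KN k * Me ≤ (N₁ : ℝ) ^ (KN k) *
      volume.real {a : X k | M ^ (-(1 / 2 : ℝ)) ≤ ‖u N₁ a‖})
    (CT CR : ℝ)
    (hPT : ∀ (N N' : ℕ) (t w : ℝ), 1 ≤ N' → N' ≤ N → 0 < t → 0 ≤ w → (N : ℝ) - N' ≤ w * N →
      (N : ℝ) ^ (KN k) * t ^ (2 * KN k) * volume.real {a : X k | t ≤ ‖u N a‖} ≤
      (N : ℝ) ^ (KN k) * t ^ (2 * KN k) * volume.real {a : X k | t / 2 ≤ ‖u N' a‖} +
        CT * w ^ (KN k))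
    (hRT : ∀ (q N : ℕ) (t ν τ : ℝ) (A : Set (X k)), 1 ≤ q → 1 ≤ N →
      0 < t → 1 ≤ ν → 0 < τ → τ ≤ 1 / 8 → MeasurableSet A → (∀ a ∈ A, t ≤ ‖u (q * N) a‖) →
      Cnt (H k q k) A ν →
      ((q : ℝ) * N) ^ (KN k) * t ^ (2 * KN k) *
        volume.real {a : X k | a ∈ A ∧ hd q {v : X k | t / 4 ≤ ‖u N v‖} a < τ} ≤
          CR * ν * τ ^ (2 * KN k - 1))
    (ν τ : ℝ) (hν : 1 ≤ ν) (hτ : 0 < τ) (hτ8 : τ ≤ 1 / 8) (dd : ℝ) (E : Set (X k))
    (hEv : ((p * N₀ : ℕ) : ℝ) ^ (KN k) * (M ^ (-(1 / 2 : ℝ)) / 2) ^ (2 * KN k) * volume.real E ≤ dd)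
    (A : Set (X k)) (hAm : MeasurableSet A)
    (hA : A = {a : X k | M ^ (-(1 / 2 : ℝ)) / 2 ≤ ‖u (p * N₀) a‖} \ E)
    (hAc : Cnt (H k p k) A ν)
    (c1 : CT * (2 * w) ^ (KN k) ≤ Me / 2) (c2 : 8 ^ (KN k) * dd ≤ Me / 4)
    (c3 : 8 ^ (KN k) * (CR * ν * τ ^ (2 * KN k - 1)) ≤ Me / 8) :
    M ^ KN k * Me / 8 ≤ (N₁ : ℝ) ^ (KN k) * volume.real {a : X k | a ∈ A ∧
      τ ≤ hd p {v : X k | M ^ (-(1 / 2 : ℝ)) / 8 ≤ ‖u N₀ v‖} a} := by
  have hM0 : 0 < M := by linarith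
  have ht : 0 < M ^ (-(1 / 2 : ℝ)) := Real.rpow_pos_of_pos hM0 _
  have hMK : 0 < M ^ KN k := by positivity
  have hpN : 1 ≤ p * N₀ := Nat.one_le_iff_ne_zero.mpr (Nat.mul_ne_zero (by omega) (by omega))
  -- shortening
  have s1 := hPT N₁ (p * N₀) (M ^ (-(1 / 2 : ℝ))) (2 * w) hpN h1 ht (by linarith) h2
  have s2 := sr_tpow M 1 hM0 (KN k)
  rw [div_one, one_pow, div_one] at s2
  rw [s2] at s1
  have s3 : (N₁ : ℝ) ^ (KN k) * volume.real {a : X k | M ^ (-(1 / 2 : ℝ)) ≤ ‖u N₁ a‖} ≤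
      (N₁ : ℝ) ^ (KN k) * volume.real {a : X k | M ^ (-(1 / 2 : ℝ)) / 2 ≤ ‖u (p * N₀) a‖} +
        M ^ KN k * (CT * (2 * w) ^ (KN k)) := by
    have := mul_le_mul_of_nonneg_left s1 hMK.le
    refine le_trans (le_of_eq ?_) (le_trans this (le_of_eq ?_))
    · field_simp
    · field_simp
  have s4 : M ^ KN k * (CT * (2 * w) ^ (KN k)) ≤ M ^ KN k * (Me / 2) :=
    mul_le_mul_of_nonneg_left c1 hMK.le
  -- the power of `N₁`
  have hN1K : (N₁ : ℝ) ^ (KN k) ≤ 2 ^ (KN k) * ((p : ℝ) * N₀) ^ (KN k) := by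
    rw [← mul_pow]
    exact pow_le_pow_left₀ (Nat.cast_nonneg _) h3 _
  -- the exceptional set
  have s5 := sr_lev M 2 _ _ _ hM0 (by norm_num) (KN k) hEv
  have s6 : (N₁ : ℝ) ^ (KN k) * volume.real E ≤ M ^ KN k * (Me / 4) := by
    have hv : 0 ≤ volume.real E := measureReal_nonneg
    calc (N₁ : ℝ) ^ (KN k) * volume.real E ≤
          (2 ^ (KN k) * ((p : ℝ) * N₀) ^ (KN k)) * volume.real E :=
          mul_le_mul_of_nonneg_right hN1K hv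
      _ = 2 ^ (KN k) * (((p * N₀ : ℕ) : ℝ) ^ (KN k) * volume.real E) := by push_cast; ring
      _ ≤ 2 ^ (KN k) * (2 ^ (2 * KN k) * M ^ KN k * dd) := mul_le_mul_of_nonneg_left s5 (by positivity)
      _ = M ^ KN k * (8 ^ (KN k) * dd) := by
          have : (8 : ℝ) ^ (KN k) = 2 ^ (KN k) * 2 ^ (2 * KN k) := by
            rw [← pow_add, show KN k + 2 * KN k = 3 * KN k by ring, pow_mul]; norm_num
          rw [this]; ring
      _ ≤ M ^ KN k * (Me / 4) := mul_le_mul_of_nonneg_left c2 hMK.le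
  -- the bad points
  have hV4 : {v : X k | M ^ (-(1 / 2 : ℝ)) / 2 / 4 ≤ ‖u N₀ v‖} =
      {v : X k | M ^ (-(1 / 2 : ℝ)) / 8 ≤ ‖u N₀ v‖} := by
    have : M ^ (-(1 / 2 : ℝ)) / 2 / 4 = M ^ (-(1 / 2 : ℝ)) / 8 := by ring
    rw [this]
  have s7 := hRT p N₀ (M ^ (-(1 / 2 : ℝ)) / 2) ν τ A hp hN₀ (by linarith) hν hτ hτ8 hAm
    (fun a ha => by rw [hA] at ha; exact ha.1) hAc
  rw [hV4] at s7
  set V : Set (X k) := {v : X k | M ^ (-(1 / 2 : ℝ)) / 8 ≤ ‖u N₀ v‖} with hV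
  have s8 := sr_lev M 2 _ _ _ hM0 (by norm_num) (KN k) s7
  have s9 : (N₁ : ℝ) ^ (KN k) * volume.real {a : X k | a ∈ A ∧ hd p V a < τ} ≤
      M ^ KN k * (Me / 8) := by
    have hv : 0 ≤ volume.real {a : X k | a ∈ A ∧ hd p V a < τ} := measureReal_nonneg
    calc (N₁ : ℝ) ^ (KN k) * volume.real {a : X k | a ∈ A ∧ hd p V a < τ} ≤
          (2 ^ (KN k) * ((p : ℝ) * N₀) ^ (KN k)) * volume.real {a : X k | a ∈ A ∧ hd p V a < τ} :=
          mul_le_mul_of_nonneg_right hN1K hv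
      _ = 2 ^ (KN k) * (((p : ℝ) * N₀) ^ (KN k) *
          volume.real {a : X k | a ∈ A ∧ hd p V a < τ}) := by ring
      _ ≤ 2 ^ (KN k) * (2 ^ (2 * KN k) * M ^ KN k * (CR * ν * τ ^ (2 * KN k - 1))) :=
          mul_le_mul_of_nonneg_left s8 (by positivity)
      _ = M ^ KN k * (8 ^ (KN k) * (CR * ν * τ ^ (2 * KN k - 1))) := by
          have : (8 : ℝ) ^ (KN k) = 2 ^ (KN k) * 2 ^ (2 * KN k) := by
            rw [← pow_add, show KN k + 2 * KN k = 3 * KN k by ring, pow_mul]; norm_num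
          rw [this]; ring
      _ ≤ M ^ KN k * (Me / 8) := mul_le_mul_of_nonneg_left c3 hMK.le
  -- the union
  have s10 : volume.real {a : X k | M ^ (-(1 / 2 : ℝ)) / 2 ≤ ‖u (p * N₀) a‖} ≤
      volume.real E + (volume.real {a : X k | a ∈ A ∧ hd p V a < τ} +
        volume.real {a : X k | a ∈ A ∧ τ ≤ hd p V a}) := by
    refine le_trans ?_ (le_trans (measureReal_union_le _ _)
      (add_le_add_right (measureReal_union_le _ _) _))
    apply measureReal_mono _ (measure_ne_top _ _)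
    intro a ha
    by_cases h : a ∈ E
    · exact Or.inl h
    · right
      have haA : a ∈ A := by rw [hA]; exact ⟨ha, h⟩
      rcases lt_or_ge (hd p V a) τ with h' | h'
      · exact Or.inl ⟨haA, h'⟩
      · exact Or.inr ⟨haA, h'⟩
  have s11 := mul_le_mul_of_nonneg_left s10 (by positivity : 0 ≤ (N₁ : ℝ) ^ (KN k))
  rw [mul_add, mul_add] at s11
  linarith

/-- the average of the densities over the good lines -/
theorem sr_avg (k : ℕ) (hk : 3 ≤ k) (M : ℝ) (hM : 1 ≤ M) (N₁ N₀ p : ℕ) (hN₀ : 1 ≤ N₀) (hp : 1 ≤ p)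
    (h3 : (N₁ : ℝ) ≤ 2 * (p * N₀)) (Me : ℝ) (ν τ ρ CW : ℝ) (hν : 1 ≤ ν) (hτ : 0 < τ)
    (A V : Set (X k)) (hV : MeasurableSet V) (hG : MeasurableSet (GdL k p A V τ))
    (hG5 : (p : ℝ) ^ k * volume.real {a : X k | a ∈ A ∧ τ ≤ hd p V a} ≤
      ν * volume.real (GdL k p A V τ))
    (hone : M ^ KN k * Me / 8 ≤ (N₁ : ℝ) ^ (KN k) * volume.real {a : X k | a ∈ A ∧ τ ≤ hd p V a})
    (c4 : ρ * CW * 64 ^ KN k * (8 * 2 ^ KN k) * ν ≤ τ * Me) :
    ρ * (CW * 64 ^ KN k * M ^ KN k / (N₀ : ℝ) ^ KN k) ≤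
      (p : ℝ) ^ (KN k - k) * ∫ a in GdL k p A V τ, hd p V a := by
  have hKk : k ≤ KN k := by
    unfold KN
    rw [Nat.le_div_iff_mul_le (by norm_num)]
    apply Nat.mul_le_mul_left; omega
  have hMK : 0 < M ^ KN k := by positivity
  have hN0 : (0 : ℝ) < N₀ := by exact_mod_cast hN₀
  have hp0 : (0 : ℝ) < p := by exact_mod_cast hp
  have hN0K : 0 < (N₀ : ℝ) ^ KN k := by positivity
  have hν0 : 0 < ν := by linarith
  have i1 : τ * volume.real (GdL k p A V τ) ≤ ∫ a in GdL k p A V τ, hd p V a := by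
    apply setIntegral_ge_of_const_le_real hG (measure_ne_top _ _)
    · intro a ha; exact ha.2
    · apply Measure.integrableOn_of_bounded (M := 1) (measure_ne_top _ _)
        (sr_hd_meas p hp V hV).aestronglyMeasurable
      apply Filter.Eventually.of_forall
      intro a
      rw [Real.norm_eq_abs, abs_of_nonneg (sr_hd_le p V a).1]
      exact (sr_hd_le p V a).2
  set v := volume.real {a : X k | a ∈ A ∧ τ ≤ hd p V a} with hv
  have hv0 : 0 ≤ v := measureReal_nonneg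
  have i2 : τ * ((p : ℝ) ^ k * v / ν) ≤ ∫ a in GdL k p A V τ, hd p V a := by
    refine le_trans (mul_le_mul_of_nonneg_left ?_ hτ.le) i1
    rw [div_le_iff₀ hν0]
    linarith
  have i3 : (p : ℝ) ^ (KN k - k) * (τ * ((p : ℝ) ^ k * v / ν)) = τ / ν * ((p : ℝ) ^ KN k * v) := by
    have : (p : ℝ) ^ KN k = (p : ℝ) ^ (KN k - k) * (p : ℝ) ^ k := by
      rw [← pow_add, Nat.sub_add_cancel hKk]
    rw [this]; ring
  refine le_trans ?_ (mul_le_mul_of_nonneg_left i2 (by positivity))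
  rw [i3]
  have hN1K : (N₁ : ℝ) ^ (KN k) ≤ 2 ^ (KN k) * ((p : ℝ) * N₀) ^ (KN k) := by
    rw [← mul_pow]
    exact pow_le_pow_left₀ (Nat.cast_nonneg _) h3 _
  have i4 : M ^ KN k * Me / 8 ≤ 2 ^ (KN k) * (N₀ : ℝ) ^ KN k * ((p : ℝ) ^ KN k * v) := by
    refine le_trans hone (le_trans (mul_le_mul_of_nonneg_right hN1K hv0) (le_of_eq ?_))
    rw [mul_pow]; ring
  have i5 : ρ * (CW * 64 ^ KN k * M ^ KN k / (N₀ : ℝ) ^ KN k) =
      (ρ * CW * 64 ^ KN k) * M ^ KN k / (N₀ : ℝ) ^ KN k := by ring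
  rw [i5, div_le_iff₀ hN0K]
  have i6 : ρ * CW * 64 ^ KN k ≤ τ * Me / ((8 * 2 ^ KN k) * ν) := by
    rw [le_div_iff₀ (by positivity)]
    linarith
  calc ρ * CW * 64 ^ KN k * M ^ KN k ≤ τ * Me / ((8 * 2 ^ KN k) * ν) * M ^ KN k :=
        mul_le_mul_of_nonneg_right i6 hMK.le
    _ = τ / ν / 2 ^ KN k * (M ^ KN k * Me / 8) := by field_simp
    _ ≤ τ / ν / 2 ^ KN k * (2 ^ (KN k) * (N₀ : ℝ) ^ KN k * ((p : ℝ) ^ KN k * v)) :=
        mul_le_mul_of_nonneg_left i4 (by positivity)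
    _ = τ / ν * ((p : ℝ) ^ KN k * v) * (N₀ : ℝ) ^ KN k := by field_simp

end Pool.Agent.H22.LVP
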