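import Pool.Agent.H22.LVP.SR1

/-!
# Row SR of lvp_modules, third part: the data of the stars
-/

set_option autoImplicit false

open Finset MeasureTheory Filter

namespace Pool.Agent.H22.LVP

open Pool.Agent.H24.CL Pool.Agent.H24.LV

theorem sr_KN_le (k : ℕ) (hk : 1 ≤ k) : k ≤ KN k := by
  unfold KN
  rw [Nat.le_div_iff_mul_le (by norm_num)]
  apply Nat.mul_le_mul_left; omega

theorem sr_H_mono (k q : ℕ) (hk : 1 ≤ k) : H k q 1 ≤ H k q k := by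
  intro a ha
  unfold H at ha ⊢
  rw [AddMonoidHom.mem_ker] at ha ⊢
  have ha' : (q ^ 1) • a = 0 := ha
  change (q ^ k) • a = 0
  obtain ⟨r, rfl⟩ : ∃ r, k = r + 1 := ⟨k - 1, by omega⟩
  rw [pow_one] at ha'
  rw [pow_succ, mul_smul, ha', smul_zero]

theorem sr_Cnt_mono {k : ℕ} {Γ : AddSubgroup (X k)} {W W' : Set (X k)} {B B' : ℝ}
    (h : Cnt Γ W B) (hW : W' ⊆ W) (hB : B ≤ B') : Cnt Γ W' B' :=
  fun Y h1 h2 => le_trans (h Y (fun y hy => hW (h1 y hy)) h2) hB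

/-- the points of `A0 p` outside the exceptional sets of the pairs -/
def sA {k : ℕ} (S : Finset ℕ) (A0 : ℕ → Set (X k)) (E2 : ℕ → ℕ → Set (X k)) (p : ℕ) : Set (X k) :=
  A0 p \ ⋃ q ∈ S.erase p, E2 p q

theorem sr_data (k : ℕ) (hk : 3 ≤ k) (hGM : L_GM) (S : Finset ℕ) (V : Set (X k))
    (A0 : ℕ → Set (X k)) (E2 : ℕ → ℕ → Set (X k)) (P' ν m τ Ω : ℝ) (hP' : 1 ≤ P') (hν : 1 ≤ ν)
    (hm : ν ≤ m) (hτ : 0 < τ) (hτ1 : τ ≤ 1) (hΩ : 0 ≤ Ω)
    (hpr : ∀ p ∈ S, p.Prime ∧ k < p ∧ P' ≤ (p : ℝ) ∧ (p : ℝ) ≤ 2 * P') (hV : MeasurableSet V)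
    (hA0 : ∀ p ∈ S, MeasurableSet (A0 p)) (hE2 : ∀ p ∈ S, ∀ q ∈ S, p ≠ q → MeasurableSet (E2 p q))
    (hAc : ∀ p ∈ S, Cnt (H k p k) (A0 p) ν)
    (hE2c : ∀ p ∈ S, ∀ q ∈ S, p ≠ q → Cnt (H k p k ⊔ H k q k) (A0 p \ E2 p q) m)
    (hms : ∀ p ∈ S, (p : ℝ) ^ KN k * volume.real (A0 p) ≤ Ω) :
    SData k S V (fun p => GdL k p (sA S A0 E2 p) V τ) P' ν m τ Ω := by
  have hk1 : 1 ≤ k := by omega
  have hAm : ∀ p ∈ S, MeasurableSet (sA S A0 E2 p) := by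
    intro p hp
    apply (hA0 p hp).diff
    apply Finset.measurableSet_biUnion
    intro q hq
    rw [Finset.mem_erase] at hq
    exact hE2 p hp q hq.2 (Ne.symm hq.1)
  have hsub : ∀ p, sA S A0 E2 p ⊆ A0 p := fun p => Set.sdiff_subset
  have hcnt : ∀ p ∈ S, Cnt (H k p k) (sA S A0 E2 p) ν := fun p hp =>
    sr_Cnt_mono (hAc p hp) (hsub p) (le_refl _)
  have gm := fun p (hp : p ∈ S) => hGM k p hk1 (hpr p hp).1.one_lt.le (sA S A0 E2 p) V τ ν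
    (hAm p hp) hV hτ hν (hcnt p hp)
  refine ⟨hk, hP', hν, hm, hτ, hτ1, hΩ, hpr, hV, fun p hp => (gm p hp).1, fun p hp => (gm p hp).2.1,
    fun p hp a ha => ha.2, ?_, ?_, ?_⟩
  · intro p hp
    exact (gm p hp).2.2.1 (H k p k) (sr_H_mono k p hk1) ν (hcnt p hp)
  · intro p hp q hq hpq
    apply (gm p hp).2.2.1 (H k p k ⊔ H k q k) (le_trans (sr_H_mono k p hk1) le_sup_left) m
    refine sr_Cnt_mono (hE2c p hp q hq hpq) ?_ (le_refl _)
    intro a ha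
    refine ⟨ha.1, fun h => ha.2 ?_⟩
    rw [Set.mem_iUnion₂]
    exact ⟨q, Finset.mem_erase.mpr ⟨Ne.symm hpq, hq⟩, h⟩
  · intro p hp
    have h1 := (gm p hp).2.2.2.1
    have h2 : volume.real (sA S A0 E2 p) ≤ volume.real (A0 p) :=
      measureReal_mono (hsub p) (measure_ne_top _ _)
    have h3 : (p : ℝ) ^ KN k = (p : ℝ) ^ (KN k - k) * (p : ℝ) ^ k := by
      rw [← pow_add, Nat.sub_add_cancel (sr_KN_le k hk1)]
    refine le_trans ?_ (hms p hp)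
    rw [h3, mul_assoc]
    apply mul_le_mul_of_nonneg_left _ (by positivity)
    exact le_trans h1 (mul_le_mul_of_nonneg_left h2 (by positivity))

theorem sr_lost (k : ℕ) (hk : 3 ≤ k) (hGM : L_GM) (hLO : L_LO) (S : Finset ℕ) (V : Set (X k))
    (A0 : ℕ → Set (X k)) (E2 : ℕ → ℕ → Set (X k)) (ν τ Ω lo : ℝ) (hν : 1 ≤ ν)
    (hτ : 0 < τ) (hΩ : 0 ≤ Ω) (hlo : 0 ≤ lo)
    (hpr : ∀ p ∈ S, p.Prime) (hV : MeasurableSet V)
    (hA0 : ∀ p ∈ S, MeasurableSet (A0 p)) (hE2 : ∀ p ∈ S, ∀ q ∈ S, p ≠ q → MeasurableSet (E2 p q))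
    (hAc : ∀ p ∈ S, Cnt (H k p k) (A0 p) ν)
    (hE2v : ∀ p ∈ S, ∀ q ∈ S, p ≠ q → (p : ℝ) ^ KN k * volume.real (E2 p q) ≤ lo * Ω) :
    mass k (DS S) (fun b x => Star S V (fun p => GdL k p (A0 p) V τ) b x) ≤
      mass k (DS S) (fun b x => Star S V (fun p => GdL k p (sA S A0 E2 p) V τ) b x) +
        ν ^ (S.card - 1) * ((S.card : ℝ) ^ 2 * (lo * Ω)) := by
  have hk1 : 1 ≤ k := by omega
  have hAm : ∀ p ∈ S, MeasurableSet (sA S A0 E2 p) := by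
    intro p hp
    apply (hA0 p hp).diff
    apply Finset.measurableSet_biUnion
    intro q hq
    rw [Finset.mem_erase] at hq
    exact hE2 p hp q hq.2 (Ne.symm hq.1)
  have hsub : ∀ p, sA S A0 E2 p ⊆ A0 p := fun p => Set.sdiff_subset
  have hcnt : ∀ p ∈ S, Cnt (H k p k) (sA S A0 E2 p) ν := fun p hp =>
    sr_Cnt_mono (hAc p hp) (hsub p) (le_refl _)
  have gm := fun p (hp : p ∈ S) => hGM k p hk1 (hpr p hp).one_lt.le (sA S A0 E2 p) V τ ν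
    (hAm p hp) hV hτ hν (hcnt p hp)
  have gm0 := fun p (hp : p ∈ S) => hGM k p hk1 (hpr p hp).one_lt.le (A0 p) V τ ν
    (hA0 p hp) hV hτ hν (hAc p hp)
  have h1 := hLO k S V (fun p => GdL k p (A0 p) V τ) (fun p => GdL k p (sA S A0 E2 p) V τ) ν hk hν
    hpr hV (fun p hp => (gm0 p hp).1) (fun p hp => (gm p hp).1) (fun p hp => (gm0 p hp).2.1)
    (fun p hp => (gm p hp).2.1) (fun p hp => ⟨by
      intro a ha
      obtain ⟨⟨h, hh, hha⟩, h2⟩ := ha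
      exact ⟨⟨h, hh, hsub p hha⟩, h2⟩, (gm0 p hp).2.2.1 (H k p k) (sr_H_mono k p hk1) ν (hAc p hp)⟩)
  refine le_trans h1 ?_
  gcongr
  have h2 : ∀ p ∈ S, (p : ℝ) ^ (KN k - k) * volume.real
      (GdL k p (A0 p) V τ \ GdL k p (sA S A0 E2 p) V τ) ≤ (S.card : ℝ) * (lo * Ω) := by
    intro p hp
    have h3 := (gm0 p hp).2.2.2.2.2 (sA S A0 E2 p) (hsub p) (hAm p hp)
    have h4 : A0 p \ sA S A0 E2 p ⊆ ⋃ q ∈ S.erase p, E2 p q := by
      intro a ha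
      by_contra h
      exact ha.2 ⟨ha.1, h⟩
    have h5 : volume.real (A0 p \ sA S A0 E2 p) ≤ ∑ q ∈ S.erase p, volume.real (E2 p q) :=
      le_trans (measureReal_mono h4 (measure_ne_top _ _)) (measureReal_biUnion_finset_le _ _)
    have h6 : (p : ℝ) ^ KN k = (p : ℝ) ^ (KN k - k) * (p : ℝ) ^ k := by
      rw [← pow_add, Nat.sub_add_cancel (sr_KN_le k hk1)]
    calc (p : ℝ) ^ (KN k - k) * volume.real (GdL k p (A0 p) V τ \ GdL k p (sA S A0 E2 p) V τ) ≤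
          (p : ℝ) ^ (KN k - k) * ((p : ℝ) ^ k * volume.real (A0 p \ sA S A0 E2 p)) :=
          mul_le_mul_of_nonneg_left h3 (by positivity)
      _ = (p : ℝ) ^ KN k * volume.real (A0 p \ sA S A0 E2 p) := by rw [h6]; ring
      _ ≤ (p : ℝ) ^ KN k * ∑ q ∈ S.erase p, volume.real (E2 p q) :=
          mul_le_mul_of_nonneg_left h5 (by positivity)
      _ = ∑ q ∈ S.erase p, (p : ℝ) ^ KN k * volume.real (E2 p q) := by rw [Finset.mul_sum]
      _ ≤ ∑ _q ∈ S.erase p, lo * Ω := by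
          apply Finset.sum_le_sum
          intro q hq
          rw [Finset.mem_erase] at hq
          exact hE2v p hp q hq.2 (Ne.symm hq.1)
      _ = ((S.erase p).card : ℝ) * (lo * Ω) := by rw [Finset.sum_const, nsmul_eq_mul]
      _ ≤ (S.card : ℝ) * (lo * Ω) := by
          apply mul_le_mul_of_nonneg_right _ (mul_nonneg hlo hΩ)
          exact_mod_cast Finset.card_le_card (Finset.erase_subset _ _)
  calc ∑ p ∈ S, (p : ℝ) ^ (KN k - k) * volume.real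
        (GdL k p (A0 p) V τ \ GdL k p (sA S A0 E2 p) V τ) ≤ ∑ _p ∈ S, (S.card : ℝ) * (lo * Ω) :=
        Finset.sum_le_sum h2
    _ = (S.card : ℝ) ^ 2 * (lo * Ω) := by rw [Finset.sum_const, nsmul_eq_mul]; ring

theorem sr_mass_split (k D : ℕ) (T R : X k → ℕ → Prop) :
    mass k D T ≤ mass k D (fun b x => T b x ∧ R b x) + mass k D (fun b x => T b x ∧ ¬ R b x) := by
  unfold mass
  rw [← mul_add, ← mul_add, ← Finset.sum_add_distrib]
  apply mul_le_mul_of_nonneg_left _ (by positivity)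
  apply mul_le_mul_of_nonneg_left _ (by positivity)
  apply Finset.sum_le_sum
  intro x _
  refine le_trans (measureReal_mono ?_ (measure_ne_top _ _)) (measureReal_union_le _ _)
  intro b hb
  by_cases h : R b x
  · exact Or.inl ⟨hb, h⟩
  · exact Or.inr ⟨hb, h⟩

end Pool.Agent.H22.LVP
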