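import Pool.Agent.H22.LVP.SR2

/-!
# Row SR of lvp_modules, fourth part: the rich stars
-/

set_option autoImplicit false

open Finset MeasureTheory Filter

namespace Pool.Agent.H22.LVP

open Pool.Agent.H24.CL Pool.Agent.H24.LV

/-- the numbers of the fine scale -/
theorem sr_scale (PP P' c : ℝ) (n : ℕ) (hPP : 1 ≤ PP) (h1 : Real.sqrt PP ≤ P') (h2 : P' ≤ PP)
    (hc : 0 < c) (hc1 : c ≤ 1 / 100) :
    1 ≤ P' ∧ 1 ≤ P' ^ (2 * c) ∧ P' ^ (2 * c) ≤ P' ^ (1 / 50 : ℝ) ∧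
    P' ^ (2 * c) ≤ (PP ^ c) ^ 2 ∧ (P' ^ (2 * c)) ^ n ≤ (PP ^ (c * n)) ^ 2 ∧
    1 ≤ PP ^ c ∧ 1 ≤ PP ^ (c * n) ∧ (PP ^ c) ^ n = PP ^ (c * n) ∧ PP ^ (-c) = (PP ^ c)⁻¹ ∧
    PP ^ (-(4 * c)) = ((PP ^ c) ^ 4)⁻¹ ∧ (PP ^ (-(4 * c))) ^ n = ((PP ^ (c * n)) ^ 4)⁻¹ := by
  have hPP0 : 0 < PP := by linarith
  have hs : 1 ≤ Real.sqrt PP := by rw [← Real.sqrt_one]; exact Real.sqrt_le_sqrt hPP
  have hP1 : 1 ≤ P' := le_trans hs h1
  have e1 : (PP ^ c) ^ n = PP ^ (c * n) := by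
    rw [← Real.rpow_natCast, ← Real.rpow_mul hPP0.le]
  have e2 : P' ^ (2 * c) ≤ (PP ^ c) ^ 2 := by
    rw [← Real.rpow_natCast, ← Real.rpow_mul hPP0.le]
    have : P' ^ (2 * c) ≤ PP ^ (2 * c) := Real.rpow_le_rpow (by linarith) h2 (by linarith)
    refine le_trans this (le_of_eq ?_)
    congr 1
    push_cast; ring
  have e3 : PP ^ (-(4 * c)) = ((PP ^ c) ^ 4)⁻¹ := by
    rw [← Real.rpow_natCast (PP ^ c) 4, ← Real.rpow_mul hPP0.le, Real.rpow_neg hPP0.le]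
    congr 2
    push_cast; ring
  refine ⟨hP1, Real.one_le_rpow hP1 (by linarith), ?_, e2, ?_, Real.one_le_rpow hPP hc.le,
    Real.one_le_rpow hPP (by positivity), e1, Real.rpow_neg hPP0.le c, e3, ?_⟩
  · apply Real.rpow_le_rpow_of_exponent_le hP1
    linarith
  · calc (P' ^ (2 * c)) ^ n ≤ ((PP ^ c) ^ 2) ^ n :=
          pow_le_pow_left₀ (Real.rpow_nonneg (by linarith) _) e2 n
      _ = (PP ^ (c * n)) ^ 2 := by rw [← e1]; ring
  · rw [e3, inv_pow, ← e1]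
    congr 1
    ring

theorem sr_num (PP P' c CI : ℝ) (n : ℕ) (hPP : 1 ≤ PP) (h1 : Real.sqrt PP ≤ P') (h2 : P' ≤ PP)
    (hc : 0 < c) (hc1 : c ≤ 1 / 100) (hn : 1 ≤ n) (hcn : 128 * (c * n) ≤ 1) (hCI : 1 ≤ CI)
    (hB : (24 * CI) ^ 4 ≤ PP ^ (1 / 8 : ℝ)) (hB2 : 24 * CI ≤ PP ^ (c * n)) :
    ∃ kap kap' : ℝ, 0 < kap ∧ kap ≤ 1 ∧ 0 < kap' ∧ kap' ≤ 1 ∧ 8 * P' ^ (2 * c) ≤ kap * P' ∧
      CI * (P' ^ (2 * c)) ^ (2 * n) * ((P' ^ (1 / 50 : ℝ)) ^ 3 / (kap ^ 3 * P') + kap +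
        kap' * (P' ^ (2 * c) / kap) ^ n) ≤ (PP ^ (-(4 * c))) ^ n / 8 ∧
      PP ^ (-(21 * (c * (n : ℝ) ^ 3))) ≤ kap' ^ n * PP ^ (-c) := by
  obtain ⟨s1, s2, s3, s4, s5, s6, s7, s8, s9, s10, s11⟩ := sr_scale PP P' c n hPP h1 h2 hc hc1
  have hPP0 : 0 < PP := by linarith
  have hP0 : 0 < P' := by linarith
  set ν := P' ^ (2 * c) with hν
  set y := PP ^ c with hy
  set z := PP ^ (c * n) with hz
  set m := P' ^ (1 / 50 : ℝ) with hm
  rw [s11, s9]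
  set B := 24 * CI with hBd
  have hB1 : (24 : ℝ) ≤ B := by linarith
  have hB0 : 0 < B := by linarith
  have hν0 : 0 < ν := by linarith
  have hz0 : 0 < z := by linarith
  have hy0 : 0 < y := by linarith
  have hνn : 1 ≤ ν ^ n := one_le_pow₀ s2
  have hνn0 : 0 < ν ^ n := by linarith
  have hz4 : 1 ≤ z ^ 4 := one_le_pow₀ s7
  -- kap
  set kap := (z ^ 4)⁻¹ / (B * ν ^ (2 * n)) with hkap
  have hden : 1 ≤ B * ν ^ (2 * n) := by
    have : 1 ≤ ν ^ (2 * n) := one_le_pow₀ s2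
    nlinarith
  have hkap0 : 0 < kap := by positivity
  have hkap1 : kap ≤ 1 := by
    rw [hkap, div_le_one (by positivity)]
    exact le_trans (inv_le_one_of_one_le₀ hz4) hden
  have hν2n : ν ^ (2 * n) ≤ z ^ 4 := by
    calc ν ^ (2 * n) = (ν ^ n) ^ 2 := by ring
      _ ≤ (z ^ 2) ^ 2 := pow_le_pow_left₀ hνn0.le s5 2
      _ = z ^ 4 := by ring
  have hkaplo : (B * z ^ 8)⁻¹ ≤ kap := by
    rw [hkap, div_eq_mul_inv, ← mul_inv]
    apply inv_anti₀ (by positivity)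
    calc z ^ 4 * (B * ν ^ (2 * n)) ≤ z ^ 4 * (B * z ^ 4) := by gcongr
      _ = B * z ^ 8 := by ring
  have hkapB : kap * (B * ν ^ (2 * n)) = (z ^ 4)⁻¹ := by
    rw [hkap]; field_simp
  -- the powers of `z`
  have hz32 : z ^ 32 ≤ PP ^ (1 / 4 : ℝ) := by
    rw [hz, ← Real.rpow_natCast, ← Real.rpow_mul hPP0.le]
    apply Real.rpow_le_rpow_of_exponent_le hPP
    push_cast
    linarith
  have hzB : B ^ 4 * z ^ 32 ≤ PP ^ (3 / 8 : ℝ) := by
    calc B ^ 4 * z ^ 32 ≤ PP ^ (1 / 8 : ℝ) * PP ^ (1 / 4 : ℝ) :=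
          mul_le_mul hB hz32 (by positivity) (Real.rpow_nonneg hPP0.le _)
      _ = PP ^ (3 / 8 : ℝ) := by rw [← Real.rpow_add hPP0]; norm_num
  have hP47 : PP ^ (3 / 8 : ℝ) ≤ P' ^ (47 / 50 : ℝ) := by
    have g1 : (Real.sqrt PP) ^ (47 / 50 : ℝ) ≤ P' ^ (47 / 50 : ℝ) :=
      Real.rpow_le_rpow (Real.sqrt_nonneg _) h1 (by norm_num)
    refine le_trans ?_ g1
    rw [Real.sqrt_eq_rpow, ← Real.rpow_mul hPP0.le]
    apply Real.rpow_le_rpow_of_exponent_le hPP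
    norm_num
  have hmain : B ^ 4 * z ^ 32 * m ^ 3 ≤ P' := by
    calc B ^ 4 * z ^ 32 * m ^ 3 ≤ P' ^ (47 / 50 : ℝ) * m ^ 3 := by
          apply mul_le_mul_of_nonneg_right (le_trans hzB hP47); positivity
      _ = P' := by
          rw [hm, ← Real.rpow_natCast, ← Real.rpow_mul hP0.le, ← Real.rpow_add hP0]
          norm_num
  have hm1 : 1 ≤ m := Real.one_le_rpow s1 (by norm_num)
  have hm3 : 1 ≤ m ^ 3 := one_le_pow₀ hm1
  -- kap'
  set kap' := kap ^ (n + 1) / ν ^ n with hkap'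
  have hkap'0 : 0 < kap' := by positivity
  have hkap'1 : kap' ≤ 1 := by
    rw [hkap', div_le_one hνn0]
    exact le_trans (pow_le_one₀ hkap0.le hkap1) hνn
  have hthird0 : ∀ κ : ℝ, 0 < κ → κ ^ (n + 1) / ν ^ n * (ν / κ) ^ n = κ := by
    intro κ hκ
    rw [div_pow, pow_succ]
    field_simp
  have hthird : kap' * (ν / kap) ^ n = kap := hthird0 kap hkap0
  refine ⟨kap, kap', hkap0, hkap1, hkap'0, hkap'1, ?_, ?_, ?_⟩
  · -- 8 ν ≤ kap P'
    have g1 : 8 * ν * (B * z ^ 8) ≤ P' := by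
      have g2 : 8 * ν ≤ 8 * y ^ 2 := by linarith
      have g3 : y ≤ z := by
        rw [hy, hz]
        apply Real.rpow_le_rpow_of_exponent_le hPP
        have : (1 : ℝ) ≤ n := by exact_mod_cast hn
        nlinarith
      have g4 : y ^ 2 ≤ z ^ 2 := pow_le_pow_left₀ hy0.le g3 2
      have g5 : 8 * B ≤ B ^ 4 := by
        have : (8 : ℝ) ≤ B ^ 3 := by
          calc (8 : ℝ) ≤ 24 ^ 3 := by norm_num
            _ ≤ B ^ 3 := pow_le_pow_left₀ (by norm_num) hB1 3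
        calc 8 * B ≤ B ^ 3 * B := mul_le_mul_of_nonneg_right this hB0.le
          _ = B ^ 4 := by ring
      calc 8 * ν * (B * z ^ 8) ≤ 8 * z ^ 2 * (B * z ^ 8) := by
            apply mul_le_mul_of_nonneg_right _ (by positivity); linarith
        _ = (8 * B) * z ^ 10 := by ring
        _ ≤ B ^ 4 * z ^ 32 := by
            apply mul_le_mul g5 (pow_le_pow_right₀ s7 (by norm_num)) (by positivity) (by positivity)
        _ ≤ B ^ 4 * z ^ 32 * m ^ 3 := le_mul_of_one_le_right (by positivity) hm3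
        _ ≤ P' := hmain
    calc 8 * ν = (B * z ^ 8)⁻¹ * (8 * ν * (B * z ^ 8)) := by field_simp
      _ ≤ (B * z ^ 8)⁻¹ * P' := mul_le_mul_of_nonneg_left g1 (by positivity)
      _ ≤ kap * P' := mul_le_mul_of_nonneg_right hkaplo hP0.le
  · rw [hthird]
    have g1 : CI * ν ^ (2 * n) * kap = (z ^ 4)⁻¹ / 24 := by
      rw [← hkapB, hBd]; ring
    have g2 : CI * ν ^ (2 * n) * (m ^ 3 / (kap ^ 3 * P')) ≤ (z ^ 4)⁻¹ / 24 := by
      rw [← g1]
      apply mul_le_mul_of_nonneg_left _ (by positivity)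
      rw [div_le_iff₀ (by positivity)]
      -- m^3 ≤ kap^4 P'
      have g3 : (B * z ^ 8)⁻¹ ^ 4 ≤ kap ^ 4 := pow_le_pow_left₀ (by positivity) hkaplo 4
      calc m ^ 3 = (B * z ^ 8)⁻¹ ^ 4 * (B ^ 4 * z ^ 32 * m ^ 3) := by field_simp
        _ ≤ (B * z ^ 8)⁻¹ ^ 4 * P' := mul_le_mul_of_nonneg_left hmain (by positivity)
        _ ≤ kap ^ 4 * P' := mul_le_mul_of_nonneg_right g3 hP0.le
        _ = kap * (kap ^ 3 * P') := by ring
    have g4 : CI * ν ^ (2 * n) * (m ^ 3 / (kap ^ 3 * P') + kap + kap) =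
        CI * ν ^ (2 * n) * (m ^ 3 / (kap ^ 3 * P')) + CI * ν ^ (2 * n) * kap +
          CI * ν ^ (2 * n) * kap := by ring
    rw [g4, g1]
    linarith
  · -- the threshold
    have g1 : (z ^ 9)⁻¹ ≤ kap := by
      refine le_trans ?_ hkaplo
      apply inv_anti₀ (by positivity)
      calc B * z ^ 8 ≤ z * z ^ 8 := mul_le_mul_of_nonneg_right hB2 (by positivity)
        _ = z ^ 9 := by ring
    have g2 : (z ^ (9 * (n + 1) + 2))⁻¹ ≤ kap' := by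
      rw [hkap', div_eq_mul_inv]
      calc (z ^ (9 * (n + 1) + 2))⁻¹ = (z ^ 9)⁻¹ ^ (n + 1) * (z ^ 2)⁻¹ := by
            rw [pow_add, mul_inv, pow_mul, inv_pow]
        _ ≤ kap ^ (n + 1) * (ν ^ n)⁻¹ := by
            apply mul_le_mul (pow_le_pow_left₀ (by positivity) g1 _) (inv_anti₀ hνn0 s5)
              (by positivity) (by positivity)
    have g3 : (z ^ ((9 * (n + 1) + 2) * n))⁻¹ ≤ kap' ^ n := by
      rw [pow_mul, ← inv_pow]
      exact pow_le_pow_left₀ (by positivity) g2 n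
    have g4 : z⁻¹ ≤ y⁻¹ := by
      apply inv_anti₀ hy0
      rw [hy, hz]
      apply Real.rpow_le_rpow_of_exponent_le hPP
      have : (1 : ℝ) ≤ n := by exact_mod_cast hn
      nlinarith
    have g5 : (z ^ (21 * n ^ 2))⁻¹ ≤ kap' ^ n * y⁻¹ := by
      calc (z ^ (21 * n ^ 2))⁻¹ ≤ (z ^ ((9 * (n + 1) + 2) * n + 1))⁻¹ := by
            apply inv_anti₀ (by positivity)
            apply pow_le_pow_right₀ s7
            nlinarith
        _ = (z ^ ((9 * (n + 1) + 2) * n))⁻¹ * z⁻¹ := by rw [pow_succ, mul_inv]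
        _ ≤ kap' ^ n * y⁻¹ := mul_le_mul g3 g4 (by positivity) (by positivity)
    refine le_trans (le_of_eq ?_) g5
    rw [Real.rpow_neg hPP0.le]
    congr 1
    rw [hz, ← Real.rpow_natCast (PP ^ (c * (n : ℝ))) (21 * n ^ 2), ← Real.rpow_mul hPP0.le]
    congr 1
    push_cast
    ring

/-- the points covered by the rich stars -/
theorem sr_cover (k : ℕ) (n : ℕ) (CI : ℝ) (hCV : L_CV)
    (hRI : ∀ (S : Finset ℕ) (V : Set (X k)) (Gd : ℕ → Set (X k))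
    (P ν m τ Ω kap kap' : ℝ), S.card = n → SData k S V Gd P ν m τ Ω → 0 < kap → kap ≤ 1 →
    8 * ν ≤ kap * P → 0 < kap' → kap' ≤ 1 →
    mass k (DS S) (fun b x => Star S V Gd b x ∧ ¬ Rich S V (kap' ^ n * τ) b x) ≤
      CI * ν ^ (2 * n) * (m ^ 3 / (kap ^ 3 * P) + kap + kap' * (ν / kap) ^ n) * Ω)
    (S : Finset ℕ) (V : Set (X k)) (Gd : ℕ → Set (X k)) (P' ν m τ Ω kap kap' R κ' : ℝ)
    (hS : S.card = n) (hD : SData k S V Gd P' ν m τ Ω) (hkap : 0 < kap) (hkap1 : kap ≤ 1)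
    (h8 : 8 * ν ≤ kap * P') (hkap' : 0 < kap') (hkap'1 : kap' ≤ 1)
    (hR : CI * ν ^ (2 * n) * (m ^ 3 / (kap ^ 3 * P') + kap + kap' * (ν / kap) ^ n) ≤ R / 8)
    (hm : 3 / 8 * R * Ω ≤ mass k (DS S) (fun b x => Star S V Gd b x))
    (hκ : κ' ≤ kap' ^ n * τ) :
    R / 4 * Ω ≤ ν ^ n * volume.real {w : X k | ∃ (b : X k) (x : ℕ), x < DS S ∧ phi (DS S) x b = w ∧
        Rich S V κ' b x} := by
  have h1 := hRI S V Gd P' ν m τ Ω kap kap' hS hD hkap hkap1 h8 hkap' hkap'1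
  have h2 := hCV k S V Gd P' ν m τ Ω (kap' ^ n * τ) hD
  have h3 := sr_mass_split k (DS S) (fun b x => Star S V Gd b x)
    (fun b x => Rich S V (kap' ^ n * τ) b x)
  have h4 := mul_le_mul_of_nonneg_right hR hD.hΩ
  rw [hS] at h2
  have h5 : volume.real {w : X k | ∃ (b : X k) (x : ℕ), x < DS S ∧ phi (DS S) x b = w ∧
        Rich S V (kap' ^ n * τ) b x} ≤ volume.real {w : X k | ∃ (b : X k) (x : ℕ), x < DS S ∧
        phi (DS S) x b = w ∧ Rich S V κ' b x} := by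
    apply measureReal_mono _ (measure_ne_top _ _)
    rintro w ⟨b, x, hx, hw, hr⟩
    exact ⟨b, x, hx, hw, fun S' hS' => le_trans hκ (hr S' hS')⟩
  have h6 : 0 ≤ ν ^ n := by
    have := hD.hν
    positivity
  have h7 := mul_le_mul_of_nonneg_left h5 h6
  linarith

end Pool.Agent.H22.LVP
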