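import Pool.Agent.H22.LVP.SR3

/-!
# Row SR of lvp_modules, fifth part: one scale
-/

set_option autoImplicit false

open Finset MeasureTheory Filter

namespace Pool.Agent.H22.LVP

open Pool.Agent.H24.CL Pool.Agent.H24.LV

/-- the levels -/
theorem sr_level (M a C₄ δ D : ℝ) (N₁ N₀ p : ℕ) (q : ℝ) (hM : 1 ≤ M) (ha : 0 < a) (hD : 0 ≤ D)
    (hDa : D * a ≤ δ / 4) (hC₄ : 0 ≤ C₄) (hp : 1 ≤ p) (hq1 : M ^ (a / 2) ≤ q) (hq2 : q ≤ 2 * M ^ a)
    (hN₀ : M ^ (1 + δ / 2) ≤ (N₀ : ℝ)) (hpN : p * N₀ ≤ N₁) (hN₁ : (N₁ : ℝ) ≤ M ^ C₄)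
    (h2 : 4 * 2 ^ D ≤ M ^ (δ / 4)) :
    q ^ D ≤ ((p * N₀ : ℕ) : ℝ) * (M ^ (-(1 / 2 : ℝ)) / 2) ^ 2 ∧
    ((p * N₀ : ℕ) : ℝ) * (M ^ (-(1 / 2 : ℝ)) / 2) ^ 2 ≤ q ^ (2 * C₄ / a) := by
  have hM0 : 0 < M := by linarith
  have e0 := sr_tpow M 2 hM0 1
  rw [mul_one, pow_one] at e0
  rw [e0]
  have hp1 : (1 : ℝ) ≤ p := by exact_mod_cast hp
  have hq0 : 0 < q := lt_of_lt_of_le (Real.rpow_pos_of_pos hM0 _) hq1
  have hMa : 0 < M ^ a := Real.rpow_pos_of_pos hM0 _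
  constructor
  · have h3 : q ^ D ≤ 2 ^ D * M ^ (δ / 4) := by
      calc q ^ D ≤ (2 * M ^ a) ^ D := Real.rpow_le_rpow hq0.le hq2 hD
        _ = 2 ^ D * (M ^ a) ^ D := Real.mul_rpow (by norm_num) hMa.le
        _ = 2 ^ D * M ^ (a * D) := by rw [← Real.rpow_mul hM0.le]
        _ ≤ 2 ^ D * M ^ (δ / 4) := by
            apply mul_le_mul_of_nonneg_left _ (Real.rpow_nonneg (by norm_num) _)
            apply Real.rpow_le_rpow_of_exponent_le hM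
            linarith
    have h4 : M * (4 * (2 ^ D * M ^ (δ / 4))) ≤ N₀ := by
      calc M * (4 * (2 ^ D * M ^ (δ / 4))) = M * ((4 * 2 ^ D) * M ^ (δ / 4)) := by ring
        _ ≤ M * (M ^ (δ / 4) * M ^ (δ / 4)) := by
            apply mul_le_mul_of_nonneg_left _ hM0.le
            exact mul_le_mul_of_nonneg_right h2 (Real.rpow_nonneg hM0.le _)
        _ = M ^ (1 + δ / 2) := by
            rw [← Real.rpow_add hM0]
            nth_rw 1 [← Real.rpow_one M]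
            rw [← Real.rpow_add hM0]
            congr 1
            ring
        _ ≤ N₀ := hN₀
    have h5 : (N₀ : ℝ) ≤ ((p * N₀ : ℕ) : ℝ) := by
      push_cast
      exact le_mul_of_one_le_left (Nat.cast_nonneg _) hp1
    refine le_trans h3 ?_
    have h6 : ((p * N₀ : ℕ) : ℝ) * (M⁻¹ / 2 ^ 2) = ((p * N₀ : ℕ) : ℝ) / (4 * M) := by
      field_simp
      norm_num
    rw [h6, le_div_iff₀ (by positivity)]
    linarith
  · have h3 : ((p * N₀ : ℕ) : ℝ) ≤ M ^ C₄ := le_trans (by exact_mod_cast hpN) hN₁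
    have h4 : M⁻¹ / 2 ^ 2 ≤ 1 := by
      have : M⁻¹ ≤ 1 := inv_le_one_of_one_le₀ hM
      rw [div_le_one (by norm_num)]
      linarith
    calc ((p * N₀ : ℕ) : ℝ) * (M⁻¹ / 2 ^ 2) ≤ ((p * N₀ : ℕ) : ℝ) * 1 :=
          mul_le_mul_of_nonneg_left h4 (Nat.cast_nonneg _)
      _ ≤ M ^ C₄ := by rw [mul_one]; exact h3
      _ = (M ^ (a / 2)) ^ (2 * C₄ / a) := by
          rw [← Real.rpow_mul hM0.le]
          congr 1
          field_simp
      _ ≤ q ^ (2 * C₄ / a) := by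
          apply Real.rpow_le_rpow (Real.rpow_nonneg hM0.le _) hq1
          positivity

/-- the length of the short sums -/
theorem sr_N0 (M a δ P' : ℝ) (N₁ N₀ : ℕ) (hM : 1 ≤ M) (hδ : 0 < δ) (haδ : a ≤ δ / 4) (hP' : 1 ≤ P')
    (hP : P' ≤ M ^ a) (hN₁ : M ^ (1 + δ) ≤ (N₁ : ℝ)) (h : (N₁ : ℝ) / (2 * P') - 1 ≤ N₀)
    (h4 : 4 ≤ M ^ (δ / 4)) : M ^ (1 + δ / 2) ≤ (N₀ : ℝ) := by
  have hM0 : 0 < M := by linarith
  have hMa : 0 < M ^ a := Real.rpow_pos_of_pos hM0 _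
  refine le_trans ?_ h
  have h1 : 4 * M ^ (1 + δ / 2) * M ^ a ≤ N₁ := by
    calc 4 * M ^ (1 + δ / 2) * M ^ a ≤ M ^ (δ / 4) * M ^ (1 + δ / 2) * M ^ a := by
          apply mul_le_mul_of_nonneg_right _ hMa.le
          exact mul_le_mul_of_nonneg_right h4 (Real.rpow_nonneg hM0.le _)
      _ = M ^ (δ / 4 + (1 + δ / 2) + a) := by rw [← Real.rpow_add hM0, ← Real.rpow_add hM0]
      _ ≤ M ^ (1 + δ) := by
          apply Real.rpow_le_rpow_of_exponent_le hM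
          linarith
      _ ≤ N₁ := hN₁
  have h2 : 1 ≤ M ^ (1 + δ / 2) := Real.one_le_rpow hM (by linarith)
  have h3 : 2 * M ^ (1 + δ / 2) ≤ (N₁ : ℝ) / (2 * P') := by
    rw [le_div_iff₀ (by positivity)]
    refine le_trans ?_ h1
    have : M ^ (1 + δ / 2) * P' ≤ M ^ (1 + δ / 2) * M ^ a :=
      mul_le_mul_of_nonneg_left hP (by linarith)
    linarith
  linarith

end Pool.Agent.H22.LVP
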