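import Pool.Agent.H22.LVP.SR3

/-!
# Row SR of lvp_modules, fifth part: numerical conditions
-/

set_option autoImplicit false

open Finset MeasureTheory Filter

namespace Pool.Agent.H22.LVP

open Pool.Agent.H24.CL Pool.Agent.H24.LV

theorem sr_c1 (PP c w CT Me : ℝ) (K : ℕ) (hK : 1 ≤ K) (hPP : 1 ≤ PP) (hc1 : c ≤ 1 / 100)
    (hCT : 1 ≤ CT) (hw : w = PP ^ (-(1 / 8 : ℝ))) (hw0 : 0 < w) (hw4 : w ≤ 1 / 4)
    (hMe1 : PP ^ (-(c / 10)) ≤ Me) (m6 : CT * 2 ^ (K + 1) ≤ PP ^ (1 / 16 : ℝ)) :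
    CT * (2 * w) ^ K ≤ Me / 2 := by
  have hPP0 : 0 < PP := by linarith
  have g1 : (2 * w) ^ K ≤ 2 ^ K * w := by
    rw [mul_pow]
    apply mul_le_mul_of_nonneg_left _ (by positivity)
    exact pow_le_of_le_one hw0.le (by linarith) (by omega)
  have g2 : w = PP ^ (-(1 / 16 : ℝ)) * PP ^ (-(1 / 16 : ℝ)) := by
    rw [hw, ← Real.rpow_add hPP0]; norm_num
  have g3 : PP ^ (-(1 / 16 : ℝ)) ≤ Me := by
    refine le_trans ?_ hMe1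
    apply Real.rpow_le_rpow_of_exponent_le hPP
    linarith
  have g4 : CT * 2 ^ (K + 1) * PP ^ (-(1 / 16 : ℝ)) ≤ 1 := by
    calc CT * 2 ^ (K + 1) * PP ^ (-(1 / 16 : ℝ)) ≤
          PP ^ (1 / 16 : ℝ) * PP ^ (-(1 / 16 : ℝ)) :=
          mul_le_mul_of_nonneg_right m6 (Real.rpow_nonneg hPP0.le _)
      _ = 1 := by rw [← Real.rpow_add hPP0]; norm_num
  have g5 : 0 ≤ PP ^ (-(1 / 16 : ℝ)) := Real.rpow_nonneg hPP0.le _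
  have g6 : CT * (2 * w) ^ K ≤ CT * (2 ^ K * w) := mul_le_mul_of_nonneg_left g1 (by linarith)
  have g7 : CT * (2 ^ K * w) =
      (CT * 2 ^ (K + 1) * PP ^ (-(1 / 16 : ℝ))) * PP ^ (-(1 / 16 : ℝ)) / 2 := by
    rw [g2]; ring
  have g8 := mul_le_mul_of_nonneg_right g4 g5
  rw [g7] at g6
  linarith

theorem sr_c2 (PP d p Me : ℝ) (K : ℕ) (hPP : 1 ≤ PP) (hd : 0 < d) (hp : Real.sqrt PP ≤ p)
    (hMe2 : PP ^ (-(d / 4)) ≤ Me) (m7 : 4 * 8 ^ K ≤ PP ^ (d / 4)) :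
    8 ^ K * p ^ (-d) ≤ Me / 4 := by
  have hPP0 : 0 < PP := by linarith
  have g1 : p ^ (-d) ≤ PP ^ (-(d / 4)) * PP ^ (-(d / 4)) := by
    rw [← Real.rpow_add hPP0]
    have g2 : p ^ (-d) ≤ (Real.sqrt PP) ^ (-d) := by
      apply Real.rpow_le_rpow_of_nonpos (Real.sqrt_pos.mpr hPP0) hp
      linarith
    refine le_trans g2 (le_of_eq ?_)
    rw [Real.sqrt_eq_rpow, ← Real.rpow_mul hPP0.le]
    congr 1; ring
  have g3 : 4 * 8 ^ K * PP ^ (-(d / 4)) ≤ 1 := by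
    calc 4 * 8 ^ K * PP ^ (-(d / 4)) ≤ PP ^ (d / 4) * PP ^ (-(d / 4)) :=
          mul_le_mul_of_nonneg_right m7 (Real.rpow_nonneg hPP0.le _)
      _ = 1 := by rw [← Real.rpow_add hPP0]; norm_num
  have g5 : 0 ≤ PP ^ (-(d / 4)) := Real.rpow_nonneg hPP0.le _
  have g6 : 8 ^ K * p ^ (-d) ≤ 8 ^ K * (PP ^ (-(d / 4)) * PP ^ (-(d / 4))) :=
    mul_le_mul_of_nonneg_left g1 (by positivity)
  have g7 := mul_le_mul_of_nonneg_right g3 g5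
  linarith

theorem sr_c3 (y ν τ CR Me : ℝ) (K : ℕ) (hK : 6 ≤ K) (hy : 1 ≤ y) (hCR : 1 ≤ CR) (hν : 1 ≤ ν)
    (hτ0 : 0 < τ) (hτ1 : τ ≤ 1) (s4 : ν ≤ y ^ 2) (s9 : τ = y⁻¹) (hMe : y⁻¹ ≤ Me)
    (m8 : 8 * 8 ^ K * CR ≤ y) : 8 ^ K * (CR * ν * τ ^ (2 * K - 1)) ≤ Me / 8 := by
  have hy0 : 0 < y := by linarith
  have g1 : τ ^ (2 * K - 1) ≤ τ ^ 5 := pow_le_pow_of_le_one hτ0.le hτ1 (by omega)
  have g3 : ν * τ ^ (2 * K - 1) ≤ (y ^ 3)⁻¹ := by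
    calc ν * τ ^ (2 * K - 1) ≤ y ^ 2 * τ ^ 5 := mul_le_mul s4 g1 (by positivity) (by positivity)
      _ = (y ^ 3)⁻¹ := by rw [s9]; field_simp
  have g4 : 8 ^ K * (CR * ν * τ ^ (2 * K - 1)) = 8 ^ K * CR * (ν * τ ^ (2 * K - 1)) := by ring
  have g5 : 8 ^ K * CR * (ν * τ ^ (2 * K - 1)) ≤ 8 ^ K * CR * (y ^ 3)⁻¹ :=
    mul_le_mul_of_nonneg_left g3 (by positivity)
  have g6 : 0 ≤ (y ^ 3)⁻¹ := by positivity
  have g7 := mul_le_mul_of_nonneg_right m8 g6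
  have g8 : y * (y ^ 3)⁻¹ ≤ y⁻¹ := by
    have e1 : y * (y ^ 3)⁻¹ = (y ^ 2)⁻¹ := by field_simp
    rw [e1]
    apply inv_anti₀ hy0
    nlinarith
  linarith

theorem sr_c4 (PP c y ν τ ρ CW Me : ℝ) (K : ℕ) (hPP : 1 ≤ PP) (hc : 0 < c) (hyd : y = PP ^ c)
    (hy : 1 ≤ y) (hCW : 1 ≤ CW) (s4 : ν ≤ y ^ 2) (s9 : τ = y⁻¹)
    (s10 : ρ = (y ^ 4)⁻¹) (hMe0 : 0 < Me) (hMe1 : PP ^ (-(c / 10)) ≤ Me)
    (m9 : CW * 64 ^ K * (8 * 2 ^ K) ≤ PP ^ (c / 2)) :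
    ρ * CW * 64 ^ K * (8 * 2 ^ K) * ν ≤ τ * Me := by
  have hPP0 : 0 < PP := by linarith
  have hy0 : 0 < y := by linarith
  have hρ0 : 0 < ρ := by rw [s10]; positivity
  have g1 : CW * 64 ^ K * (8 * 2 ^ K) ≤ y * Me := by
    refine le_trans m9 ?_
    have g2 : PP ^ (c / 2) ≤ PP ^ c * PP ^ (-(c / 10)) := by
      rw [← Real.rpow_add hPP0]
      apply Real.rpow_le_rpow_of_exponent_le hPP
      linarith
    refine le_trans g2 ?_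
    rw [hyd]
    exact mul_le_mul_of_nonneg_left hMe1 (Real.rpow_nonneg hPP0.le _)
  calc ρ * CW * 64 ^ K * (8 * 2 ^ K) * ν = ρ * ν * (CW * 64 ^ K * (8 * 2 ^ K)) := by ring
    _ ≤ ρ * y ^ 2 * (y * Me) := by
        apply mul_le_mul (mul_le_mul_of_nonneg_left s4 hρ0.le) g1 (by positivity) (by positivity)
    _ = τ * Me := by rw [s10, s9]; field_simp

theorem sr_c5 (PP c z ν R q : ℝ) (n : ℕ) (hPP : 1 ≤ PP) (hc : 0 < c) (hcn : 128 * (c * n) ≤ 1)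
    (hzd : z = PP ^ (c * n)) (hz : 1 ≤ z) (s5 : ν ^ n ≤ z ^ 2) (hR : R = (z ^ 4)⁻¹)
    (hQc : PP ^ (1 / 4 : ℝ) ≤ q) (m10 : 2 * (n : ℝ) ^ 2 ≤ PP ^ (1 / 8 : ℝ)) :
    2 * (n : ℝ) ^ 2 * ν ^ n ≤ R * q := by
  have hPP0 : 0 < PP := by linarith
  have hz0 : 0 < z := by linarith
  have g1 : z ^ 6 ≤ PP ^ (1 / 8 : ℝ) := by
    rw [hzd, ← Real.rpow_natCast (PP ^ (c * (n : ℝ))) 6, ← Real.rpow_mul hPP0.le]
    apply Real.rpow_le_rpow_of_exponent_le hPP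
    push_cast
    have : 0 ≤ c * n := by positivity
    linarith
  have g2 : 2 * (n : ℝ) ^ 2 * z ^ 6 ≤ q := by
    calc 2 * (n : ℝ) ^ 2 * z ^ 6 ≤ PP ^ (1 / 8 : ℝ) * PP ^ (1 / 8 : ℝ) :=
          mul_le_mul m10 g1 (by positivity) (Real.rpow_nonneg hPP0.le _)
      _ = PP ^ (1 / 4 : ℝ) := by rw [← Real.rpow_add hPP0]; norm_num
      _ ≤ q := hQc
  rw [hR]
  calc 2 * (n : ℝ) ^ 2 * ν ^ n ≤ 2 * (n : ℝ) ^ 2 * z ^ 2 := by gcongr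
    _ = (z ^ 4)⁻¹ * (2 * (n : ℝ) ^ 2 * z ^ 6) := by field_simp
    _ ≤ (z ^ 4)⁻¹ * q := mul_le_mul_of_nonneg_left g2 (by positivity)

theorem sr_c6 (PP c z ν R lo ds Ω : ℝ) (n : ℕ) (hPP : 1 ≤ PP) (hcds : 24 * (c * n) ≤ ds)
    (hzd : z = PP ^ (c * n)) (hz : 1 ≤ z) (hν : 1 ≤ ν) (s5 : ν ^ n ≤ z ^ 2) (hR : R = (z ^ 4)⁻¹)
    (hlod : lo = PP ^ (-(ds / 2))) (hlo0 : 0 < lo) (hΩ : 0 < Ω)
    (m11 : 8 * (n : ℝ) ^ 2 ≤ PP ^ (ds / 4)) :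
    ν ^ (n - 1) * ((n : ℝ) ^ 2 * (lo * Ω)) ≤ R / 8 * Ω := by
  have hPP0 : 0 < PP := by linarith
  have hz0 : 0 < z := by linarith
  have g2 : ν ^ (n - 1) ≤ z ^ 2 := le_trans (pow_le_pow_right₀ hν (Nat.sub_le _ _)) s5
  have g3 : z ^ 6 ≤ PP ^ (ds / 4) := by
    rw [hzd, ← Real.rpow_natCast (PP ^ (c * (n : ℝ))) 6, ← Real.rpow_mul hPP0.le]
    apply Real.rpow_le_rpow_of_exponent_le hPP
    push_cast
    linarith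
  have g4 : 8 * (n : ℝ) ^ 2 * z ^ 6 * lo ≤ 1 := by
    calc 8 * (n : ℝ) ^ 2 * z ^ 6 * lo ≤ PP ^ (ds / 4) * PP ^ (ds / 4) * lo := by
          apply mul_le_mul_of_nonneg_right _ hlo0.le
          exact mul_le_mul m11 g3 (by positivity) (Real.rpow_nonneg hPP0.le _)
      _ = 1 := by
          rw [hlod, ← Real.rpow_add hPP0, ← Real.rpow_add hPP0]
          have : ds / 4 + ds / 4 + -(ds / 2) = 0 := by ring
          rw [this, Real.rpow_zero]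
  rw [hR]
  calc ν ^ (n - 1) * ((n : ℝ) ^ 2 * (lo * Ω)) ≤ z ^ 2 * ((n : ℝ) ^ 2 * (lo * Ω)) := by
        apply mul_le_mul_of_nonneg_right g2; positivity
    _ = (8 * (n : ℝ) ^ 2 * z ^ 6 * lo) * ((z ^ 4)⁻¹ / 8 * Ω) := by field_simp
    _ ≤ 1 * ((z ^ 4)⁻¹ / 8 * Ω) := mul_le_mul_of_nonneg_right g4 (by positivity)
    _ = (z ^ 4)⁻¹ / 8 * Ω := one_mul _

theorem sr_c7 (M a c z σ Ω N0K G vol ν : ℝ) (n K : ℕ) (hM : 1 ≤ M) (ha : 0 < a)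
    (hc : 0 < c) (hn : 1 ≤ n) (hσn : 42 * (a * (c * (n : ℝ) ^ 3)) ≤ σ)
    (hzd : z = (M ^ a) ^ (c * n)) (hz : 1 ≤ z) (hνn : ν ≤ z ^ 2) (hΩ : 0 < Ω) (hN : 0 < N0K)
    (hG : 1 ≤ G) (hΩd : Ω = G * M ^ K / N0K) (hvol : 0 ≤ vol)
    (hcov : (z ^ 4)⁻¹ / 4 * Ω ≤ ν * vol) (m13 : 4 ≤ M ^ (σ / 2)) :
    M ^ ((K : ℝ) - σ) ≤ N0K * vol := by
  have hM0 : 0 < M := by linarith
  have hz0 : 0 < z := by linarith
  have g1 : (z ^ 4)⁻¹ / 4 * Ω ≤ z ^ 2 * vol :=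
    le_trans hcov (mul_le_mul_of_nonneg_right hνn hvol)
  have g2 : M ^ K ≤ Ω * N0K := by
    rw [hΩd, div_mul_cancel₀ _ hN.ne']
    exact le_mul_of_one_le_left (by positivity) hG
  have g3 : z ^ 6 ≤ M ^ (σ / 2) := by
    rw [hzd, ← Real.rpow_natCast ((M ^ a) ^ (c * (n : ℝ))) 6,
      ← Real.rpow_mul (Real.rpow_nonneg hM0.le _), ← Real.rpow_mul hM0.le]
    apply Real.rpow_le_rpow_of_exponent_le hM
    push_cast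
    have g4 : (n : ℝ) ≤ (n : ℝ) ^ 3 := by
      apply le_self_pow₀ _ (by norm_num)
      exact_mod_cast hn
    have g5 : a * (c * n) ≤ a * (c * (n : ℝ) ^ 3) := by gcongr
    have g6 : 0 ≤ a * (c * (n : ℝ) ^ 3) := by positivity
    linarith
  have g4 : 4 * z ^ 6 ≤ M ^ σ := by
    calc 4 * z ^ 6 ≤ M ^ (σ / 2) * M ^ (σ / 2) :=
          mul_le_mul m13 g3 (by positivity) (Real.rpow_nonneg hM0.le _)
      _ = M ^ σ := by rw [← Real.rpow_add hM0]; congr 1; ring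
  have g5 : M ^ ((K : ℝ) - σ) = M ^ K / M ^ σ := by
    rw [Real.rpow_sub hM0, Real.rpow_natCast]
  rw [g5, div_le_iff₀ (Real.rpow_pos_of_pos hM0 _)]
  calc M ^ K ≤ Ω * N0K := g2
    _ = (4 * z ^ 4) * ((z ^ 4)⁻¹ / 4 * Ω) * N0K := by field_simp
    _ ≤ (4 * z ^ 4) * (z ^ 2 * vol) * N0K := by gcongr
    _ = N0K * vol * (4 * z ^ 6) := by ring
    _ ≤ N0K * vol * M ^ σ := mul_le_mul_of_nonneg_left g4 (by positivity)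

theorem sr_pc (P' c p ν : ℝ) (hP : 2 ≤ P') (hc : 0 < c) (hp0 : 0 ≤ p) (hp : p ≤ 2 * P')
    (hν : ν = P' ^ (2 * c)) : p ^ c ≤ ν := by
  have g1 : p ≤ P' ^ (2 : ℝ) := by
    refine le_trans hp ?_
    rw [Real.rpow_two]
    nlinarith
  calc p ^ c ≤ (P' ^ (2 : ℝ)) ^ c := Real.rpow_le_rpow hp0 g1 hc.le
    _ = ν := by rw [← Real.rpow_mul (by linarith), hν]

/-- mass of the alive points of level `p N₀` -/
theorem sr_ms (k : ℕ) (M CW Ω : ℝ) (p N₀ : ℕ) (hM : 1 ≤ M) (hCW : 1 ≤ CW) (hN₀ : 1 ≤ N₀)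
    (hpN : 1 ≤ p * N₀)
    (hW : ∀ (N : ℕ) (t : ℝ), 1 ≤ N → 0 < t →
      (N : ℝ) ^ (KN k) * t ^ (2 * KN k) * volume.real {a : X k | t ≤ ‖u N a‖} ≤ CW)
    (hΩd : Ω = CW * 64 ^ KN k * M ^ KN k / (N₀ : ℝ) ^ KN k) (A : Set (X k))
    (hA : A ⊆ {a : X k | M ^ (-(1 / 2 : ℝ)) / 2 ≤ ‖u (p * N₀) a‖}) :
    (p : ℝ) ^ KN k * volume.real A ≤ Ω := by
  have hM0 : 0 < M := by linarith
  have ht : 0 < M ^ (-(1 / 2 : ℝ)) := Real.rpow_pos_of_pos hM0 _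
  have hN0R : (0 : ℝ) < N₀ := by exact_mod_cast hN₀
  have hN0K : 0 < (N₀ : ℝ) ^ KN k := by positivity
  have h4K : (2 : ℝ) ^ (2 * KN k) ≤ 64 ^ KN k := by
    rw [pow_mul]
    exact pow_le_pow_left₀ (by norm_num) (by norm_num) _
  have g1 := sr_lev M 2 _ _ _ hM0 (by norm_num) (KN k)
    (hW (p * N₀) (M ^ (-(1 / 2 : ℝ)) / 2) hpN (by linarith))
  have g2 : volume.real A ≤
      volume.real {a : X k | M ^ (-(1 / 2 : ℝ)) / 2 ≤ ‖u (p * N₀) a‖} :=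
    measureReal_mono hA (measure_ne_top _ _)
  rw [hΩd, le_div_iff₀ hN0K]
  calc (p : ℝ) ^ KN k * volume.real A * (N₀ : ℝ) ^ KN k =
        ((p * N₀ : ℕ) : ℝ) ^ KN k * volume.real A := by push_cast; rw [mul_pow]; ring
    _ ≤ ((p * N₀ : ℕ) : ℝ) ^ KN k *
        volume.real {a : X k | M ^ (-(1 / 2 : ℝ)) / 2 ≤ ‖u (p * N₀) a‖} :=
        mul_le_mul_of_nonneg_left g2 (by positivity)
    _ ≤ 2 ^ (2 * KN k) * M ^ KN k * CW := g1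
    _ ≤ 64 ^ KN k * M ^ KN k * CW := by gcongr
    _ = CW * 64 ^ KN k * M ^ KN k := by ring

theorem sr_V (k : ℕ) (M CW Ω : ℝ) (N₀ : ℕ) (hM : 1 ≤ M) (hN₀ : 1 ≤ N₀)
    (hW : ∀ (N : ℕ) (t : ℝ), 1 ≤ N → 0 < t →
      (N : ℝ) ^ (KN k) * t ^ (2 * KN k) * volume.real {a : X k | t ≤ ‖u N a‖} ≤ CW)
    (hΩd : Ω = CW * 64 ^ KN k * M ^ KN k / (N₀ : ℝ) ^ KN k) :
    volume.real {a : X k | M ^ (-(1 / 2 : ℝ)) / 8 ≤ ‖u N₀ a‖} ≤ Ω := by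
  have hM0 : 0 < M := by linarith
  have ht : 0 < M ^ (-(1 / 2 : ℝ)) := Real.rpow_pos_of_pos hM0 _
  have hN0R : (0 : ℝ) < N₀ := by exact_mod_cast hN₀
  have hN0K : 0 < (N₀ : ℝ) ^ KN k := by positivity
  have g1 := sr_lev M 8 _ _ _ hM0 (by norm_num) (KN k)
    (hW N₀ (M ^ (-(1 / 2 : ℝ)) / 8) hN₀ (by linarith))
  rw [hΩd, le_div_iff₀ hN0K]
  have g2 : (8 : ℝ) ^ (2 * KN k) = 64 ^ KN k := by rw [pow_mul]; norm_num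
  rw [g2] at g1
  linarith

/-- mass of the exceptional sets of the pairs -/
theorem sr_E2v (k : ℕ) (M CW Ω PP ds q : ℝ) (p N₀ : ℕ) (hM : 1 ≤ M) (hPP : 1 ≤ PP) (hCW : 1 ≤ CW)
    (hN₀ : 1 ≤ N₀) (hds : 0 < ds) (hq : Real.sqrt PP ≤ q) (lo : ℝ) (hlod : lo = PP ^ (-(ds / 2)))
    (hΩd : Ω = CW * 64 ^ KN k * M ^ KN k / (N₀ : ℝ) ^ KN k) (E : Set (X k))
    (hE : ((p * N₀ : ℕ) : ℝ) ^ (KN k) * (M ^ (-(1 / 2 : ℝ)) / 2) ^ (2 * KN k) * volume.real E ≤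
        q ^ (-ds)) :
    (p : ℝ) ^ KN k * volume.real E ≤ lo * Ω := by
  have hM0 : 0 < M := by linarith
  have hPP0 : 0 < PP := by linarith
  have hN0R : (0 : ℝ) < N₀ := by exact_mod_cast hN₀
  have hN0K : 0 < (N₀ : ℝ) ^ KN k := by positivity
  have hlo0 : 0 < lo := by rw [hlod]; exact Real.rpow_pos_of_pos hPP0 _
  have h4K : (2 : ℝ) ^ (2 * KN k) ≤ 64 ^ KN k := by
    rw [pow_mul]
    exact pow_le_pow_left₀ (by norm_num) (by norm_num) _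
  have g1 := sr_lev M 2 _ _ _ hM0 (by norm_num) (KN k) hE
  have g2 : q ^ (-ds) ≤ lo := by
    have g3 : q ^ (-ds) ≤ (Real.sqrt PP) ^ (-ds) := by
      apply Real.rpow_le_rpow_of_nonpos (Real.sqrt_pos.mpr hPP0) hq
      linarith
    refine le_trans g3 (le_of_eq ?_)
    rw [Real.sqrt_eq_rpow, ← Real.rpow_mul hPP0.le, hlod]
    congr 1; ring
  rw [hΩd, mul_div_assoc', le_div_iff₀ hN0K]
  have g4 : 0 ≤ q ^ (-ds) := Real.rpow_nonneg (le_trans (Real.sqrt_nonneg _) hq) _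
  calc (p : ℝ) ^ KN k * volume.real E * (N₀ : ℝ) ^ KN k =
        ((p * N₀ : ℕ) : ℝ) ^ KN k * volume.real E := by push_cast; rw [mul_pow]; ring
    _ ≤ 2 ^ (2 * KN k) * M ^ KN k * q ^ (-ds) := g1
    _ ≤ 64 ^ KN k * M ^ KN k * lo := by gcongr
    _ = 1 * (lo * (64 ^ KN k * M ^ KN k)) := by ring
    _ ≤ CW * (lo * (64 ^ KN k * M ^ KN k)) := mul_le_mul_of_nonneg_right hCW (by positivity)
    _ = lo * (CW * 64 ^ KN k * M ^ KN k) := by ring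

end Pool.Agent.H22.LVP
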