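import Pool.Agent.H22.LVP.SR4
import Pool.Agent.H22.LVP.SR5
import Pool.Agent.H34.CLV.EX

/-!
# Row SR of lvp_modules, sixth part: the theorem for one value of `M`
-/

set_option autoImplicit false

open Finset MeasureTheory Filter

namespace Pool.Agent.H22.LVP

open Pool.Agent.H24.CL Pool.Agent.H24.LV

theorem sr_umeas (k N : ℕ) (s : ℝ) : MeasurableSet {a : X k | s ≤ ‖u N a‖} := by
  have h := (Pool.Agent.H34.CLV.pf_EX).2.2.2.2.2.2.2.1 k N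
  exact measurableSet_le measurable_const h.norm.measurable

/-- one prime: the mass of the good lines -/
theorem sr_mass (k : ℕ) (hk : 3 ≤ k) (hGM : L_GM) (CW CR CT c a d η : ℝ) (M PP P' w Me : ℝ)
    (N₁ N₀ p : ℕ) (hM : 1 ≤ M) (hCW : 1 ≤ CW) (hCR : 1 ≤ CR) (hCT : 1 ≤ CT)
    (hRT : ∀ (q N : ℕ) (t ν τ : ℝ) (A : Set (X k)), 1 ≤ q → 1 ≤ N →
      0 < t → 1 ≤ ν → 0 < τ → τ ≤ 1 / 8 → MeasurableSet A → (∀ a ∈ A, t ≤ ‖u (q * N) a‖) →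
      Cnt (H k q k) A ν →
      ((q : ℝ) * N) ^ (KN k) * t ^ (2 * KN k) *
        volume.real {a : X k | a ∈ A ∧ hd q {v : X k | t / 4 ≤ ‖u N v‖} a < τ} ≤
          CR * ν * τ ^ (2 * KN k - 1))
    (hPT : ∀ (N N' : ℕ) (t w : ℝ), 1 ≤ N' → N' ≤ N → 0 < t → 0 ≤ w → (N : ℝ) - N' ≤ w * N →
      (N : ℝ) ^ (KN k) * t ^ (2 * KN k) * volume.real {a : X k | t ≤ ‖u N a‖} ≤
      (N : ℝ) ^ (KN k) * t ^ (2 * KN k) * volume.real {a : X k | t / 2 ≤ ‖u N' a‖} +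
        CT * w ^ (KN k))
    (hc : 0 < c) (hc1 : c ≤ 1 / 100) (ha : 0 < a) (hd0 : 0 < d)
    (hη1 : η ≤ a * c / 10) (hη2 : η ≤ a * d / 4) (hPPd : PP = M ^ a) (hMe : Me = M ^ (-η))
    (hP'1 : Real.sqrt PP ≤ P') (hP'2 : P' ≤ PP) (hw : w = PP ^ (-(1 / 8 : ℝ))) (hw0 : 0 < w)
    (hw4 : w ≤ 1 / 4)
    (m6 : CT * 2 ^ (KN k + 1) ≤ PP ^ (1 / 16 : ℝ)) (m7 : 4 * 8 ^ KN k ≤ PP ^ (d / 4))
    (m8 : 8 * 8 ^ KN k * CR ≤ PP ^ c) (m9 : CW * 64 ^ KN k * (8 * 2 ^ KN k) ≤ PP ^ (c / 2))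
    (m14 : 8 ≤ PP ^ c)
    (hbig' : M ^ KN k * Me ≤ (N₁ : ℝ) ^ (KN k) *
      volume.real {a : X k | M ^ (-(1 / 2 : ℝ)) ≤ ‖u N₁ a‖})
    (hN₀ : 1 ≤ N₀) (hp : p.Prime) (hpP : P' ≤ (p : ℝ)) (l1 : p * N₀ ≤ N₁)
    (l2 : (N₁ : ℝ) - ((p * N₀ : ℕ) : ℝ) ≤ (2 * w) * N₁) (l3 : (N₁ : ℝ) ≤ 2 * (p * N₀))
    (E : Set (X k))
    (hEv : (((p * N₀ : ℕ) : ℝ)) ^ (KN k) * (M ^ (-(1 / 2 : ℝ)) / 2) ^ (2 * KN k) * volume.real E ≤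
        (p : ℝ) ^ (-d)) (A : Set (X k)) (hAm : MeasurableSet A)
    (hA : A = {a : X k | M ^ (-(1 / 2 : ℝ)) / 2 ≤ ‖u (p * N₀) a‖} \ E) (ν τ ρ Ω : ℝ)
    (hνd : ν = P' ^ (2 * c)) (hτd : τ = PP ^ (-c)) (hρd : ρ = PP ^ (-(4 * c)))
    (hΩd : Ω = CW * 64 ^ KN k * M ^ KN k / (N₀ : ℝ) ^ KN k)
    (hAc : Cnt (H k p k) A ν) (V : Set (X k))
    (hVd : V = {v : X k | M ^ (-(1 / 2 : ℝ)) / 8 ≤ ‖u N₀ v‖}) :
    ρ * Ω ≤ (p : ℝ) ^ (KN k - k) * ∫ a in GdL k p A V τ, hd p V a := by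
  have hM0 : 0 < M := by linarith
  have hPP1 : 1 ≤ PP := by rw [hPPd]; exact Real.one_le_rpow hM ha.le
  have hPP0 : 0 < PP := by linarith
  have hMe0 : 0 < Me := by rw [hMe]; exact Real.rpow_pos_of_pos hM0 _
  have hMe1 : PP ^ (-(c / 10)) ≤ Me := by
    rw [hMe, hPPd, ← Real.rpow_mul hM0.le]
    apply Real.rpow_le_rpow_of_exponent_le hM
    linarith
  have hMe2 : PP ^ (-(d / 4)) ≤ Me := by
    rw [hMe, hPPd, ← Real.rpow_mul hM0.le]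
    apply Real.rpow_le_rpow_of_exponent_le hM
    linarith
  obtain ⟨s1, s2, s3, s4, s5, s6, s7, s8, s9, s10, s11⟩ := sr_scale PP P' c 1 hPP1 hP'1 hP'2 hc hc1
  obtain ⟨y, hyd⟩ : ∃ y : ℝ, y = PP ^ c := ⟨_, rfl⟩
  rw [← hνd] at s2 s3 s4 s5
  rw [← hτd] at s9
  rw [← hρd] at s10 s11
  rw [← hyd] at s4 s6 s8 s9 s10 m8 m14
  have hy0 : 0 < y := by linarith
  have hτ0 : 0 < τ := by rw [s9]; positivity
  have hτ8 : τ ≤ 1 / 8 := by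
    rw [s9, one_div]
    exact inv_anti₀ (by norm_num) m14
  have hVm : MeasurableSet V := by rw [hVd]; exact sr_umeas _ _ _
  have hK6 : 6 ≤ KN k := by
    unfold KN
    rw [Nat.le_div_iff_mul_le (by norm_num)]
    nlinarith
  have hyMe : y⁻¹ ≤ Me := by
    refine le_trans ?_ hMe1
    rw [hyd, ← Real.rpow_neg hPP0.le]
    apply Real.rpow_le_rpow_of_exponent_le hPP1
    linarith
  have gm0 := hGM k p (by omega) hp.one_lt.le A V τ ν hAm hVm hτ0 s2 hAc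
  have hone := sr_one k M hM N₁ N₀ p hN₀ hp.one_lt.le l1 w hw0.le l2 l3 Me hbig' CT CR
    hPT hRT ν τ s2 hτ0 hτ8 ((p : ℝ) ^ (-d)) E hEv A hAm hA hAc
    (sr_c1 PP c w CT Me (KN k) (by omega) hPP1 hc1 hCT hw hw0 hw4 hMe1 m6)
    (sr_c2 PP d p Me (KN k) hPP1 hd0 (le_trans hP'1 hpP) hMe2 m7)
    (sr_c3 y ν τ CR Me (KN k) hK6 s6 hCR s2 hτ0 (by linarith) s4 s9 hyMe m8)
  rw [← hVd] at hone
  rw [hΩd]
  exact sr_avg k hk M hM N₁ N₀ p hN₀ hp.one_lt.le l3 Me ν τ ρ CW s2 hτ0 A V hVm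
    gm0.1 gm0.2.2.2.2.1 hone
    (sr_c4 PP c y ν τ ρ CW Me (KN k) hPP1 hc hyd s6 hCW s4 s9 s10 hMe0 hMe1 m9)

end Pool.Agent.H22.LVP
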